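import Pool.Agent.Hhelper63.AnT.Surf

/-!
Case (b) of MP_12b54f_gt: an explicit path of representations of `Tri 4 3 3`.

The matrices `R0, R1` (fixed, unitary) and `R2` (depending on four numbers `C, S, A, B` with
`C² = 1 + S²`, `A² = h + (h + 1/2) S²`, `B² = 1/2 + (1/2 - h) S²`, where `h = 1/√2`) are
involutions with `R2 R0 R2 = - R0 R2 R0` and `R2 R1 R2 = - R1 R2 R1`.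
-/

namespace Pool.Agent.AnB

open Pool.Agent.Hhelper63.AnT

/-- a 4 by 4 matrix -/
def mk4 (a b c d e f g h i j k l m n o p : ℂ) : M4 := !![a, b, c, d; e, f, g, h; i, j, k, l; m, n, o, p]

theorem mk4_ext {a b c d e f g h i j k l m n o p a' b' c' d' e' f' g' h' i' j' k' l' m' n' o' p' : ℂ}
    (h1 : a = a') (h2 : b = b') (h3 : c = c') (h4 : d = d') (h5 : e = e') (h6 : f = f')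
    (h7 : g = g') (h8 : h = h') (h9 : i = i') (h10 : j = j') (h11 : k = k') (h12 : l = l')
    (h13 : m = m') (h14 : n = n') (h15 : o = o') (h16 : p = p') :
    mk4 a b c d e f g h i j k l m n o p = mk4 a' b' c' d' e' f' g' h' i' j' k' l' m' n' o' p' := by
  rw [h1, h2, h3, h4, h5, h6, h7, h8, h9, h10, h11, h12, h13, h14, h15, h16]

theorem mk4_mul (a b c d e f g h i j k l m n o p a' b' c' d' e' f' g' h' i' j' k' l' m' n' o' p' : ℂ) :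
    mk4 a b c d e f g h i j k l m n o p * mk4 a' b' c' d' e' f' g' h' i' j' k' l' m' n' o' p' =
    mk4 (a * a' + b * e' + c * i' + d * m') (a * b' + b * f' + c * j' + d * n')
      (a * c' + b * g' + c * k' + d * o') (a * d' + b * h' + c * l' + d * p')
      (e * a' + f * e' + g * i' + h * m') (e * b' + f * f' + g * j' + h * n')
      (e * c' + f * g' + g * k' + h * o') (e * d' + f * h' + g * l' + h * p')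
      (i * a' + j * e' + k * i' + l * m') (i * b' + j * f' + k * j' + l * n')
      (i * c' + j * g' + k * k' + l * o') (i * d' + j * h' + k * l' + l * p')
      (m * a' + n * e' + o * i' + p * m') (m * b' + n * f' + o * j' + p * n')
      (m * c' + n * g' + o * k' + p * o') (m * d' + n * h' + o * l' + p * p') := by
  ext x y
  fin_cases x <;> fin_cases y <;> simp [mk4, Matrix.mul_apply, Fin.sum_univ_four]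

theorem mk4_one : (1 : M4) = mk4 1 0 0 0 0 1 0 0 0 0 1 0 0 0 0 1 := by
  ext x y
  fin_cases x <;> fin_cases y <;> simp [mk4]

theorem mk4_neg (a b c d e f g h i j k l m n o p : ℂ) : -mk4 a b c d e f g h i j k l m n o p =
    mk4 (-a) (-b) (-c) (-d) (-e) (-f) (-g) (-h) (-i) (-j) (-k) (-l) (-m) (-n) (-o) (-p) := by
  ext x y
  fin_cases x <;> fin_cases y <;> simp [mk4]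

theorem mk4_add (a b c d e f g h i j k l m n o p a' b' c' d' e' f' g' h' i' j' k' l' m' n' o' p' : ℂ) :
    mk4 a b c d e f g h i j k l m n o p + mk4 a' b' c' d' e' f' g' h' i' j' k' l' m' n' o' p' =
    mk4 (a + a') (b + b') (c + c') (d + d') (e + e') (f + f') (g + g') (h + h')
      (i + i') (j + j') (k + k') (l + l') (m + m') (n + n') (o + o') (p + p') := by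
  ext x y
  fin_cases x <;> fin_cases y <;> simp [mk4]

theorem mk4_smul (t a b c d e f g h i j k l m n o p : ℂ) : t • mk4 a b c d e f g h i j k l m n o p =
    mk4 (t * a) (t * b) (t * c) (t * d) (t * e) (t * f) (t * g) (t * h) (t * i) (t * j) (t * k)
      (t * l) (t * m) (t * n) (t * o) (t * p) := by
  ext x y
  fin_cases x <;> fin_cases y <;> simp [mk4]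

theorem mk4_star (a b c d e f g h i j k l m n o p : ℂ) :
    (mk4 a b c d e f g h i j k l m n o p).conjTranspose =
    mk4 (star a) (star e) (star i) (star m) (star b) (star f) (star j) (star n)
      (star c) (star g) (star k) (star o) (star d) (star h) (star l) (star p) := by
  ext x y
  fin_cases x <;> fin_cases y <;> simp [mk4, Matrix.conjTranspose_apply]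

theorem mk4_mulVec (a b c d e f g h i j k l m n o p : ℂ) (v : Fin 4 → ℂ) :
    (mk4 a b c d e f g h i j k l m n o p).mulVec v =
    ![a * v 0 + b * v 1 + c * v 2 + d * v 3, e * v 0 + f * v 1 + g * v 2 + h * v 3,
      i * v 0 + j * v 1 + k * v 2 + l * v 3, m * v 0 + n * v 1 + o * v 2 + p * v 3] := by
  ext x
  fin_cases x <;> simp [mk4, Matrix.mulVec, dotProduct, Fin.sum_univ_four]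

/-- the relations of the parameters -/
structure Rel (h p q C S A B : ℂ) : Prop where
  hh : h * h = 1 / 2
  hp : h * p = (p + q) / 2
  hq : h * q = (p - q) / 2
  pp : p * p = 1 + h
  qq : q * q = 1 - h
  pq : p * q = h
  cc : C * C = 1 + S * S
  aa : A * A = h + (h + 1 / 2) * (S * S)
  bb : B * B = 1 / 2 + (1 / 2 - h) * (S * S)

open Complex (I)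

/-- the first reflection -/
noncomputable def R0 (p q : ℂ) : M4 :=
  mk4 0 0 0 (-((p - q) / 2 + I * ((p + q) / 2)))
    0 0 (-((p + q) / 2 - I * ((p - q) / 2))) 0
    0 (-((p + q) / 2 + I * ((p - q) / 2))) 0 0
    (-((p - q) / 2 - I * ((p + q) / 2))) 0 0 0

/-- the second reflection -/
noncomputable def R1 (p q : ℂ) : M4 :=
  mk4 0 0 0 (-((p - q) / 2 - I * ((p + q) / 2)))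
    0 0 (-((p + q) / 2 + I * ((p - q) / 2))) 0
    0 (-((p + q) / 2 - I * ((p - q) / 2))) 0 0
    (-((p - q) / 2 + I * ((p + q) / 2))) 0 0 0

/-- the third reflection -/
noncomputable def R2 (h p q C S A B : ℂ) : M4 :=
  mk4 (-(I * (A * B + (h + 1 / 2) * C * S))) (-(h * (A * C - S * B)))
      (-(I * (p * B * C + q * A * S))) (-(h * (p * C * C + q * S * S)))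
    (h * (A * C - S * B)) (I * (A * B - (h - 1 / 2) * C * S))
      (h * (p * C * C - q * S * S)) (I * (p * B * C - q * A * S))
    (I * (p * B * C + q * A * S)) (h * (p * C * C - q * S * S))
      (I * (A * B + (h - 1 / 2) * C * S)) (h * (A * C + S * B))
    (-(h * (p * C * C + q * S * S))) (-(I * (p * B * C - q * A * S)))
      (-(h * (A * C + S * B))) (I * ((h + 1 / 2) * C * S - A * B))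

/-- square -/
theorem R0_sq {h p q C S A B : ℂ} (r : Rel h p q C S A B) :
    R0 p q * R0 p q = 1 := by
  have hI : I * I = -1 := Complex.I_mul_I
  rw [R0, mk4_mul, mk4_one]
  apply mk4_ext
  · linear_combination (-(1/4)*q^2 -(1/2)*p*q -(1/4)*p^2) * hI + ((1/2)) * r.pp + ((1/2)) * r.qq
  · ring
  · ring
  · ring
  · ring
  · linear_combination (-(1/4)*q^2 +(1/2)*p*q -(1/4)*p^2) * hI + ((1/2)) * r.pp + ((1/2)) * r.qq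
  · ring
  · ring
  · ring
  · ring
  · linear_combination (-(1/4)*q^2 +(1/2)*p*q -(1/4)*p^2) * hI + ((1/2)) * r.pp + ((1/2)) * r.qq
  · ring
  · ring
  · ring
  · ring
  · linear_combination (-(1/4)*q^2 -(1/2)*p*q -(1/4)*p^2) * hI + ((1/2)) * r.pp + ((1/2)) * r.qq

/-- square -/
theorem R1_sq {h p q C S A B : ℂ} (r : Rel h p q C S A B) :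
    R1 p q * R1 p q = 1 := by
  have hI : I * I = -1 := Complex.I_mul_I
  rw [R1, mk4_mul, mk4_one]
  apply mk4_ext
  · linear_combination (-(1/4)*q^2 -(1/2)*p*q -(1/4)*p^2) * hI + ((1/2)) * r.pp + ((1/2)) * r.qq
  · ring
  · ring
  · ring
  · ring
  · linear_combination (-(1/4)*q^2 +(1/2)*p*q -(1/4)*p^2) * hI + ((1/2)) * r.pp + ((1/2)) * r.qq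
  · ring
  · ring
  · ring
  · ring
  · linear_combination (-(1/4)*q^2 +(1/2)*p*q -(1/4)*p^2) * hI + ((1/2)) * r.pp + ((1/2)) * r.qq
  · ring
  · ring
  · ring
  · ring
  · linear_combination (-(1/4)*q^2 -(1/2)*p*q -(1/4)*p^2) * hI + ((1/2)) * r.pp + ((1/2)) * r.qq

/-- square -/
theorem R2_sq {h p q C S A B : ℂ} (r : Rel h p q C S A B) :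
    R2 h p q C S A B * R2 h p q C S A B = 1 := by
  have hI : I * I = -1 := Complex.I_mul_I
  rw [R2, mk4_mul, mk4_one]
  apply mk4_ext
  · linear_combination (A^2*B^2 +C*S*A*B +(1/4)*C^2*S^2 -q^2*S^2*A^2 -2*p*q*C*S*A*B -p^2*C^2*B^2 +2*h*C*S*A*B +h*C^2*S^2 +h^2*C^2*S^2) * hI + (-S^2 -S^2*B^2 -S^4 +2*C*S*A*B -C^2*A^2 -C^2*S^2 +q^2*S^4 +2*p*q*C^2*S^2 +p^2*C^4) * r.hh + (C^2*B^2 +(1/2)*C^4) * r.pp + (S^2*A^2 +(1/2)*S^4) * r.qq + (2*C*S*A*B +C^2*S^2) * r.pq + ((1/2) +B^2 -(1/2)*A^2 -(1/4)*S^2 +(1/2)*C^2 +(1/2)*h +h*B^2 +(1/2)*h*S^2 +(1/2)*h*C^2) * r.cc + (-(1/2) -B^2 +(1/2)*S^2 -h*S^2) * r.aa + (1) * r.bb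
  · linear_combination (-2*I*C*S^2*B +2*I*C^2*S*A) * r.hh + (2*I*q*C*S^2*B -2*I*q*C^2*S*A) * r.hp + (I*C*S^2*B -I*C^2*S*A) * r.qq + (I*C*S^2*B -I*C^2*S*A) * r.pq
  · linear_combination (q*C*S^2*A +p*C^2*S*B) * hI + (2*q*C*S^2*A +2*p*C^2*S*B) * r.hh
  · ring
  · linear_combination (2*I*C*S^2*B -2*I*C^2*S*A) * r.hh + (-2*I*q*C*S^2*B +2*I*q*C^2*S*A) * r.hp + (-I*C*S^2*B +I*C^2*S*A) * r.qq + (-I*C*S^2*B +I*C^2*S*A) * r.pq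
  · linear_combination (A^2*B^2 +C*S*A*B +(1/4)*C^2*S^2 -q^2*S^2*A^2 +2*p*q*C*S*A*B -p^2*C^2*B^2 -2*h*C*S*A*B -h*C^2*S^2 +h^2*C^2*S^2) * hI + (-S^2 -S^2*B^2 -S^4 +2*C*S*A*B -C^2*A^2 -C^2*S^2 +q^2*S^4 -2*p*q*C^2*S^2 +p^2*C^4) * r.hh + (C^2*B^2 +(1/2)*C^4) * r.pp + (S^2*A^2 +(1/2)*S^4) * r.qq + (-2*C*S*A*B -C^2*S^2) * r.pq + ((1/2) +B^2 -(1/2)*A^2 -(1/4)*S^2 +(1/2)*C^2 +(1/2)*h +h*B^2 +(1/2)*h*S^2 +(1/2)*h*C^2) * r.cc + (-(1/2) -B^2 +(1/2)*S^2 -h*S^2) * r.aa + (1) * r.bb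
  · ring
  · linear_combination (-q*C*S^2*A +p*C^2*S*B) * hI + (-2*q*C*S^2*A +2*p*C^2*S*B) * r.hh
  · linear_combination (-q*C*S^2*A -p*C^2*S*B) * hI + (-2*q*C*S^2*A -2*p*C^2*S*B) * r.hh
  · ring
  · linear_combination (A^2*B^2 -C*S*A*B +(1/4)*C^2*S^2 -q^2*S^2*A^2 -2*p*q*C*S*A*B -p^2*C^2*B^2 +2*h*C*S*A*B -h*C^2*S^2 +h^2*C^2*S^2) * hI + (-S^2 -S^2*B^2 -S^4 -2*C*S*A*B -C^2*A^2 -C^2*S^2 +q^2*S^4 -2*p*q*C^2*S^2 +p^2*C^4) * r.hh + (C^2*B^2 +(1/2)*C^4) * r.pp + (S^2*A^2 +(1/2)*S^4) * r.qq + (2*C*S*A*B -C^2*S^2) * r.pq + ((1/2) +B^2 -(1/2)*A^2 -(1/4)*S^2 +(1/2)*C^2 +(1/2)*h +h*B^2 +(1/2)*h*S^2 +(1/2)*h*C^2) * r.cc + (-(1/2) -B^2 +(1/2)*S^2 -h*S^2) * r.aa + (1) * r.bb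
  · linear_combination (2*I*C*S^2*B +2*I*C^2*S*A) * r.hh + (-2*I*q*C*S^2*B -2*I*q*C^2*S*A) * r.hp + (-I*C*S^2*B -I*C^2*S*A) * r.qq + (-I*C*S^2*B -I*C^2*S*A) * r.pq
  · ring
  · linear_combination (q*C*S^2*A -p*C^2*S*B) * hI + (2*q*C*S^2*A -2*p*C^2*S*B) * r.hh
  · linear_combination (-2*I*C*S^2*B -2*I*C^2*S*A) * r.hh + (2*I*q*C*S^2*B +2*I*q*C^2*S*A) * r.hp + (I*C*S^2*B +I*C^2*S*A) * r.qq + (I*C*S^2*B +I*C^2*S*A) * r.pq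
  · linear_combination (A^2*B^2 -C*S*A*B +(1/4)*C^2*S^2 -q^2*S^2*A^2 +2*p*q*C*S*A*B -p^2*C^2*B^2 -2*h*C*S*A*B +h*C^2*S^2 +h^2*C^2*S^2) * hI + (-S^2 -S^2*B^2 -S^4 -2*C*S*A*B -C^2*A^2 -C^2*S^2 +q^2*S^4 +2*p*q*C^2*S^2 +p^2*C^4) * r.hh + (C^2*B^2 +(1/2)*C^4) * r.pp + (S^2*A^2 +(1/2)*S^4) * r.qq + (-2*C*S*A*B +C^2*S^2) * r.pq + ((1/2) +B^2 -(1/2)*A^2 -(1/4)*S^2 +(1/2)*C^2 +(1/2)*h +h*B^2 +(1/2)*h*S^2 +(1/2)*h*C^2) * r.cc + (-(1/2) -B^2 +(1/2)*S^2 -h*S^2) * r.aa + (1) * r.bb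

/-- braid relation -/
theorem braid0 {h p q C S A B : ℂ} (r : Rel h p q C S A B) :
    R2 h p q C S A B * R0 p q * R2 h p q C S A B = -(R0 p q * R2 h p q C S A B * R0 p q) := by
  have hI : I * I = -1 := Complex.I_mul_I
  rw [R2, R0, mk4_mul, mk4_mul, mk4_mul, mk4_mul, mk4_neg]
  apply mk4_ext
  · linear_combination ((1/4)*I*q^2*A*B -(1/8)*I*q^2*C*S +(1/2)*I*p*q*A*B -(1/4)*I*p*q*C*S +(1/4)*I*p^2*A*B -(1/8)*I*p^2*C*S -(1/4)*I*h*q^2*C*S -(1/2)*I*h*p*q*C*S -(1/4)*I*h*p^2*C*S) * hI + (I*C*S +2*I*C*S^3 +I*q^2*C*S^3 -I*p*q*C*S^3 +I*p*q*C^3*S -I*p^2*C^3*S) * r.hh + (-2*I*q*S^2*A*B -I*q*C*S*B^2 +I*q*C*S*A^2 -(1/2)*I*q*C*S^3 +2*I*q*C^2*A*B +(1/2)*I*q*C^3*S +(1/2)*I*p*C*S -I*p*C*S*B^2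 -(1/2)*I*p*C^3*S) * r.hp + ((1/2)*I*q*C*S +I*q*C*S*A^2 +(1/2)*I*q*C*S^3) * r.hq + (-(1/2)*I*A*B +(1/2)*I*C*S -(1/2)*I*C*S*B^2 -(3/4)*I*C^3*S) * r.pp + (-(1/2)*I*A*B -I*S^2*A*B -(1/2)*I*C*S*B^2 +I*C^2*A*B +(1/4)*I*C^3*S) * r.qq + (-I*S^2*A*B +(1/2)*I*C*S -I*C*S*B^2 +I*C*S*A^2 -(1/2)*I*C*S^3 +I*C^2*A*B +(1/2)*I*C^3*S) * r.pq + (I*A*B -(1/2)*I*C*S -(1/2)*I*h*C*S) * r.cc + (I*h*C*S) * r.aa + (-I*C*S -I*h*C*S) * r.bb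
  · linear_combination (p*q*S*A^2*B +p*q*C*A*B^2 +(1/2)*p*q*C*S^2*A +(1/2)*p*q*C^2*S*B +(1/4)*h*q^2*S*B +(1/4)*h*q^2*C*A -h*q^2*C*S^2*A -(1/4)*h*p^2*S*B -(1/4)*h*p^2*C*A -h*p^2*C^2*S*B +I*p*q*S*A^2*B -I*p*q*C*A*B^2 +(1/2)*I*p*q*C*S^2*A -(1/2)*I*p*q*C^2*S*B +I*h*q^2*C*S^2*A -I*h*p^2*C^2*S*B) * hI + (-S*B -S^3*B +C*S^2*A +p*q*S^3*B -p*q*C*S^2*A -p*q*C^2*S*B +p*q*C^3*A -I*S*B -I*S^3*B -I*C*S^2*A -I*p*q*S^3*B +I*p*q*C*S^2*A -I*p*q*C^2*S*B +I*p*q*C^3*A) * r.hh + (p*C^2*S*B -(1/2)*I*p*S*B -(1/2)*I*p*C*A +I*p*C^2*S*B) * r.hp + (q*C*S^2*A -(1/2)*I*q*S*B -(1/2)*I*q*C*A -I*q*C*S^2*A) * r.hq + ((1/2)*C^2*S*B -(1/4)*I*S*B -(1/4)*I*C*A +(1/2)*I*C^2*S*B) * r.pp + (-(1/2)*C*S^2*A +(1/4)*I*S*B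 +(1/4)*I*C*A +(1/2)*I*C*S^2*A) * r.qq + (-S*A^2*B +(1/2)*S^3*B -C*A*B^2 -(1/2)*C*S^2*A -(1/2)*C^2*S*B +(1/2)*C^3*A -(1/2)*I*S*B -I*S*A^2*B -(1/2)*I*S^3*B -(1/2)*I*C*A +I*C*A*B^2 -(1/2)*I*C*S^2*A +(1/2)*I*C^2*S*B +(1/2)*I*C^3*A) * r.pq + ((1/2)*S*B +(1/2)*h*C*A +(1/2)*I*S*B +I*h*S*B +(1/2)*I*h*C*A) * r.cc + (-h*S*B -I*h*S*B) * r.aa + (-h*C*A +I*h*C*A) * r.bb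
  · linear_combination (p*q^2*S*A -p^2*q*C*B -h*q*S*A*B^2 -(1/2)*h*q*C^2*S*A +h*q^3*S^3*A -h*p*C*A^2*B -(1/2)*h*p*C*S^2*B +h*p*q^2*C*S^2*B +h*p^2*q*C^2*S*A +h*p^3*C^3*B -h^2*q*C*S^2*B -h^2*p*C^2*S*A +(1/4)*I*q^3*S*A -(1/4)*I*p*q^2*C*B -(1/4)*I*p^2*q*S*A +(1/4)*I*p^3*C*B) * hI + (q*C*S^2*B +p*C^2*S*A +I*q*C^2*S*A -I*p*C*S^2*B) * r.hh + (S*A +(1/2)*C*B +C*A^2*B +(3/2)*C*S^2*B +(1/2)*C^2*S*A -(1/2)*C^3*B -q^2*C*S^2*B -p*q*C^2*S*A -p^2*C^3*B -I*S*A*B^2 +I*S^3*A -(1/2)*I*C*B +I*C*S^2*B -I*C^2*S*A -(1/2)*I*C^3*B -I*q^2*S^3*A +I*q^2*C^2*S*A -I*p*q*C*S^2*B +I*p*q*C^3*B) * r.hp + (S*A*B^2 +(3/2)*C*B +C*S^2*B -(1/2)*C^3*B -q^2*S^3*A +I*S*A +I*S^3*A -(1/2)*I*C*B +I*C*A^2*B -(1/2)*I*C*S^2*B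 -(1/2)*I*C^2*S*A +(1/2)*I*C^3*B) * r.hq + (q*C*B -(1/2)*q*C^2*S*A -(1/2)*q*C^3*B -(1/2)*p*C^3*B +(1/2)*I*q*S*A -(1/2)*I*q*C*S^2*B +(1/2)*I*q*C^3*B -(1/2)*I*p*C*B) * r.pp + ((1/2)*q*S^3*A -(1/2)*q*C*S^2*B -p*S*A -(1/2)*p*S^3*A -(1/2)*p*C*S^2*B -(1/2)*p*C^2*S*A -(1/2)*I*q*S*A -(1/2)*I*q*S^3*A +(1/2)*I*q*C^2*S*A -(1/2)*I*p*S^3*A +(1/2)*I*p*C*B -(1/2)*I*p*C*S^2*B +(1/2)*I*p*C^2*S*A +(1/2)*I*p*C^3*B) * r.qq + (-(1/4)*q*S*A -(1/2)*q*C*B +(1/4)*p*S*A -p*C*B +(3/4)*I*q*S*A -(1/4)*I*p*S*A +(1/2)*I*p*C*B) * r.cc + ((1/2)*q*C*B +(1/2)*p*C*B -(1/2)*I*q*C*B +(1/2)*I*p*C*B) * r.aa + (-(1/2)*q*S*A +(1/2)*p*S*A -(1/2)*I*q*S*A -(1/2)*I*p*S*A) * r.bb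
  · linear_combination ((1/2)*q*A^2*B^2 -(1/8)*q*C^2*S^2 -(1/2)*q^3*S^2*A^2 -(1/2)*p*A^2*B^2 +(1/8)*p*C^2*S^2 -(1/2)*p*q^2*S^2*A^2 +(1/2)*p^2*q*C^2*B^2 +(1/2)*p^3*C^2*B^2 -(1/2)*h*q*C^2*S^2 -(1/4)*h*q^3*S^2 +(1/2)*h*p*C^2*S^2 -(1/2)*h*p*q^2*S^2 -(1/4)*h*p*q^2*C^2 -(1/4)*h*p^2*q*S^2 -(1/2)*h*p^2*q*C^2 -(1/4)*h*p^3*C^2 -(1/2)*h^2*q*C^2*S^2 +(1/2)*h^2*p*C^2*S^2 -(1/2)*I*q*A^2*B^2 +(1/8)*I*q*C^2*S^2 +(1/2)*I*q^3*S^2*A^2 -(1/2)*I*p*A^2*B^2 +(1/8)*I*p*C^2*S^2 -(1/2)*I*p*q^2*S^2*A^2 -(1/2)*I*p^2*q*C^2*B^2 +(1/2)*I*p^3*C^2*B^2 +(1/2)*I*h*q*C^2*S^2 +(1/2)*I*h*p*C^2*S^2 +(1/2)*I*h^2*q*C^2*S^2 +(1/2)*I*h^2*p*C^2*S^2) * hI + (-(1/2)*q*S^2*B^2 +(1/2)*q*C^2*A^2 +(1/2)*q*C^2*S^2 +(1/2)*q^3*S^4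 -(1/2)*p*S^2*B^2 +(1/2)*p*C^2*A^2 -(1/2)*p*C^2*S^2 -(1/2)*p*q^2*S^4 +p*q^2*C^2*S^2 -p^2*q*C^2*S^2 +(1/2)*p^2*q*C^4 -(1/2)*p^3*C^4 -(1/2)*I*q*S^2*B^2 +(1/2)*I*q*C^2*A^2 -(1/2)*I*q*C^2*S^2 +(1/2)*I*q^3*S^4 +(1/2)*I*p*S^2*B^2 -(1/2)*I*p*C^2*A^2 -(1/2)*I*p*C^2*S^2 +(1/2)*I*p*q^2*S^4 +I*p*q^2*C^2*S^2 +I*p^2*q*C^2*S^2 +(1/2)*I*p^2*q*C^4 +(1/2)*I*p^3*C^4) * r.hh + ((1/4) +(1/2)*B^2 +S^2 +(1/2)*S^2*B^2 -(1/2)*S^2*A^2 +(3/2)*S^4 -(1/2)*C^2 -(1/2)*C^2*B^2 -C^2*S^2 -(1/4)*C^4 +q^2*S^2 +p*q*C^2 -(1/4)*I +(1/2)*I*B^2 +(1/2)*I*S^2*B^2 -(1/2)*I*S^2*A^2 -(1/2)*I*S^4 -(1/2)*I*C^2 -(1/2)*I*C^2*B^2 -I*C^2*S^2 +(1/4)*I*C^4 +(1/2)*I*q^2*C^2 -(1/2)*I*p*q*S^2 -(1/2)*I*p^2*C^2) * r.hp + ((1/4) -(1/2)*B^2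 +(1/2)*S^2 -(1/2)*S^2*B^2 -(1/2)*S^2*A^2 +S^4 +(1/2)*C^2 -(1/2)*C^2*B^2 +(1/4)*C^4 +(1/4)*I +(1/2)*I*B^2 -(1/2)*I*S^2 +(1/2)*I*S^2*B^2 +(1/2)*I*S^2*A^2 -I*S^4 -(1/2)*I*C^2 +(1/2)*I*C^2*B^2 +(1/4)*I*C^4 +(1/2)*I*q^2*S^2) * r.hq + ((1/2)*q*C^2 -(1/2)*q*C^2*B^2 -(1/2)*q*C^2*S^2 +(1/4)*q*C^4 -(1/2)*p*C^2*B^2 -(1/4)*p*C^4 -(1/4)*I*q*S^2 -(1/4)*I*q*C^2 +(1/2)*I*q*C^2*B^2 +(1/2)*I*q*C^2*S^2 +(1/4)*I*q*C^4 -(1/4)*I*p*C^2 -(1/2)*I*p*C^2*B^2 +(1/4)*I*p*C^4) * r.pp + ((1/2)*q*S^2 +(1/2)*q*S^2*A^2 +(1/4)*q*S^4 +(1/2)*p*S^2 +(1/2)*p*S^2*A^2 -(1/4)*p*S^4 +(1/2)*p*C^2 +(1/2)*p*C^2*S^2 -(1/4)*I*q*S^2 -(1/2)*I*q*S^2*A^2 +(1/4)*I*q*S^4 +(1/4)*I*q*C^2 +(1/2)*I*p*S^2*A^2 +(1/4)*I*p*S^4 +(1/4)*I*p*C^2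 +(1/2)*I*p*C^2*S^2) * r.qq + (-(1/2)*q*B^2 +(1/4)*q*A^2 -(5/8)*q*S^2 +(1/4)*p -p*B^2 +(1/4)*p*A^2 -(5/8)*p*S^2 -(1/4)*p*C^2 +(1/4)*I*q +(1/4)*I*q*A^2 -(1/8)*I*q*S^2 +(1/4)*I*q*C^2 -(1/2)*I*p*B^2 -(1/4)*I*p*A^2 +(1/8)*I*p*S^2 +(1/2)*I*p*C^2) * r.cc + ((1/4)*q -(1/2)*q*B^2 +(3/4)*q*S^2 +(1/4)*p +(1/2)*p*B^2 +(1/4)*p*S^2 +(1/4)*I*q +(1/2)*I*q*B^2 -(3/4)*I*q*S^2 -(1/4)*I*p +(1/2)*I*p*B^2 +(1/4)*I*p*S^2) * r.aa + (-(1/2)*q*S^2 -p -p*S^2 +(1/2)*I*p*S^2) * r.bb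
  · linear_combination (-p*q*S*A^2*B -p*q*C*A*B^2 -(1/2)*p*q*C*S^2*A -(1/2)*p*q*C^2*S*B -(1/4)*h*q^2*S*B -(1/4)*h*q^2*C*A +h*q^2*C*S^2*A +(1/4)*h*p^2*S*B +(1/4)*h*p^2*C*A +h*p^2*C^2*S*B +I*p*q*S*A^2*B -I*p*q*C*A*B^2 +(1/2)*I*p*q*C*S^2*A -(1/2)*I*p*q*C^2*S*B +I*h*q^2*C*S^2*A -I*h*p^2*C^2*S*B) * hI + (S*B +S^3*B -C*S^2*A -p*q*S^3*B +p*q*C*S^2*A +p*q*C^2*S*B -p*q*C^3*A -I*S*B -I*S^3*B -I*C*S^2*A -I*p*q*S^3*B +I*p*q*C*S^2*A -I*p*q*C^2*S*B +I*p*q*C^3*A) * r.hh + (-p*C^2*S*B -(1/2)*I*p*S*B -(1/2)*I*p*C*A +I*p*C^2*S*B) * r.hp + (-q*C*S^2*A -(1/2)*I*q*S*B -(1/2)*I*q*C*A -I*q*C*S^2*A) * r.hq + (-(1/2)*C^2*S*B -(1/4)*I*S*B -(1/4)*I*C*A +(1/2)*I*C^2*S*B) * r.pp + ((1/2)*C*S^2*A +(1/4)*I*S*B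 +(1/4)*I*C*A +(1/2)*I*C*S^2*A) * r.qq + (S*A^2*B -(1/2)*S^3*B +C*A*B^2 +(1/2)*C*S^2*A +(1/2)*C^2*S*B -(1/2)*C^3*A -(1/2)*I*S*B -I*S*A^2*B -(1/2)*I*S^3*B -(1/2)*I*C*A +I*C*A*B^2 -(1/2)*I*C*S^2*A +(1/2)*I*C^2*S*B +(1/2)*I*C^3*A) * r.pq + (-(1/2)*S*B -(1/2)*h*C*A +(1/2)*I*S*B +I*h*S*B +(1/2)*I*h*C*A) * r.cc + (h*S*B -I*h*S*B) * r.aa + (h*C*A +I*h*C*A) * r.bb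
  · linear_combination (-(1/4)*I*q^2*A*B +(1/8)*I*q^2*C*S +(1/2)*I*p*q*A*B -(1/4)*I*p*q*C*S -(1/4)*I*p^2*A*B +(1/8)*I*p^2*C*S -(1/4)*I*h*q^2*C*S +(1/2)*I*h*p*q*C*S -(1/4)*I*h*p^2*C*S) * hI + (I*C*S +2*I*C*S^3 -I*q^2*C*S^3 -I*p*q*C*S^3 +I*p*q*C^3*S +I*p^2*C^3*S) * r.hh + (2*I*q*S^2*A*B +I*q*C*S*B^2 -I*q*C*S*A^2 +(1/2)*I*q*C*S^3 -2*I*q*C^2*A*B -(1/2)*I*q*C^3*S +(1/2)*I*p*C*S -I*p*C*S*B^2 -(1/2)*I*p*C^3*S) * r.hp + ((1/2)*I*q*C*S +I*q*C*S*A^2 +(1/2)*I*q*C*S^3) * r.hq + ((1/2)*I*A*B -(1/2)*I*C*S*B^2 +(1/4)*I*C^3*S) * r.pp + ((1/2)*I*A*B +I*S^2*A*B -(1/2)*I*C*S +(1/2)*I*C*S*B^2 -I*C*S*A^2 -(1/2)*I*C*S^3 -I*C^2*A*B -(1/4)*I*C^3*S) * r.qq + (I*S^2*A*B +(1/2)*I*C*S -I*C^2*A*B) *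 r.pq + (-I*A*B +(1/2)*I*h*C*S) * r.cc + (-I*C*S +I*h*C*S) * r.aa + (-I*h*C*S) * r.bb
  · linear_combination (-(1/2)*q*A^2*B^2 +(1/8)*q*C^2*S^2 +(1/2)*q^3*S^2*A^2 -(1/2)*p*A^2*B^2 +(1/8)*p*C^2*S^2 -(1/2)*p*q^2*S^2*A^2 -(1/2)*p^2*q*C^2*B^2 +(1/2)*p^3*C^2*B^2 -(1/2)*h*q*C^2*S^2 -(1/4)*h*q^3*S^2 -(1/2)*h*p*C^2*S^2 +(1/2)*h*p*q^2*S^2 +(1/4)*h*p*q^2*C^2 -(1/4)*h*p^2*q*S^2 -(1/2)*h*p^2*q*C^2 +(1/4)*h*p^3*C^2 +(1/2)*h^2*q*C^2*S^2 +(1/2)*h^2*p*C^2*S^2 -(1/2)*I*q*A^2*B^2 +(1/8)*I*q*C^2*S^2 +(1/2)*I*q^3*S^2*A^2 +(1/2)*I*p*A^2*B^2 -(1/8)*I*p*C^2*S^2 +(1/2)*I*p*q^2*S^2*A^2 -(1/2)*I*p^2*q*C^2*B^2 -(1/2)*I*p^3*C^2*B^2 -(1/2)*I*h*q*C^2*S^2 +(1/2)*I*h*p*C^2*S^2 +(1/2)*I*h^2*q*C^2*S^2 -(1/2)*I*h^2*p*C^2*S^2)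 * hI + ((1/2)*q*S^2*B^2 -(1/2)*q*C^2*A^2 -(1/2)*q*C^2*S^2 -(1/2)*q^3*S^4 -(1/2)*p*S^2*B^2 +(1/2)*p*C^2*A^2 -(1/2)*p*C^2*S^2 -(1/2)*p*q^2*S^4 +p*q^2*C^2*S^2 +p^2*q*C^2*S^2 -(1/2)*p^2*q*C^4 -(1/2)*p^3*C^4 -(1/2)*I*q*S^2*B^2 +(1/2)*I*q*C^2*A^2 -(1/2)*I*q*C^2*S^2 +(1/2)*I*q^3*S^4 -(1/2)*I*p*S^2*B^2 +(1/2)*I*p*C^2*A^2 +(1/2)*I*p*C^2*S^2 -(1/2)*I*p*q^2*S^4 -I*p*q^2*C^2*S^2 +I*p^2*q*C^2*S^2 +(1/2)*I*p^2*q*C^4 -(1/2)*I*p^3*C^4) * r.hh + ((1/4) +(1/2)*B^2 +(3/2)*S^2 +(1/2)*S^2*B^2 -(1/2)*S^2*A^2 +S^4 -(1/2)*C^2 -(1/2)*C^2*B^2 -(1/4)*C^4 -q^2*S^2 +p*q*C^2 +(1/4)*I -(1/2)*I*B^2 -(1/2)*I*S^2 -(1/2)*I*S^2*B^2 +(1/2)*I*S^2*A^2 -(1/2)*I*C^2 +(1/2)*I*C^2*B^2 -(1/4)*I*C^4 +(1/2)*I*q^2*C^2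 +(1/2)*I*p*q*S^2 -(1/2)*I*p^2*C^2) * r.hp + (-(1/4) +(1/2)*B^2 -S^2 +(1/2)*S^2*B^2 +(1/2)*S^2*A^2 -(3/2)*S^4 +(1/2)*C^2 +(1/2)*C^2*B^2 +C^2*S^2 -(1/4)*C^4 +(1/4)*I +(1/2)*I*B^2 +(1/2)*I*S^2*B^2 +(1/2)*I*S^2*A^2 -(1/2)*I*S^4 -(1/2)*I*C^2 +(1/2)*I*C^2*B^2 +I*C^2*S^2 +(1/4)*I*C^4 -(1/2)*I*q^2*S^2) * r.hq + ((1/2)*q*C^2 +(1/2)*q*C^2*B^2 +(1/2)*q*C^2*S^2 -(1/4)*q*C^4 -(1/2)*p*C^2*B^2 -(1/4)*p*C^4 +(1/4)*I*q*S^2 -(1/4)*I*q*C^2 +(1/2)*I*q*C^2*B^2 +(1/2)*I*q*C^2*S^2 +(1/4)*I*q*C^4 -(1/4)*I*p*C^2 +(1/2)*I*p*C^2*B^2 -(1/4)*I*p*C^4) * r.pp + (-(1/2)*q*S^2 -(1/2)*q*S^2*A^2 -(1/4)*q*S^4 -(1/2)*p*S^2 +(1/2)*p*S^2*A^2 -(1/4)*p*S^4 +(1/2)*p*C^2 +(1/2)*p*C^2*S^2 +(1/4)*I*q*S^2 -(1/2)*I*q*S^2*A^2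 +(1/4)*I*q*S^4 +(1/4)*I*q*C^2 -(1/2)*I*p*S^2*A^2 -(1/4)*I*p*S^4 +(1/4)*I*p*C^2 -(1/2)*I*p*C^2*S^2) * r.qq + (-(1/4)*q -(1/4)*q*A^2 -(5/8)*q*S^2 -(1/4)*q*C^2 -(1/2)*p*B^2 +(1/4)*p*A^2 +(1/8)*p*S^2 -(1/2)*p*C^2 +(1/2)*I*q*B^2 +(1/4)*I*q*A^2 -(3/8)*I*q*S^2 -(3/4)*I*p +I*p*B^2 +(1/4)*I*p*A^2 +(1/8)*I*p*S^2 -(1/4)*I*p*C^2) * r.cc + (-(1/4)*q +(1/2)*q*B^2 -(5/4)*q*S^2 +(1/4)*p +(1/2)*p*B^2 +(3/4)*p*S^2 +(1/4)*I*q +(1/2)*I*q*B^2 -(1/4)*I*q*S^2 +(1/4)*I*p -(1/2)*I*p*B^2 +(1/4)*I*p*S^2) * r.aa + ((1/2)*q*S^2 +I*p +(1/2)*I*p*S^2) * r.bb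
  · linear_combination (p*q^2*S*A +p^2*q*C*B -h*q*S*A*B^2 -(1/2)*h*q*C^2*S*A +h*q^3*S^3*A +h*p*C*A^2*B +(1/2)*h*p*C*S^2*B -h*p*q^2*C*S^2*B +h*p^2*q*C^2*S*A -h*p^3*C^3*B +h^2*q*C*S^2*B -h^2*p*C^2*S*A +(1/4)*I*q^3*S*A +(1/4)*I*p*q^2*C*B -(1/4)*I*p^2*q*S*A -(1/4)*I*p^3*C*B) * hI + (-q*C*S^2*B +p*C^2*S*A +I*q*C^2*S*A +I*p*C*S^2*B) * r.hh + (S*A -(1/2)*C*B -C*A^2*B -(3/2)*C*S^2*B +(1/2)*C^2*S*A +(1/2)*C^3*B +q^2*C*S^2*B -p*q*C^2*S*A +p^2*C^3*B -I*S*A*B^2 +I*S^3*A +(1/2)*I*C*B -I*C*S^2*B -I*C^2*S*A +(1/2)*I*C^3*B -I*q^2*S^3*A +I*q^2*C^2*S*A +I*p*q*C*S^2*B -I*p*q*C^3*B) * r.hp + (S*A*B^2 -(3/2)*C*B -C*S^2*B +(1/2)*C^3*B -q^2*S^3*A +I*S*A +I*S^3*A +(1/2)*I*C*B -I*C*A^2*B +(1/2)*I*C*S^2*B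 -(1/2)*I*C^2*S*A -(1/2)*I*C^3*B) * r.hq + (-q*C*B -(1/2)*q*C^2*S*A +(1/2)*q*C^3*B +(1/2)*p*C^3*B +(1/2)*I*q*S*A +(1/2)*I*q*C*S^2*B -(1/2)*I*q*C^3*B +(1/2)*I*p*C*B) * r.pp + ((1/2)*q*S^3*A +(1/2)*q*C*S^2*B -p*S*A -(1/2)*p*S^3*A +(1/2)*p*C*S^2*B -(1/2)*p*C^2*S*A -(1/2)*I*q*S*A -(1/2)*I*q*S^3*A +(1/2)*I*q*C^2*S*A -(1/2)*I*p*S^3*A -(1/2)*I*p*C*B +(1/2)*I*p*C*S^2*B +(1/2)*I*p*C^2*S*A -(1/2)*I*p*C^3*B) * r.qq + (-(1/4)*q*S*A +(1/2)*q*C*B +(1/4)*p*S*A +p*C*B +(3/4)*I*q*S*A -(1/4)*I*p*S*A -(1/2)*I*p*C*B) * r.cc + (-(1/2)*q*C*B -(1/2)*p*C*B +(1/2)*I*q*C*B -(1/2)*I*p*C*B) * r.aa + (-(1/2)*q*S*A +(1/2)*p*S*A -(1/2)*I*q*S*A -(1/2)*I*p*S*A) * r.bb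
  · linear_combination (p*q^2*S*A -p^2*q*C*B -h*q*S*A*B^2 -(1/2)*h*q*C^2*S*A +h*q^3*S^3*A -h*p*C*A^2*B -(1/2)*h*p*C*S^2*B +h*p*q^2*C*S^2*B +h*p^2*q*C^2*S*A +h*p^3*C^3*B -h^2*q*C*S^2*B -h^2*p*C^2*S*A -(1/4)*I*q^3*S*A +(1/4)*I*p*q^2*C*B +(1/4)*I*p^2*q*S*A -(1/4)*I*p^3*C*B) * hI + (q*C*S^2*B +p*C^2*S*A -I*q*C^2*S*A +I*p*C*S^2*B) * r.hh + (S*A +(1/2)*C*B +C*A^2*B +(3/2)*C*S^2*B +(1/2)*C^2*S*A -(1/2)*C^3*B -q^2*C*S^2*B -p*q*C^2*S*A -p^2*C^3*B +I*S*A*B^2 -I*S^3*A +(1/2)*I*C*B -I*C*S^2*B +I*C^2*S*A +(1/2)*I*C^3*B +I*q^2*S^3*A -I*q^2*C^2*S*A +I*p*q*C*S^2*B -I*p*q*C^3*B) * r.hp + (S*A*B^2 +(3/2)*C*B +C*S^2*B -(1/2)*C^3*B -q^2*S^3*A -I*S*A -I*S^3*A +(1/2)*I*C*B -I*C*A^2*B +(1/2)*I*C*S^2*B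 +(1/2)*I*C^2*S*A -(1/2)*I*C^3*B) * r.hq + (q*C*B -(1/2)*q*C^2*S*A -(1/2)*q*C^3*B -(1/2)*p*C^3*B -(1/2)*I*q*S*A +(1/2)*I*q*C*S^2*B -(1/2)*I*q*C^3*B +(1/2)*I*p*C*B) * r.pp + ((1/2)*q*S^3*A -(1/2)*q*C*S^2*B -p*S*A -(1/2)*p*S^3*A -(1/2)*p*C*S^2*B -(1/2)*p*C^2*S*A +(1/2)*I*q*S*A +(1/2)*I*q*S^3*A -(1/2)*I*q*C^2*S*A +(1/2)*I*p*S^3*A -(1/2)*I*p*C*B +(1/2)*I*p*C*S^2*B -(1/2)*I*p*C^2*S*A -(1/2)*I*p*C^3*B) * r.qq + (-(1/4)*q*S*A -(1/2)*q*C*B +(1/4)*p*S*A -p*C*B -(3/4)*I*q*S*A +(1/4)*I*p*S*A -(1/2)*I*p*C*B) * r.cc + ((1/2)*q*C*B +(1/2)*p*C*B +(1/2)*I*q*C*B -(1/2)*I*p*C*B) * r.aa + (-(1/2)*q*S*A +(1/2)*p*S*A +(1/2)*I*q*S*A +(1/2)*I*p*S*A) * r.bb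
  · linear_combination (-(1/2)*q*A^2*B^2 +(1/8)*q*C^2*S^2 +(1/2)*q^3*S^2*A^2 -(1/2)*p*A^2*B^2 +(1/8)*p*C^2*S^2 -(1/2)*p*q^2*S^2*A^2 -(1/2)*p^2*q*C^2*B^2 +(1/2)*p^3*C^2*B^2 -(1/2)*h*q*C^2*S^2 -(1/4)*h*q^3*S^2 -(1/2)*h*p*C^2*S^2 +(1/2)*h*p*q^2*S^2 +(1/4)*h*p*q^2*C^2 -(1/4)*h*p^2*q*S^2 -(1/2)*h*p^2*q*C^2 +(1/4)*h*p^3*C^2 +(1/2)*h^2*q*C^2*S^2 +(1/2)*h^2*p*C^2*S^2 +(1/2)*I*q*A^2*B^2 -(1/8)*I*q*C^2*S^2 -(1/2)*I*q^3*S^2*A^2 -(1/2)*I*p*A^2*B^2 +(1/8)*I*p*C^2*S^2 -(1/2)*I*p*q^2*S^2*A^2 +(1/2)*I*p^2*q*C^2*B^2 +(1/2)*I*p^3*C^2*B^2 +(1/2)*I*h*q*C^2*S^2 -(1/2)*I*h*p*C^2*S^2 -(1/2)*I*h^2*q*C^2*S^2 +(1/2)*I*h^2*p*C^2*S^2) * hI + ((1/2)*q*S^2*B^2 -(1/2)*q*C^2*A^2 -(1/2)*q*C^2*S^2 -(1/2)*q^3*S^4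 -(1/2)*p*S^2*B^2 +(1/2)*p*C^2*A^2 -(1/2)*p*C^2*S^2 -(1/2)*p*q^2*S^4 +p*q^2*C^2*S^2 +p^2*q*C^2*S^2 -(1/2)*p^2*q*C^4 -(1/2)*p^3*C^4 +(1/2)*I*q*S^2*B^2 -(1/2)*I*q*C^2*A^2 +(1/2)*I*q*C^2*S^2 -(1/2)*I*q^3*S^4 +(1/2)*I*p*S^2*B^2 -(1/2)*I*p*C^2*A^2 -(1/2)*I*p*C^2*S^2 +(1/2)*I*p*q^2*S^4 +I*p*q^2*C^2*S^2 -I*p^2*q*C^2*S^2 -(1/2)*I*p^2*q*C^4 +(1/2)*I*p^3*C^4) * r.hh + ((1/4) +(1/2)*B^2 +(3/2)*S^2 +(1/2)*S^2*B^2 -(1/2)*S^2*A^2 +S^4 -(1/2)*C^2 -(1/2)*C^2*B^2 -(1/4)*C^4 -q^2*S^2 +p*q*C^2 -(1/4)*I +(1/2)*I*B^2 +(1/2)*I*S^2 +(1/2)*I*S^2*B^2 -(1/2)*I*S^2*A^2 +(1/2)*I*C^2 -(1/2)*I*C^2*B^2 +(1/4)*I*C^4 -(1/2)*I*q^2*C^2 -(1/2)*I*p*q*S^2 +(1/2)*I*p^2*C^2) * r.hp + (-(1/4) +(1/2)*B^2 -S^2 +(1/2)*S^2*B^2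 +(1/2)*S^2*A^2 -(3/2)*S^4 +(1/2)*C^2 +(1/2)*C^2*B^2 +C^2*S^2 -(1/4)*C^4 -(1/4)*I -(1/2)*I*B^2 -(1/2)*I*S^2*B^2 -(1/2)*I*S^2*A^2 +(1/2)*I*S^4 +(1/2)*I*C^2 -(1/2)*I*C^2*B^2 -I*C^2*S^2 -(1/4)*I*C^4 +(1/2)*I*q^2*S^2) * r.hq + ((1/2)*q*C^2 +(1/2)*q*C^2*B^2 +(1/2)*q*C^2*S^2 -(1/4)*q*C^4 -(1/2)*p*C^2*B^2 -(1/4)*p*C^4 -(1/4)*I*q*S^2 +(1/4)*I*q*C^2 -(1/2)*I*q*C^2*B^2 -(1/2)*I*q*C^2*S^2 -(1/4)*I*q*C^4 +(1/4)*I*p*C^2 -(1/2)*I*p*C^2*B^2 +(1/4)*I*p*C^4) * r.pp + (-(1/2)*q*S^2 -(1/2)*q*S^2*A^2 -(1/4)*q*S^4 -(1/2)*p*S^2 +(1/2)*p*S^2*A^2 -(1/4)*p*S^4 +(1/2)*p*C^2 +(1/2)*p*C^2*S^2 -(1/4)*I*q*S^2 +(1/2)*I*q*S^2*A^2 -(1/4)*I*q*S^4 -(1/4)*I*q*C^2 +(1/2)*I*p*S^2*A^2 +(1/4)*I*p*S^4 -(1/4)*I*p*C^2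 +(1/2)*I*p*C^2*S^2) * r.qq + (-(1/4)*q -(1/4)*q*A^2 -(5/8)*q*S^2 -(1/4)*q*C^2 -(1/2)*p*B^2 +(1/4)*p*A^2 +(1/8)*p*S^2 -(1/2)*p*C^2 -(1/2)*I*q*B^2 -(1/4)*I*q*A^2 +(3/8)*I*q*S^2 +(3/4)*I*p -I*p*B^2 -(1/4)*I*p*A^2 -(1/8)*I*p*S^2 +(1/4)*I*p*C^2) * r.cc + (-(1/4)*q +(1/2)*q*B^2 -(5/4)*q*S^2 +(1/4)*p +(1/2)*p*B^2 +(3/4)*p*S^2 -(1/4)*I*q -(1/2)*I*q*B^2 +(1/4)*I*q*S^2 -(1/4)*I*p +(1/2)*I*p*B^2 -(1/4)*I*p*S^2) * r.aa + ((1/2)*q*S^2 -I*p -(1/2)*I*p*S^2) * r.bb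
  · linear_combination (-(1/4)*I*q^2*A*B -(1/8)*I*q^2*C*S +(1/2)*I*p*q*A*B +(1/4)*I*p*q*C*S -(1/4)*I*p^2*A*B -(1/8)*I*p^2*C*S +(1/4)*I*h*q^2*C*S -(1/2)*I*h*p*q*C*S +(1/4)*I*h*p^2*C*S) * hI + (-I*C*S -2*I*C*S^3 +I*q^2*C*S^3 +I*p*q*C*S^3 -I*p*q*C^3*S -I*p^2*C^3*S) * r.hh + (2*I*q*S^2*A*B -I*q*C*S*B^2 +I*q*C*S*A^2 -(1/2)*I*q*C*S^3 -2*I*q*C^2*A*B +(1/2)*I*q*C^3*S -(1/2)*I*p*C*S +I*p*C*S*B^2 +(1/2)*I*p*C^3*S) * r.hp + (-(1/2)*I*q*C*S -I*q*C*S*A^2 -(1/2)*I*q*C*S^3) * r.hq + ((1/2)*I*A*B +(1/2)*I*C*S*B^2 -(1/4)*I*C^3*S) * r.pp + ((1/2)*I*A*B +I*S^2*A*B +(1/2)*I*C*S -(1/2)*I*C*S*B^2 +I*C*S*A^2 +(1/2)*I*C*S^3 -I*C^2*A*B +(1/4)*I*C^3*S) * r.qq + (I*S^2*A*B -(1/2)*I*C*S -I*C^2*A*B)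 * r.pq + (-I*A*B -(1/2)*I*h*C*S) * r.cc + (I*C*S -I*h*C*S) * r.aa + (I*h*C*S) * r.bb
  · linear_combination (p*q*S*A^2*B -p*q*C*A*B^2 -(1/2)*p*q*C*S^2*A +(1/2)*p*q*C^2*S*B +(1/4)*h*q^2*S*B -(1/4)*h*q^2*C*A +h*q^2*C*S^2*A -(1/4)*h*p^2*S*B +(1/4)*h*p^2*C*A -h*p^2*C^2*S*B +I*p*q*S*A^2*B +I*p*q*C*A*B^2 -(1/2)*I*p*q*C*S^2*A -(1/2)*I*p*q*C^2*S*B -I*h*q^2*C*S^2*A -I*h*p^2*C^2*S*B) * hI + (-S*B -S^3*B -C*S^2*A +p*q*S^3*B +p*q*C*S^2*A -p*q*C^2*S*B -p*q*C^3*A -I*S*B -I*S^3*B +I*C*S^2*A -I*p*q*S^3*B -I*p*q*C*S^2*A -I*p*q*C^2*S*B -I*p*q*C^3*A) * r.hh + (p*C^2*S*B -(1/2)*I*p*S*B +(1/2)*I*p*C*A +I*p*C^2*S*B) * r.hp + (-q*C*S^2*A -(1/2)*I*q*S*B +(1/2)*I*q*C*A +I*q*C*S^2*A) * r.hq + ((1/2)*C^2*S*B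 -(1/4)*I*S*B +(1/4)*I*C*A +(1/2)*I*C^2*S*B) * r.pp + ((1/2)*C*S^2*A +(1/4)*I*S*B -(1/4)*I*C*A -(1/2)*I*C*S^2*A) * r.qq + (-S*A^2*B +(1/2)*S^3*B +C*A*B^2 +(1/2)*C*S^2*A -(1/2)*C^2*S*B -(1/2)*C^3*A -(1/2)*I*S*B -I*S*A^2*B -(1/2)*I*S^3*B +(1/2)*I*C*A -I*C*A*B^2 +(1/2)*I*C*S^2*A +(1/2)*I*C^2*S*B -(1/2)*I*C^3*A) * r.pq + ((1/2)*S*B -(1/2)*h*C*A +(1/2)*I*S*B +I*h*S*B -(1/2)*I*h*C*A) * r.cc + (-h*S*B -I*h*S*B) * r.aa + (h*C*A -I*h*C*A) * r.bb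
  · linear_combination ((1/2)*q*A^2*B^2 -(1/8)*q*C^2*S^2 -(1/2)*q^3*S^2*A^2 -(1/2)*p*A^2*B^2 +(1/8)*p*C^2*S^2 -(1/2)*p*q^2*S^2*A^2 +(1/2)*p^2*q*C^2*B^2 +(1/2)*p^3*C^2*B^2 -(1/2)*h*q*C^2*S^2 -(1/4)*h*q^3*S^2 +(1/2)*h*p*C^2*S^2 -(1/2)*h*p*q^2*S^2 -(1/4)*h*p*q^2*C^2 -(1/4)*h*p^2*q*S^2 -(1/2)*h*p^2*q*C^2 -(1/4)*h*p^3*C^2 -(1/2)*h^2*q*C^2*S^2 +(1/2)*h^2*p*C^2*S^2 +(1/2)*I*q*A^2*B^2 -(1/8)*I*q*C^2*S^2 -(1/2)*I*q^3*S^2*A^2 +(1/2)*I*p*A^2*B^2 -(1/8)*I*p*C^2*S^2 +(1/2)*I*p*q^2*S^2*A^2 +(1/2)*I*p^2*q*C^2*B^2 -(1/2)*I*p^3*C^2*B^2 -(1/2)*I*h*q*C^2*S^2 -(1/2)*I*h*p*C^2*S^2 -(1/2)*I*h^2*q*C^2*S^2 -(1/2)*I*h^2*p*C^2*S^2) * hI + (-(1/2)*q*S^2*B^2 +(1/2)*q*C^2*A^2 +(1/2)*q*C^2*S^2 +(1/2)*q^3*S^4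 -(1/2)*p*S^2*B^2 +(1/2)*p*C^2*A^2 -(1/2)*p*C^2*S^2 -(1/2)*p*q^2*S^4 +p*q^2*C^2*S^2 -p^2*q*C^2*S^2 +(1/2)*p^2*q*C^4 -(1/2)*p^3*C^4 +(1/2)*I*q*S^2*B^2 -(1/2)*I*q*C^2*A^2 +(1/2)*I*q*C^2*S^2 -(1/2)*I*q^3*S^4 -(1/2)*I*p*S^2*B^2 +(1/2)*I*p*C^2*A^2 +(1/2)*I*p*C^2*S^2 -(1/2)*I*p*q^2*S^4 -I*p*q^2*C^2*S^2 -I*p^2*q*C^2*S^2 -(1/2)*I*p^2*q*C^4 -(1/2)*I*p^3*C^4) * r.hh + ((1/4) +(1/2)*B^2 +S^2 +(1/2)*S^2*B^2 -(1/2)*S^2*A^2 +(3/2)*S^4 -(1/2)*C^2 -(1/2)*C^2*B^2 -C^2*S^2 -(1/4)*C^4 +q^2*S^2 +p*q*C^2 +(1/4)*I -(1/2)*I*B^2 -(1/2)*I*S^2*B^2 +(1/2)*I*S^2*A^2 +(1/2)*I*S^4 +(1/2)*I*C^2 +(1/2)*I*C^2*B^2 +I*C^2*S^2 -(1/4)*I*C^4 -(1/2)*I*q^2*C^2 +(1/2)*I*p*q*S^2 +(1/2)*I*p^2*C^2) * r.hp + ((1/4) -(1/2)*B^2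 +(1/2)*S^2 -(1/2)*S^2*B^2 -(1/2)*S^2*A^2 +S^4 +(1/2)*C^2 -(1/2)*C^2*B^2 +(1/4)*C^4 -(1/4)*I -(1/2)*I*B^2 +(1/2)*I*S^2 -(1/2)*I*S^2*B^2 -(1/2)*I*S^2*A^2 +I*S^4 +(1/2)*I*C^2 -(1/2)*I*C^2*B^2 -(1/4)*I*C^4 -(1/2)*I*q^2*S^2) * r.hq + ((1/2)*q*C^2 -(1/2)*q*C^2*B^2 -(1/2)*q*C^2*S^2 +(1/4)*q*C^4 -(1/2)*p*C^2*B^2 -(1/4)*p*C^4 +(1/4)*I*q*S^2 +(1/4)*I*q*C^2 -(1/2)*I*q*C^2*B^2 -(1/2)*I*q*C^2*S^2 -(1/4)*I*q*C^4 +(1/4)*I*p*C^2 +(1/2)*I*p*C^2*B^2 -(1/4)*I*p*C^4) * r.pp + ((1/2)*q*S^2 +(1/2)*q*S^2*A^2 +(1/4)*q*S^4 +(1/2)*p*S^2 +(1/2)*p*S^2*A^2 -(1/4)*p*S^4 +(1/2)*p*C^2 +(1/2)*p*C^2*S^2 +(1/4)*I*q*S^2 +(1/2)*I*q*S^2*A^2 -(1/4)*I*q*S^4 -(1/4)*I*q*C^2 -(1/2)*I*p*S^2*A^2 -(1/4)*I*p*S^4 -(1/4)*I*p*C^2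 -(1/2)*I*p*C^2*S^2) * r.qq + (-(1/2)*q*B^2 +(1/4)*q*A^2 -(5/8)*q*S^2 +(1/4)*p -p*B^2 +(1/4)*p*A^2 -(5/8)*p*S^2 -(1/4)*p*C^2 -(1/4)*I*q -(1/4)*I*q*A^2 +(1/8)*I*q*S^2 -(1/4)*I*q*C^2 +(1/2)*I*p*B^2 +(1/4)*I*p*A^2 -(1/8)*I*p*S^2 -(1/2)*I*p*C^2) * r.cc + ((1/4)*q -(1/2)*q*B^2 +(3/4)*q*S^2 +(1/4)*p +(1/2)*p*B^2 +(1/4)*p*S^2 -(1/4)*I*q -(1/2)*I*q*B^2 +(3/4)*I*q*S^2 +(1/4)*I*p -(1/2)*I*p*B^2 -(1/4)*I*p*S^2) * r.aa + (-(1/2)*q*S^2 -p -p*S^2 -(1/2)*I*p*S^2) * r.bb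
  · linear_combination (p*q^2*S*A +p^2*q*C*B -h*q*S*A*B^2 -(1/2)*h*q*C^2*S*A +h*q^3*S^3*A +h*p*C*A^2*B +(1/2)*h*p*C*S^2*B -h*p*q^2*C*S^2*B +h*p^2*q*C^2*S*A -h*p^3*C^3*B +h^2*q*C*S^2*B -h^2*p*C^2*S*A -(1/4)*I*q^3*S*A -(1/4)*I*p*q^2*C*B +(1/4)*I*p^2*q*S*A +(1/4)*I*p^3*C*B) * hI + (-q*C*S^2*B +p*C^2*S*A -I*q*C^2*S*A -I*p*C*S^2*B) * r.hh + (S*A -(1/2)*C*B -C*A^2*B -(3/2)*C*S^2*B +(1/2)*C^2*S*A +(1/2)*C^3*B +q^2*C*S^2*B -p*q*C^2*S*A +p^2*C^3*B +I*S*A*B^2 -I*S^3*A -(1/2)*I*C*B +I*C*S^2*B +I*C^2*S*A -(1/2)*I*C^3*B +I*q^2*S^3*A -I*q^2*C^2*S*A -I*p*q*C*S^2*B +I*p*q*C^3*B) * r.hp + (S*A*B^2 -(3/2)*C*B -C*S^2*B +(1/2)*C^3*B -q^2*S^3*A -I*S*A -I*S^3*A -(1/2)*I*C*B +I*C*A^2*B -(1/2)*I*C*S^2*B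 +(1/2)*I*C^2*S*A +(1/2)*I*C^3*B) * r.hq + (-q*C*B -(1/2)*q*C^2*S*A +(1/2)*q*C^3*B +(1/2)*p*C^3*B -(1/2)*I*q*S*A -(1/2)*I*q*C*S^2*B +(1/2)*I*q*C^3*B -(1/2)*I*p*C*B) * r.pp + ((1/2)*q*S^3*A +(1/2)*q*C*S^2*B -p*S*A -(1/2)*p*S^3*A +(1/2)*p*C*S^2*B -(1/2)*p*C^2*S*A +(1/2)*I*q*S*A +(1/2)*I*q*S^3*A -(1/2)*I*q*C^2*S*A +(1/2)*I*p*S^3*A +(1/2)*I*p*C*B -(1/2)*I*p*C*S^2*B -(1/2)*I*p*C^2*S*A +(1/2)*I*p*C^3*B) * r.qq + (-(1/4)*q*S*A +(1/2)*q*C*B +(1/4)*p*S*A +p*C*B -(3/4)*I*q*S*A +(1/4)*I*p*S*A +(1/2)*I*p*C*B) * r.cc + (-(1/2)*q*C*B -(1/2)*p*C*B -(1/2)*I*q*C*B +(1/2)*I*p*C*B) * r.aa + (-(1/2)*q*S*A +(1/2)*p*S*A +(1/2)*I*q*S*A +(1/2)*I*p*S*A) * r.bb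
  · linear_combination (-p*q*S*A^2*B +p*q*C*A*B^2 +(1/2)*p*q*C*S^2*A -(1/2)*p*q*C^2*S*B -(1/4)*h*q^2*S*B +(1/4)*h*q^2*C*A -h*q^2*C*S^2*A +(1/4)*h*p^2*S*B -(1/4)*h*p^2*C*A +h*p^2*C^2*S*B +I*p*q*S*A^2*B +I*p*q*C*A*B^2 -(1/2)*I*p*q*C*S^2*A -(1/2)*I*p*q*C^2*S*B -I*h*q^2*C*S^2*A -I*h*p^2*C^2*S*B) * hI + (S*B +S^3*B +C*S^2*A -p*q*S^3*B -p*q*C*S^2*A +p*q*C^2*S*B +p*q*C^3*A -I*S*B -I*S^3*B +I*C*S^2*A -I*p*q*S^3*B -I*p*q*C*S^2*A -I*p*q*C^2*S*B -I*p*q*C^3*A) * r.hh + (-p*C^2*S*B -(1/2)*I*p*S*B +(1/2)*I*p*C*A +I*p*C^2*S*B) * r.hp + (q*C*S^2*A -(1/2)*I*q*S*B +(1/2)*I*q*C*A +I*q*C*S^2*A) * r.hq + (-(1/2)*C^2*S*B -(1/4)*I*S*B +(1/4)*I*C*A +(1/2)*I*C^2*S*B) * r.pp + (-(1/2)*C*S^2*A +(1/4)*I*S*B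 -(1/4)*I*C*A -(1/2)*I*C*S^2*A) * r.qq + (S*A^2*B -(1/2)*S^3*B -C*A*B^2 -(1/2)*C*S^2*A +(1/2)*C^2*S*B +(1/2)*C^3*A -(1/2)*I*S*B -I*S*A^2*B -(1/2)*I*S^3*B +(1/2)*I*C*A -I*C*A*B^2 +(1/2)*I*C*S^2*A +(1/2)*I*C^2*S*B -(1/2)*I*C^3*A) * r.pq + (-(1/2)*S*B +(1/2)*h*C*A +(1/2)*I*S*B +I*h*S*B -(1/2)*I*h*C*A) * r.cc + (h*S*B -I*h*S*B) * r.aa + (-h*C*A -I*h*C*A) * r.bb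
  · linear_combination ((1/4)*I*q^2*A*B +(1/8)*I*q^2*C*S +(1/2)*I*p*q*A*B +(1/4)*I*p*q*C*S +(1/4)*I*p^2*A*B +(1/8)*I*p^2*C*S +(1/4)*I*h*q^2*C*S +(1/2)*I*h*p*q*C*S +(1/4)*I*h*p^2*C*S) * hI + (-I*C*S -2*I*C*S^3 -I*q^2*C*S^3 +I*p*q*C*S^3 -I*p*q*C^3*S +I*p^2*C^3*S) * r.hh + (-2*I*q*S^2*A*B +I*q*C*S*B^2 -I*q*C*S*A^2 +(1/2)*I*q*C*S^3 +2*I*q*C^2*A*B -(1/2)*I*q*C^3*S -(1/2)*I*p*C*S +I*p*C*S*B^2 +(1/2)*I*p*C^3*S) * r.hp + (-(1/2)*I*q*C*S -I*q*C*S*A^2 -(1/2)*I*q*C*S^3) * r.hq + (-(1/2)*I*A*B -(1/2)*I*C*S +(1/2)*I*C*S*B^2 +(3/4)*I*C^3*S) * r.pp + (-(1/2)*I*A*B -I*S^2*A*B +(1/2)*I*C*S*B^2 +I*C^2*A*B -(1/4)*I*C^3*S) * r.qq + (-I*S^2*A*B -(1/2)*I*C*S +I*C*S*B^2 -I*C*S*A^2 +(1/2)*I*C*S^3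 +I*C^2*A*B -(1/2)*I*C^3*S) * r.pq + (I*A*B +(1/2)*I*C*S +(1/2)*I*h*C*S) * r.cc + (-I*h*C*S) * r.aa + (I*C*S +I*h*C*S) * r.bb

/-- braid relation -/
theorem braid1 {h p q C S A B : ℂ} (r : Rel h p q C S A B) :
    R2 h p q C S A B * R1 p q * R2 h p q C S A B = -(R1 p q * R2 h p q C S A B * R1 p q) := by
  have hI : I * I = -1 := Complex.I_mul_I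
  rw [R2, R1, mk4_mul, mk4_mul, mk4_mul, mk4_mul, mk4_neg]
  apply mk4_ext
  · linear_combination ((1/4)*I*q^2*A*B -(1/8)*I*q^2*C*S +(1/2)*I*p*q*A*B -(1/4)*I*p*q*C*S +(1/4)*I*p^2*A*B -(1/8)*I*p^2*C*S -(1/4)*I*h*q^2*C*S -(1/2)*I*h*p*q*C*S -(1/4)*I*h*p^2*C*S) * hI + (I*C*S +2*I*C*S^3 +I*q^2*C*S^3 -I*p*q*C*S^3 +I*p*q*C^3*S -I*p^2*C^3*S) * r.hh + (-2*I*q*S^2*A*B -I*q*C*S*B^2 +I*q*C*S*A^2 -(1/2)*I*q*C*S^3 +2*I*q*C^2*A*B +(1/2)*I*q*C^3*S +(1/2)*I*p*C*S -I*p*C*S*B^2 -(1/2)*I*p*C^3*S) * r.hp + ((1/2)*I*q*C*S +I*q*C*S*A^2 +(1/2)*I*q*C*S^3) * r.hq + (-(1/2)*I*A*B +(1/2)*I*C*S -(1/2)*I*C*S*B^2 -(3/4)*I*C^3*S) * r.pp + (-(1/2)*I*A*B -I*S^2*A*B -(1/2)*I*C*S*B^2 +I*C^2*A*B +(1/4)*I*C^3*S)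 * r.qq + (-I*S^2*A*B +(1/2)*I*C*S -I*C*S*B^2 +I*C*S*A^2 -(1/2)*I*C*S^3 +I*C^2*A*B +(1/2)*I*C^3*S) * r.pq + (I*A*B -(1/2)*I*C*S -(1/2)*I*h*C*S) * r.cc + (I*h*C*S) * r.aa + (-I*C*S -I*h*C*S) * r.bb
  · linear_combination (p*q*S*A^2*B +p*q*C*A*B^2 +(1/2)*p*q*C*S^2*A +(1/2)*p*q*C^2*S*B +(1/4)*h*q^2*S*B +(1/4)*h*q^2*C*A -h*q^2*C*S^2*A -(1/4)*h*p^2*S*B -(1/4)*h*p^2*C*A -h*p^2*C^2*S*B -I*p*q*S*A^2*B +I*p*q*C*A*B^2 -(1/2)*I*p*q*C*S^2*A +(1/2)*I*p*q*C^2*S*B -I*h*q^2*C*S^2*A +I*h*p^2*C^2*S*B) * hI + (-S*B -S^3*B +C*S^2*A +p*q*S^3*B -p*q*C*S^2*A -p*q*C^2*S*B +p*q*C^3*A +I*S*B +I*S^3*B +I*C*S^2*A +I*p*q*S^3*B -I*p*q*C*S^2*A +I*p*q*C^2*S*B -I*p*q*C^3*A) * r.hh + (p*C^2*S*B +(1/2)*I*p*S*B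 +(1/2)*I*p*C*A -I*p*C^2*S*B) * r.hp + (q*C*S^2*A +(1/2)*I*q*S*B +(1/2)*I*q*C*A +I*q*C*S^2*A) * r.hq + ((1/2)*C^2*S*B +(1/4)*I*S*B +(1/4)*I*C*A -(1/2)*I*C^2*S*B) * r.pp + (-(1/2)*C*S^2*A -(1/4)*I*S*B -(1/4)*I*C*A -(1/2)*I*C*S^2*A) * r.qq + (-S*A^2*B +(1/2)*S^3*B -C*A*B^2 -(1/2)*C*S^2*A -(1/2)*C^2*S*B +(1/2)*C^3*A +(1/2)*I*S*B +I*S*A^2*B +(1/2)*I*S^3*B +(1/2)*I*C*A -I*C*A*B^2 +(1/2)*I*C*S^2*A -(1/2)*I*C^2*S*B -(1/2)*I*C^3*A) * r.pq + ((1/2)*S*B +(1/2)*h*C*A -(1/2)*I*S*B -I*h*S*B -(1/2)*I*h*C*A) * r.cc + (-h*S*B +I*h*S*B) * r.aa + (-h*C*A -I*h*C*A) * r.bb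
  · linear_combination (-p*q^2*S*A +p^2*q*C*B +h*q*S*A*B^2 +(1/2)*h*q*C^2*S*A -h*q^3*S^3*A +h*p*C*A^2*B +(1/2)*h*p*C*S^2*B -h*p*q^2*C*S^2*B -h*p^2*q*C^2*S*A -h*p^3*C^3*B +h^2*q*C*S^2*B +h^2*p*C^2*S*A +(1/4)*I*q^3*S*A -(1/4)*I*p*q^2*C*B -(1/4)*I*p^2*q*S*A +(1/4)*I*p^3*C*B) * hI + (-q*C*S^2*B -p*C^2*S*A +I*q*C^2*S*A -I*p*C*S^2*B) * r.hh + (-S*A -(1/2)*C*B -C*A^2*B -(3/2)*C*S^2*B -(1/2)*C^2*S*A +(1/2)*C^3*B +q^2*C*S^2*B +p*q*C^2*S*A +p^2*C^3*B -I*S*A*B^2 +I*S^3*A -(1/2)*I*C*B +I*C*S^2*B -I*C^2*S*A -(1/2)*I*C^3*B -I*q^2*S^3*A +I*q^2*C^2*S*A -I*p*q*C*S^2*B +I*p*q*C^3*B) * r.hp + (-S*A*B^2 -(3/2)*C*B -C*S^2*B +(1/2)*C^3*B +q^2*S^3*A +I*S*A +I*S^3*A -(1/2)*I*C*B +I*C*A^2*B -(1/2)*I*C*S^2*B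 -(1/2)*I*C^2*S*A +(1/2)*I*C^3*B) * r.hq + (-q*C*B +(1/2)*q*C^2*S*A +(1/2)*q*C^3*B +(1/2)*p*C^3*B +(1/2)*I*q*S*A -(1/2)*I*q*C*S^2*B +(1/2)*I*q*C^3*B -(1/2)*I*p*C*B) * r.pp + (-(1/2)*q*S^3*A +(1/2)*q*C*S^2*B +p*S*A +(1/2)*p*S^3*A +(1/2)*p*C*S^2*B +(1/2)*p*C^2*S*A -(1/2)*I*q*S*A -(1/2)*I*q*S^3*A +(1/2)*I*q*C^2*S*A -(1/2)*I*p*S^3*A +(1/2)*I*p*C*B -(1/2)*I*p*C*S^2*B +(1/2)*I*p*C^2*S*A +(1/2)*I*p*C^3*B) * r.qq + ((1/4)*q*S*A +(1/2)*q*C*B -(1/4)*p*S*A +p*C*B +(3/4)*I*q*S*A -(1/4)*I*p*S*A +(1/2)*I*p*C*B) * r.cc + (-(1/2)*q*C*B -(1/2)*p*C*B -(1/2)*I*q*C*B +(1/2)*I*p*C*B) * r.aa + ((1/2)*q*S*A -(1/2)*p*S*A -(1/2)*I*q*S*A -(1/2)*I*p*S*A) * r.bb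
  · linear_combination ((1/2)*q*A^2*B^2 -(1/8)*q*C^2*S^2 -(1/2)*q^3*S^2*A^2 -(1/2)*p*A^2*B^2 +(1/8)*p*C^2*S^2 -(1/2)*p*q^2*S^2*A^2 +(1/2)*p^2*q*C^2*B^2 +(1/2)*p^3*C^2*B^2 -(1/2)*h*q*C^2*S^2 -(1/4)*h*q^3*S^2 +(1/2)*h*p*C^2*S^2 -(1/2)*h*p*q^2*S^2 -(1/4)*h*p*q^2*C^2 -(1/4)*h*p^2*q*S^2 -(1/2)*h*p^2*q*C^2 -(1/4)*h*p^3*C^2 -(1/2)*h^2*q*C^2*S^2 +(1/2)*h^2*p*C^2*S^2 +(1/2)*I*q*A^2*B^2 -(1/8)*I*q*C^2*S^2 -(1/2)*I*q^3*S^2*A^2 +(1/2)*I*p*A^2*B^2 -(1/8)*I*p*C^2*S^2 +(1/2)*I*p*q^2*S^2*A^2 +(1/2)*I*p^2*q*C^2*B^2 -(1/2)*I*p^3*C^2*B^2 -(1/2)*I*h*q*C^2*S^2 -(1/2)*I*h*p*C^2*S^2 -(1/2)*I*h^2*q*C^2*S^2 -(1/2)*I*h^2*p*C^2*S^2) * hI + (-(1/2)*q*S^2*B^2 +(1/2)*q*C^2*A^2 +(1/2)*q*C^2*S^2 +(1/2)*q^3*S^4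 -(1/2)*p*S^2*B^2 +(1/2)*p*C^2*A^2 -(1/2)*p*C^2*S^2 -(1/2)*p*q^2*S^4 +p*q^2*C^2*S^2 -p^2*q*C^2*S^2 +(1/2)*p^2*q*C^4 -(1/2)*p^3*C^4 +(1/2)*I*q*S^2*B^2 -(1/2)*I*q*C^2*A^2 +(1/2)*I*q*C^2*S^2 -(1/2)*I*q^3*S^4 -(1/2)*I*p*S^2*B^2 +(1/2)*I*p*C^2*A^2 +(1/2)*I*p*C^2*S^2 -(1/2)*I*p*q^2*S^4 -I*p*q^2*C^2*S^2 -I*p^2*q*C^2*S^2 -(1/2)*I*p^2*q*C^4 -(1/2)*I*p^3*C^4) * r.hh + ((1/4) +(1/2)*B^2 +S^2 +(1/2)*S^2*B^2 -(1/2)*S^2*A^2 +(3/2)*S^4 -(1/2)*C^2 -(1/2)*C^2*B^2 -C^2*S^2 -(1/4)*C^4 +q^2*S^2 +p*q*C^2 +(1/4)*I -(1/2)*I*B^2 -(1/2)*I*S^2*B^2 +(1/2)*I*S^2*A^2 +(1/2)*I*S^4 +(1/2)*I*C^2 +(1/2)*I*C^2*B^2 +I*C^2*S^2 -(1/4)*I*C^4 -(1/2)*I*q^2*C^2 +(1/2)*I*p*q*S^2 +(1/2)*I*p^2*C^2) * r.hp + ((1/4) -(1/2)*B^2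 +(1/2)*S^2 -(1/2)*S^2*B^2 -(1/2)*S^2*A^2 +S^4 +(1/2)*C^2 -(1/2)*C^2*B^2 +(1/4)*C^4 -(1/4)*I -(1/2)*I*B^2 +(1/2)*I*S^2 -(1/2)*I*S^2*B^2 -(1/2)*I*S^2*A^2 +I*S^4 +(1/2)*I*C^2 -(1/2)*I*C^2*B^2 -(1/4)*I*C^4 -(1/2)*I*q^2*S^2) * r.hq + ((1/2)*q*C^2 -(1/2)*q*C^2*B^2 -(1/2)*q*C^2*S^2 +(1/4)*q*C^4 -(1/2)*p*C^2*B^2 -(1/4)*p*C^4 +(1/4)*I*q*S^2 +(1/4)*I*q*C^2 -(1/2)*I*q*C^2*B^2 -(1/2)*I*q*C^2*S^2 -(1/4)*I*q*C^4 +(1/4)*I*p*C^2 +(1/2)*I*p*C^2*B^2 -(1/4)*I*p*C^4) * r.pp + ((1/2)*q*S^2 +(1/2)*q*S^2*A^2 +(1/4)*q*S^4 +(1/2)*p*S^2 +(1/2)*p*S^2*A^2 -(1/4)*p*S^4 +(1/2)*p*C^2 +(1/2)*p*C^2*S^2 +(1/4)*I*q*S^2 +(1/2)*I*q*S^2*A^2 -(1/4)*I*q*S^4 -(1/4)*I*q*C^2 -(1/2)*I*p*S^2*A^2 -(1/4)*I*p*S^4 -(1/4)*I*p*C^2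 -(1/2)*I*p*C^2*S^2) * r.qq + (-(1/2)*q*B^2 +(1/4)*q*A^2 -(5/8)*q*S^2 +(1/4)*p -p*B^2 +(1/4)*p*A^2 -(5/8)*p*S^2 -(1/4)*p*C^2 -(1/4)*I*q -(1/4)*I*q*A^2 +(1/8)*I*q*S^2 -(1/4)*I*q*C^2 +(1/2)*I*p*B^2 +(1/4)*I*p*A^2 -(1/8)*I*p*S^2 -(1/2)*I*p*C^2) * r.cc + ((1/4)*q -(1/2)*q*B^2 +(3/4)*q*S^2 +(1/4)*p +(1/2)*p*B^2 +(1/4)*p*S^2 -(1/4)*I*q -(1/2)*I*q*B^2 +(3/4)*I*q*S^2 +(1/4)*I*p -(1/2)*I*p*B^2 -(1/4)*I*p*S^2) * r.aa + (-(1/2)*q*S^2 -p -p*S^2 -(1/2)*I*p*S^2) * r.bb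
  · linear_combination (-p*q*S*A^2*B -p*q*C*A*B^2 -(1/2)*p*q*C*S^2*A -(1/2)*p*q*C^2*S*B -(1/4)*h*q^2*S*B -(1/4)*h*q^2*C*A +h*q^2*C*S^2*A +(1/4)*h*p^2*S*B +(1/4)*h*p^2*C*A +h*p^2*C^2*S*B -I*p*q*S*A^2*B +I*p*q*C*A*B^2 -(1/2)*I*p*q*C*S^2*A +(1/2)*I*p*q*C^2*S*B -I*h*q^2*C*S^2*A +I*h*p^2*C^2*S*B) * hI + (S*B +S^3*B -C*S^2*A -p*q*S^3*B +p*q*C*S^2*A +p*q*C^2*S*B -p*q*C^3*A +I*S*B +I*S^3*B +I*C*S^2*A +I*p*q*S^3*B -I*p*q*C*S^2*A +I*p*q*C^2*S*B -I*p*q*C^3*A) * r.hh + (-p*C^2*S*B +(1/2)*I*p*S*B +(1/2)*I*p*C*A -I*p*C^2*S*B) * r.hp + (-q*C*S^2*A +(1/2)*I*q*S*B +(1/2)*I*q*C*A +I*q*C*S^2*A) * r.hq + (-(1/2)*C^2*S*B +(1/4)*I*S*B +(1/4)*I*C*A -(1/2)*I*C^2*S*B) * r.pp + ((1/2)*C*S^2*A -(1/4)*I*S*B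 -(1/4)*I*C*A -(1/2)*I*C*S^2*A) * r.qq + (S*A^2*B -(1/2)*S^3*B +C*A*B^2 +(1/2)*C*S^2*A +(1/2)*C^2*S*B -(1/2)*C^3*A +(1/2)*I*S*B +I*S*A^2*B +(1/2)*I*S^3*B +(1/2)*I*C*A -I*C*A*B^2 +(1/2)*I*C*S^2*A -(1/2)*I*C^2*S*B -(1/2)*I*C^3*A) * r.pq + (-(1/2)*S*B -(1/2)*h*C*A -(1/2)*I*S*B -I*h*S*B -(1/2)*I*h*C*A) * r.cc + (h*S*B +I*h*S*B) * r.aa + (h*C*A -I*h*C*A) * r.bb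
  · linear_combination (-(1/4)*I*q^2*A*B +(1/8)*I*q^2*C*S +(1/2)*I*p*q*A*B -(1/4)*I*p*q*C*S -(1/4)*I*p^2*A*B +(1/8)*I*p^2*C*S -(1/4)*I*h*q^2*C*S +(1/2)*I*h*p*q*C*S -(1/4)*I*h*p^2*C*S) * hI + (I*C*S +2*I*C*S^3 -I*q^2*C*S^3 -I*p*q*C*S^3 +I*p*q*C^3*S +I*p^2*C^3*S) * r.hh + (2*I*q*S^2*A*B +I*q*C*S*B^2 -I*q*C*S*A^2 +(1/2)*I*q*C*S^3 -2*I*q*C^2*A*B -(1/2)*I*q*C^3*S +(1/2)*I*p*C*S -I*p*C*S*B^2 -(1/2)*I*p*C^3*S) * r.hp + ((1/2)*I*q*C*S +I*q*C*S*A^2 +(1/2)*I*q*C*S^3) * r.hq + ((1/2)*I*A*B -(1/2)*I*C*S*B^2 +(1/4)*I*C^3*S) * r.pp + ((1/2)*I*A*B +I*S^2*A*B -(1/2)*I*C*S +(1/2)*I*C*S*B^2 -I*C*S*A^2 -(1/2)*I*C*S^3 -I*C^2*A*B -(1/4)*I*C^3*S) * r.qq + (I*S^2*A*B +(1/2)*I*C*S -I*C^2*A*B) *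 r.pq + (-I*A*B +(1/2)*I*h*C*S) * r.cc + (-I*C*S +I*h*C*S) * r.aa + (-I*h*C*S) * r.bb
  · linear_combination (-(1/2)*q*A^2*B^2 +(1/8)*q*C^2*S^2 +(1/2)*q^3*S^2*A^2 -(1/2)*p*A^2*B^2 +(1/8)*p*C^2*S^2 -(1/2)*p*q^2*S^2*A^2 -(1/2)*p^2*q*C^2*B^2 +(1/2)*p^3*C^2*B^2 -(1/2)*h*q*C^2*S^2 -(1/4)*h*q^3*S^2 -(1/2)*h*p*C^2*S^2 +(1/2)*h*p*q^2*S^2 +(1/4)*h*p*q^2*C^2 -(1/4)*h*p^2*q*S^2 -(1/2)*h*p^2*q*C^2 +(1/4)*h*p^3*C^2 +(1/2)*h^2*q*C^2*S^2 +(1/2)*h^2*p*C^2*S^2 +(1/2)*I*q*A^2*B^2 -(1/8)*I*q*C^2*S^2 -(1/2)*I*q^3*S^2*A^2 -(1/2)*I*p*A^2*B^2 +(1/8)*I*p*C^2*S^2 -(1/2)*I*p*q^2*S^2*A^2 +(1/2)*I*p^2*q*C^2*B^2 +(1/2)*I*p^3*C^2*B^2 +(1/2)*I*h*q*C^2*S^2 -(1/2)*I*h*p*C^2*S^2 -(1/2)*I*h^2*q*C^2*S^2 +(1/2)*I*h^2*p*C^2*S^2)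 * hI + ((1/2)*q*S^2*B^2 -(1/2)*q*C^2*A^2 -(1/2)*q*C^2*S^2 -(1/2)*q^3*S^4 -(1/2)*p*S^2*B^2 +(1/2)*p*C^2*A^2 -(1/2)*p*C^2*S^2 -(1/2)*p*q^2*S^4 +p*q^2*C^2*S^2 +p^2*q*C^2*S^2 -(1/2)*p^2*q*C^4 -(1/2)*p^3*C^4 +(1/2)*I*q*S^2*B^2 -(1/2)*I*q*C^2*A^2 +(1/2)*I*q*C^2*S^2 -(1/2)*I*q^3*S^4 +(1/2)*I*p*S^2*B^2 -(1/2)*I*p*C^2*A^2 -(1/2)*I*p*C^2*S^2 +(1/2)*I*p*q^2*S^4 +I*p*q^2*C^2*S^2 -I*p^2*q*C^2*S^2 -(1/2)*I*p^2*q*C^4 +(1/2)*I*p^3*C^4) * r.hh + ((1/4) +(1/2)*B^2 +(3/2)*S^2 +(1/2)*S^2*B^2 -(1/2)*S^2*A^2 +S^4 -(1/2)*C^2 -(1/2)*C^2*B^2 -(1/4)*C^4 -q^2*S^2 +p*q*C^2 -(1/4)*I +(1/2)*I*B^2 +(1/2)*I*S^2 +(1/2)*I*S^2*B^2 -(1/2)*I*S^2*A^2 +(1/2)*I*C^2 -(1/2)*I*C^2*B^2 +(1/4)*I*C^4 -(1/2)*I*q^2*C^2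 -(1/2)*I*p*q*S^2 +(1/2)*I*p^2*C^2) * r.hp + (-(1/4) +(1/2)*B^2 -S^2 +(1/2)*S^2*B^2 +(1/2)*S^2*A^2 -(3/2)*S^4 +(1/2)*C^2 +(1/2)*C^2*B^2 +C^2*S^2 -(1/4)*C^4 -(1/4)*I -(1/2)*I*B^2 -(1/2)*I*S^2*B^2 -(1/2)*I*S^2*A^2 +(1/2)*I*S^4 +(1/2)*I*C^2 -(1/2)*I*C^2*B^2 -I*C^2*S^2 -(1/4)*I*C^4 +(1/2)*I*q^2*S^2) * r.hq + ((1/2)*q*C^2 +(1/2)*q*C^2*B^2 +(1/2)*q*C^2*S^2 -(1/4)*q*C^4 -(1/2)*p*C^2*B^2 -(1/4)*p*C^4 -(1/4)*I*q*S^2 +(1/4)*I*q*C^2 -(1/2)*I*q*C^2*B^2 -(1/2)*I*q*C^2*S^2 -(1/4)*I*q*C^4 +(1/4)*I*p*C^2 -(1/2)*I*p*C^2*B^2 +(1/4)*I*p*C^4) * r.pp + (-(1/2)*q*S^2 -(1/2)*q*S^2*A^2 -(1/4)*q*S^4 -(1/2)*p*S^2 +(1/2)*p*S^2*A^2 -(1/4)*p*S^4 +(1/2)*p*C^2 +(1/2)*p*C^2*S^2 -(1/4)*I*q*S^2 +(1/2)*I*q*S^2*A^2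 -(1/4)*I*q*S^4 -(1/4)*I*q*C^2 +(1/2)*I*p*S^2*A^2 +(1/4)*I*p*S^4 -(1/4)*I*p*C^2 +(1/2)*I*p*C^2*S^2) * r.qq + (-(1/4)*q -(1/4)*q*A^2 -(5/8)*q*S^2 -(1/4)*q*C^2 -(1/2)*p*B^2 +(1/4)*p*A^2 +(1/8)*p*S^2 -(1/2)*p*C^2 -(1/2)*I*q*B^2 -(1/4)*I*q*A^2 +(3/8)*I*q*S^2 +(3/4)*I*p -I*p*B^2 -(1/4)*I*p*A^2 -(1/8)*I*p*S^2 +(1/4)*I*p*C^2) * r.cc + (-(1/4)*q +(1/2)*q*B^2 -(5/4)*q*S^2 +(1/4)*p +(1/2)*p*B^2 +(3/4)*p*S^2 -(1/4)*I*q -(1/2)*I*q*B^2 +(1/4)*I*q*S^2 -(1/4)*I*p +(1/2)*I*p*B^2 -(1/4)*I*p*S^2) * r.aa + ((1/2)*q*S^2 -I*p -(1/2)*I*p*S^2) * r.bb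
  · linear_combination (-p*q^2*S*A -p^2*q*C*B +h*q*S*A*B^2 +(1/2)*h*q*C^2*S*A -h*q^3*S^3*A -h*p*C*A^2*B -(1/2)*h*p*C*S^2*B +h*p*q^2*C*S^2*B -h*p^2*q*C^2*S*A +h*p^3*C^3*B -h^2*q*C*S^2*B +h^2*p*C^2*S*A +(1/4)*I*q^3*S*A +(1/4)*I*p*q^2*C*B -(1/4)*I*p^2*q*S*A -(1/4)*I*p^3*C*B) * hI + (q*C*S^2*B -p*C^2*S*A +I*q*C^2*S*A +I*p*C*S^2*B) * r.hh + (-S*A +(1/2)*C*B +C*A^2*B +(3/2)*C*S^2*B -(1/2)*C^2*S*A -(1/2)*C^3*B -q^2*C*S^2*B +p*q*C^2*S*A -p^2*C^3*B -I*S*A*B^2 +I*S^3*A +(1/2)*I*C*B -I*C*S^2*B -I*C^2*S*A +(1/2)*I*C^3*B -I*q^2*S^3*A +I*q^2*C^2*S*A +I*p*q*C*S^2*B -I*p*q*C^3*B) * r.hp + (-S*A*B^2 +(3/2)*C*B +C*S^2*B -(1/2)*C^3*B +q^2*S^3*A +I*S*A +I*S^3*A +(1/2)*I*C*B -I*C*A^2*B +(1/2)*I*C*S^2*B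 -(1/2)*I*C^2*S*A -(1/2)*I*C^3*B) * r.hq + (q*C*B +(1/2)*q*C^2*S*A -(1/2)*q*C^3*B -(1/2)*p*C^3*B +(1/2)*I*q*S*A +(1/2)*I*q*C*S^2*B -(1/2)*I*q*C^3*B +(1/2)*I*p*C*B) * r.pp + (-(1/2)*q*S^3*A -(1/2)*q*C*S^2*B +p*S*A +(1/2)*p*S^3*A -(1/2)*p*C*S^2*B +(1/2)*p*C^2*S*A -(1/2)*I*q*S*A -(1/2)*I*q*S^3*A +(1/2)*I*q*C^2*S*A -(1/2)*I*p*S^3*A -(1/2)*I*p*C*B +(1/2)*I*p*C*S^2*B +(1/2)*I*p*C^2*S*A -(1/2)*I*p*C^3*B) * r.qq + ((1/4)*q*S*A -(1/2)*q*C*B -(1/4)*p*S*A -p*C*B +(3/4)*I*q*S*A -(1/4)*I*p*S*A -(1/2)*I*p*C*B) * r.cc + ((1/2)*q*C*B +(1/2)*p*C*B +(1/2)*I*q*C*B -(1/2)*I*p*C*B) * r.aa + ((1/2)*q*S*A -(1/2)*p*S*A -(1/2)*I*q*S*A -(1/2)*I*p*S*A) * r.bb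
  · linear_combination (-p*q^2*S*A +p^2*q*C*B +h*q*S*A*B^2 +(1/2)*h*q*C^2*S*A -h*q^3*S^3*A +h*p*C*A^2*B +(1/2)*h*p*C*S^2*B -h*p*q^2*C*S^2*B -h*p^2*q*C^2*S*A -h*p^3*C^3*B +h^2*q*C*S^2*B +h^2*p*C^2*S*A -(1/4)*I*q^3*S*A +(1/4)*I*p*q^2*C*B +(1/4)*I*p^2*q*S*A -(1/4)*I*p^3*C*B) * hI + (-q*C*S^2*B -p*C^2*S*A -I*q*C^2*S*A +I*p*C*S^2*B) * r.hh + (-S*A -(1/2)*C*B -C*A^2*B -(3/2)*C*S^2*B -(1/2)*C^2*S*A +(1/2)*C^3*B +q^2*C*S^2*B +p*q*C^2*S*A +p^2*C^3*B +I*S*A*B^2 -I*S^3*A +(1/2)*I*C*B -I*C*S^2*B +I*C^2*S*A +(1/2)*I*C^3*B +I*q^2*S^3*A -I*q^2*C^2*S*A +I*p*q*C*S^2*B -I*p*q*C^3*B) * r.hp + (-S*A*B^2 -(3/2)*C*B -C*S^2*B +(1/2)*C^3*B +q^2*S^3*A -I*S*A -I*S^3*A +(1/2)*I*C*B -I*C*A^2*B +(1/2)*I*C*S^2*B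 +(1/2)*I*C^2*S*A -(1/2)*I*C^3*B) * r.hq + (-q*C*B +(1/2)*q*C^2*S*A +(1/2)*q*C^3*B +(1/2)*p*C^3*B -(1/2)*I*q*S*A +(1/2)*I*q*C*S^2*B -(1/2)*I*q*C^3*B +(1/2)*I*p*C*B) * r.pp + (-(1/2)*q*S^3*A +(1/2)*q*C*S^2*B +p*S*A +(1/2)*p*S^3*A +(1/2)*p*C*S^2*B +(1/2)*p*C^2*S*A +(1/2)*I*q*S*A +(1/2)*I*q*S^3*A -(1/2)*I*q*C^2*S*A +(1/2)*I*p*S^3*A -(1/2)*I*p*C*B +(1/2)*I*p*C*S^2*B -(1/2)*I*p*C^2*S*A -(1/2)*I*p*C^3*B) * r.qq + ((1/4)*q*S*A +(1/2)*q*C*B -(1/4)*p*S*A +p*C*B -(3/4)*I*q*S*A +(1/4)*I*p*S*A -(1/2)*I*p*C*B) * r.cc + (-(1/2)*q*C*B -(1/2)*p*C*B +(1/2)*I*q*C*B -(1/2)*I*p*C*B) * r.aa + ((1/2)*q*S*A -(1/2)*p*S*A +(1/2)*I*q*S*A +(1/2)*I*p*S*A) * r.bb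
  · linear_combination (-(1/2)*q*A^2*B^2 +(1/8)*q*C^2*S^2 +(1/2)*q^3*S^2*A^2 -(1/2)*p*A^2*B^2 +(1/8)*p*C^2*S^2 -(1/2)*p*q^2*S^2*A^2 -(1/2)*p^2*q*C^2*B^2 +(1/2)*p^3*C^2*B^2 -(1/2)*h*q*C^2*S^2 -(1/4)*h*q^3*S^2 -(1/2)*h*p*C^2*S^2 +(1/2)*h*p*q^2*S^2 +(1/4)*h*p*q^2*C^2 -(1/4)*h*p^2*q*S^2 -(1/2)*h*p^2*q*C^2 +(1/4)*h*p^3*C^2 +(1/2)*h^2*q*C^2*S^2 +(1/2)*h^2*p*C^2*S^2 -(1/2)*I*q*A^2*B^2 +(1/8)*I*q*C^2*S^2 +(1/2)*I*q^3*S^2*A^2 +(1/2)*I*p*A^2*B^2 -(1/8)*I*p*C^2*S^2 +(1/2)*I*p*q^2*S^2*A^2 -(1/2)*I*p^2*q*C^2*B^2 -(1/2)*I*p^3*C^2*B^2 -(1/2)*I*h*q*C^2*S^2 +(1/2)*I*h*p*C^2*S^2 +(1/2)*I*h^2*q*C^2*S^2 -(1/2)*I*h^2*p*C^2*S^2) * hI + ((1/2)*q*S^2*B^2 -(1/2)*q*C^2*A^2 -(1/2)*q*C^2*S^2 -(1/2)*q^3*S^4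 -(1/2)*p*S^2*B^2 +(1/2)*p*C^2*A^2 -(1/2)*p*C^2*S^2 -(1/2)*p*q^2*S^4 +p*q^2*C^2*S^2 +p^2*q*C^2*S^2 -(1/2)*p^2*q*C^4 -(1/2)*p^3*C^4 -(1/2)*I*q*S^2*B^2 +(1/2)*I*q*C^2*A^2 -(1/2)*I*q*C^2*S^2 +(1/2)*I*q^3*S^4 -(1/2)*I*p*S^2*B^2 +(1/2)*I*p*C^2*A^2 +(1/2)*I*p*C^2*S^2 -(1/2)*I*p*q^2*S^4 -I*p*q^2*C^2*S^2 +I*p^2*q*C^2*S^2 +(1/2)*I*p^2*q*C^4 -(1/2)*I*p^3*C^4) * r.hh + ((1/4) +(1/2)*B^2 +(3/2)*S^2 +(1/2)*S^2*B^2 -(1/2)*S^2*A^2 +S^4 -(1/2)*C^2 -(1/2)*C^2*B^2 -(1/4)*C^4 -q^2*S^2 +p*q*C^2 +(1/4)*I -(1/2)*I*B^2 -(1/2)*I*S^2 -(1/2)*I*S^2*B^2 +(1/2)*I*S^2*A^2 -(1/2)*I*C^2 +(1/2)*I*C^2*B^2 -(1/4)*I*C^4 +(1/2)*I*q^2*C^2 +(1/2)*I*p*q*S^2 -(1/2)*I*p^2*C^2) * r.hp + (-(1/4) +(1/2)*B^2 -S^2 +(1/2)*S^2*B^2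 +(1/2)*S^2*A^2 -(3/2)*S^4 +(1/2)*C^2 +(1/2)*C^2*B^2 +C^2*S^2 -(1/4)*C^4 +(1/4)*I +(1/2)*I*B^2 +(1/2)*I*S^2*B^2 +(1/2)*I*S^2*A^2 -(1/2)*I*S^4 -(1/2)*I*C^2 +(1/2)*I*C^2*B^2 +I*C^2*S^2 +(1/4)*I*C^4 -(1/2)*I*q^2*S^2) * r.hq + ((1/2)*q*C^2 +(1/2)*q*C^2*B^2 +(1/2)*q*C^2*S^2 -(1/4)*q*C^4 -(1/2)*p*C^2*B^2 -(1/4)*p*C^4 +(1/4)*I*q*S^2 -(1/4)*I*q*C^2 +(1/2)*I*q*C^2*B^2 +(1/2)*I*q*C^2*S^2 +(1/4)*I*q*C^4 -(1/4)*I*p*C^2 +(1/2)*I*p*C^2*B^2 -(1/4)*I*p*C^4) * r.pp + (-(1/2)*q*S^2 -(1/2)*q*S^2*A^2 -(1/4)*q*S^4 -(1/2)*p*S^2 +(1/2)*p*S^2*A^2 -(1/4)*p*S^4 +(1/2)*p*C^2 +(1/2)*p*C^2*S^2 +(1/4)*I*q*S^2 -(1/2)*I*q*S^2*A^2 +(1/4)*I*q*S^4 +(1/4)*I*q*C^2 -(1/2)*I*p*S^2*A^2 -(1/4)*I*p*S^4 +(1/4)*I*p*C^2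 -(1/2)*I*p*C^2*S^2) * r.qq + (-(1/4)*q -(1/4)*q*A^2 -(5/8)*q*S^2 -(1/4)*q*C^2 -(1/2)*p*B^2 +(1/4)*p*A^2 +(1/8)*p*S^2 -(1/2)*p*C^2 +(1/2)*I*q*B^2 +(1/4)*I*q*A^2 -(3/8)*I*q*S^2 -(3/4)*I*p +I*p*B^2 +(1/4)*I*p*A^2 +(1/8)*I*p*S^2 -(1/4)*I*p*C^2) * r.cc + (-(1/4)*q +(1/2)*q*B^2 -(5/4)*q*S^2 +(1/4)*p +(1/2)*p*B^2 +(3/4)*p*S^2 +(1/4)*I*q +(1/2)*I*q*B^2 -(1/4)*I*q*S^2 +(1/4)*I*p -(1/2)*I*p*B^2 +(1/4)*I*p*S^2) * r.aa + ((1/2)*q*S^2 +I*p +(1/2)*I*p*S^2) * r.bb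
  · linear_combination (-(1/4)*I*q^2*A*B -(1/8)*I*q^2*C*S +(1/2)*I*p*q*A*B +(1/4)*I*p*q*C*S -(1/4)*I*p^2*A*B -(1/8)*I*p^2*C*S +(1/4)*I*h*q^2*C*S -(1/2)*I*h*p*q*C*S +(1/4)*I*h*p^2*C*S) * hI + (-I*C*S -2*I*C*S^3 +I*q^2*C*S^3 +I*p*q*C*S^3 -I*p*q*C^3*S -I*p^2*C^3*S) * r.hh + (2*I*q*S^2*A*B -I*q*C*S*B^2 +I*q*C*S*A^2 -(1/2)*I*q*C*S^3 -2*I*q*C^2*A*B +(1/2)*I*q*C^3*S -(1/2)*I*p*C*S +I*p*C*S*B^2 +(1/2)*I*p*C^3*S) * r.hp + (-(1/2)*I*q*C*S -I*q*C*S*A^2 -(1/2)*I*q*C*S^3) * r.hq + ((1/2)*I*A*B +(1/2)*I*C*S*B^2 -(1/4)*I*C^3*S) * r.pp + ((1/2)*I*A*B +I*S^2*A*B +(1/2)*I*C*S -(1/2)*I*C*S*B^2 +I*C*S*A^2 +(1/2)*I*C*S^3 -I*C^2*A*B +(1/4)*I*C^3*S) * r.qq + (I*S^2*A*B -(1/2)*I*C*S -I*C^2*A*B)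 * r.pq + (-I*A*B -(1/2)*I*h*C*S) * r.cc + (I*C*S -I*h*C*S) * r.aa + (I*h*C*S) * r.bb
  · linear_combination (p*q*S*A^2*B -p*q*C*A*B^2 -(1/2)*p*q*C*S^2*A +(1/2)*p*q*C^2*S*B +(1/4)*h*q^2*S*B -(1/4)*h*q^2*C*A +h*q^2*C*S^2*A -(1/4)*h*p^2*S*B +(1/4)*h*p^2*C*A -h*p^2*C^2*S*B -I*p*q*S*A^2*B -I*p*q*C*A*B^2 +(1/2)*I*p*q*C*S^2*A +(1/2)*I*p*q*C^2*S*B +I*h*q^2*C*S^2*A +I*h*p^2*C^2*S*B) * hI + (-S*B -S^3*B -C*S^2*A +p*q*S^3*B +p*q*C*S^2*A -p*q*C^2*S*B -p*q*C^3*A +I*S*B +I*S^3*B -I*C*S^2*A +I*p*q*S^3*B +I*p*q*C*S^2*A +I*p*q*C^2*S*B +I*p*q*C^3*A) * r.hh + (p*C^2*S*B +(1/2)*I*p*S*B -(1/2)*I*p*C*A -I*p*C^2*S*B) * r.hp + (-q*C*S^2*A +(1/2)*I*q*S*B -(1/2)*I*q*C*A -I*q*C*S^2*A) * r.hq + ((1/2)*C^2*S*B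 +(1/4)*I*S*B -(1/4)*I*C*A -(1/2)*I*C^2*S*B) * r.pp + ((1/2)*C*S^2*A -(1/4)*I*S*B +(1/4)*I*C*A +(1/2)*I*C*S^2*A) * r.qq + (-S*A^2*B +(1/2)*S^3*B +C*A*B^2 +(1/2)*C*S^2*A -(1/2)*C^2*S*B -(1/2)*C^3*A +(1/2)*I*S*B +I*S*A^2*B +(1/2)*I*S^3*B -(1/2)*I*C*A +I*C*A*B^2 -(1/2)*I*C*S^2*A -(1/2)*I*C^2*S*B +(1/2)*I*C^3*A) * r.pq + ((1/2)*S*B -(1/2)*h*C*A -(1/2)*I*S*B -I*h*S*B +(1/2)*I*h*C*A) * r.cc + (-h*S*B +I*h*S*B) * r.aa + (h*C*A +I*h*C*A) * r.bb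
  · linear_combination ((1/2)*q*A^2*B^2 -(1/8)*q*C^2*S^2 -(1/2)*q^3*S^2*A^2 -(1/2)*p*A^2*B^2 +(1/8)*p*C^2*S^2 -(1/2)*p*q^2*S^2*A^2 +(1/2)*p^2*q*C^2*B^2 +(1/2)*p^3*C^2*B^2 -(1/2)*h*q*C^2*S^2 -(1/4)*h*q^3*S^2 +(1/2)*h*p*C^2*S^2 -(1/2)*h*p*q^2*S^2 -(1/4)*h*p*q^2*C^2 -(1/4)*h*p^2*q*S^2 -(1/2)*h*p^2*q*C^2 -(1/4)*h*p^3*C^2 -(1/2)*h^2*q*C^2*S^2 +(1/2)*h^2*p*C^2*S^2 -(1/2)*I*q*A^2*B^2 +(1/8)*I*q*C^2*S^2 +(1/2)*I*q^3*S^2*A^2 -(1/2)*I*p*A^2*B^2 +(1/8)*I*p*C^2*S^2 -(1/2)*I*p*q^2*S^2*A^2 -(1/2)*I*p^2*q*C^2*B^2 +(1/2)*I*p^3*C^2*B^2 +(1/2)*I*h*q*C^2*S^2 +(1/2)*I*h*p*C^2*S^2 +(1/2)*I*h^2*q*C^2*S^2 +(1/2)*I*h^2*p*C^2*S^2) * hI + (-(1/2)*q*S^2*B^2 +(1/2)*q*C^2*A^2 +(1/2)*q*C^2*S^2 +(1/2)*q^3*S^4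 -(1/2)*p*S^2*B^2 +(1/2)*p*C^2*A^2 -(1/2)*p*C^2*S^2 -(1/2)*p*q^2*S^4 +p*q^2*C^2*S^2 -p^2*q*C^2*S^2 +(1/2)*p^2*q*C^4 -(1/2)*p^3*C^4 -(1/2)*I*q*S^2*B^2 +(1/2)*I*q*C^2*A^2 -(1/2)*I*q*C^2*S^2 +(1/2)*I*q^3*S^4 +(1/2)*I*p*S^2*B^2 -(1/2)*I*p*C^2*A^2 -(1/2)*I*p*C^2*S^2 +(1/2)*I*p*q^2*S^4 +I*p*q^2*C^2*S^2 +I*p^2*q*C^2*S^2 +(1/2)*I*p^2*q*C^4 +(1/2)*I*p^3*C^4) * r.hh + ((1/4) +(1/2)*B^2 +S^2 +(1/2)*S^2*B^2 -(1/2)*S^2*A^2 +(3/2)*S^4 -(1/2)*C^2 -(1/2)*C^2*B^2 -C^2*S^2 -(1/4)*C^4 +q^2*S^2 +p*q*C^2 -(1/4)*I +(1/2)*I*B^2 +(1/2)*I*S^2*B^2 -(1/2)*I*S^2*A^2 -(1/2)*I*S^4 -(1/2)*I*C^2 -(1/2)*I*C^2*B^2 -I*C^2*S^2 +(1/4)*I*C^4 +(1/2)*I*q^2*C^2 -(1/2)*I*p*q*S^2 -(1/2)*I*p^2*C^2) * r.hp + ((1/4) -(1/2)*B^2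 +(1/2)*S^2 -(1/2)*S^2*B^2 -(1/2)*S^2*A^2 +S^4 +(1/2)*C^2 -(1/2)*C^2*B^2 +(1/4)*C^4 +(1/4)*I +(1/2)*I*B^2 -(1/2)*I*S^2 +(1/2)*I*S^2*B^2 +(1/2)*I*S^2*A^2 -I*S^4 -(1/2)*I*C^2 +(1/2)*I*C^2*B^2 +(1/4)*I*C^4 +(1/2)*I*q^2*S^2) * r.hq + ((1/2)*q*C^2 -(1/2)*q*C^2*B^2 -(1/2)*q*C^2*S^2 +(1/4)*q*C^4 -(1/2)*p*C^2*B^2 -(1/4)*p*C^4 -(1/4)*I*q*S^2 -(1/4)*I*q*C^2 +(1/2)*I*q*C^2*B^2 +(1/2)*I*q*C^2*S^2 +(1/4)*I*q*C^4 -(1/4)*I*p*C^2 -(1/2)*I*p*C^2*B^2 +(1/4)*I*p*C^4) * r.pp + ((1/2)*q*S^2 +(1/2)*q*S^2*A^2 +(1/4)*q*S^4 +(1/2)*p*S^2 +(1/2)*p*S^2*A^2 -(1/4)*p*S^4 +(1/2)*p*C^2 +(1/2)*p*C^2*S^2 -(1/4)*I*q*S^2 -(1/2)*I*q*S^2*A^2 +(1/4)*I*q*S^4 +(1/4)*I*q*C^2 +(1/2)*I*p*S^2*A^2 +(1/4)*I*p*S^4 +(1/4)*I*p*C^2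 +(1/2)*I*p*C^2*S^2) * r.qq + (-(1/2)*q*B^2 +(1/4)*q*A^2 -(5/8)*q*S^2 +(1/4)*p -p*B^2 +(1/4)*p*A^2 -(5/8)*p*S^2 -(1/4)*p*C^2 +(1/4)*I*q +(1/4)*I*q*A^2 -(1/8)*I*q*S^2 +(1/4)*I*q*C^2 -(1/2)*I*p*B^2 -(1/4)*I*p*A^2 +(1/8)*I*p*S^2 +(1/2)*I*p*C^2) * r.cc + ((1/4)*q -(1/2)*q*B^2 +(3/4)*q*S^2 +(1/4)*p +(1/2)*p*B^2 +(1/4)*p*S^2 +(1/4)*I*q +(1/2)*I*q*B^2 -(3/4)*I*q*S^2 -(1/4)*I*p +(1/2)*I*p*B^2 +(1/4)*I*p*S^2) * r.aa + (-(1/2)*q*S^2 -p -p*S^2 +(1/2)*I*p*S^2) * r.bb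
  · linear_combination (-p*q^2*S*A -p^2*q*C*B +h*q*S*A*B^2 +(1/2)*h*q*C^2*S*A -h*q^3*S^3*A -h*p*C*A^2*B -(1/2)*h*p*C*S^2*B +h*p*q^2*C*S^2*B -h*p^2*q*C^2*S*A +h*p^3*C^3*B -h^2*q*C*S^2*B +h^2*p*C^2*S*A -(1/4)*I*q^3*S*A -(1/4)*I*p*q^2*C*B +(1/4)*I*p^2*q*S*A +(1/4)*I*p^3*C*B) * hI + (q*C*S^2*B -p*C^2*S*A -I*q*C^2*S*A -I*p*C*S^2*B) * r.hh + (-S*A +(1/2)*C*B +C*A^2*B +(3/2)*C*S^2*B -(1/2)*C^2*S*A -(1/2)*C^3*B -q^2*C*S^2*B +p*q*C^2*S*A -p^2*C^3*B +I*S*A*B^2 -I*S^3*A -(1/2)*I*C*B +I*C*S^2*B +I*C^2*S*A -(1/2)*I*C^3*B +I*q^2*S^3*A -I*q^2*C^2*S*A -I*p*q*C*S^2*B +I*p*q*C^3*B) * r.hp + (-S*A*B^2 +(3/2)*C*B +C*S^2*B -(1/2)*C^3*B +q^2*S^3*A -I*S*A -I*S^3*A -(1/2)*I*C*B +I*C*A^2*B -(1/2)*I*C*S^2*B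 +(1/2)*I*C^2*S*A +(1/2)*I*C^3*B) * r.hq + (q*C*B +(1/2)*q*C^2*S*A -(1/2)*q*C^3*B -(1/2)*p*C^3*B -(1/2)*I*q*S*A -(1/2)*I*q*C*S^2*B +(1/2)*I*q*C^3*B -(1/2)*I*p*C*B) * r.pp + (-(1/2)*q*S^3*A -(1/2)*q*C*S^2*B +p*S*A +(1/2)*p*S^3*A -(1/2)*p*C*S^2*B +(1/2)*p*C^2*S*A +(1/2)*I*q*S*A +(1/2)*I*q*S^3*A -(1/2)*I*q*C^2*S*A +(1/2)*I*p*S^3*A +(1/2)*I*p*C*B -(1/2)*I*p*C*S^2*B -(1/2)*I*p*C^2*S*A +(1/2)*I*p*C^3*B) * r.qq + ((1/4)*q*S*A -(1/2)*q*C*B -(1/4)*p*S*A -p*C*B -(3/4)*I*q*S*A +(1/4)*I*p*S*A +(1/2)*I*p*C*B) * r.cc + ((1/2)*q*C*B +(1/2)*p*C*B -(1/2)*I*q*C*B +(1/2)*I*p*C*B) * r.aa + ((1/2)*q*S*A -(1/2)*p*S*A +(1/2)*I*q*S*A +(1/2)*I*p*S*A) * r.bb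
  · linear_combination (-p*q*S*A^2*B +p*q*C*A*B^2 +(1/2)*p*q*C*S^2*A -(1/2)*p*q*C^2*S*B -(1/4)*h*q^2*S*B +(1/4)*h*q^2*C*A -h*q^2*C*S^2*A +(1/4)*h*p^2*S*B -(1/4)*h*p^2*C*A +h*p^2*C^2*S*B -I*p*q*S*A^2*B -I*p*q*C*A*B^2 +(1/2)*I*p*q*C*S^2*A +(1/2)*I*p*q*C^2*S*B +I*h*q^2*C*S^2*A +I*h*p^2*C^2*S*B) * hI + (S*B +S^3*B +C*S^2*A -p*q*S^3*B -p*q*C*S^2*A +p*q*C^2*S*B +p*q*C^3*A +I*S*B +I*S^3*B -I*C*S^2*A +I*p*q*S^3*B +I*p*q*C*S^2*A +I*p*q*C^2*S*B +I*p*q*C^3*A) * r.hh + (-p*C^2*S*B +(1/2)*I*p*S*B -(1/2)*I*p*C*A -I*p*C^2*S*B) * r.hp + (q*C*S^2*A +(1/2)*I*q*S*B -(1/2)*I*q*C*A -I*q*C*S^2*A) * r.hq + (-(1/2)*C^2*S*B +(1/4)*I*S*B -(1/4)*I*C*A -(1/2)*I*C^2*S*B) * r.pp + (-(1/2)*C*S^2*A -(1/4)*I*S*B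 +(1/4)*I*C*A +(1/2)*I*C*S^2*A) * r.qq + (S*A^2*B -(1/2)*S^3*B -C*A*B^2 -(1/2)*C*S^2*A +(1/2)*C^2*S*B +(1/2)*C^3*A +(1/2)*I*S*B +I*S*A^2*B +(1/2)*I*S^3*B -(1/2)*I*C*A +I*C*A*B^2 -(1/2)*I*C*S^2*A -(1/2)*I*C^2*S*B +(1/2)*I*C^3*A) * r.pq + (-(1/2)*S*B +(1/2)*h*C*A -(1/2)*I*S*B -I*h*S*B +(1/2)*I*h*C*A) * r.cc + (h*S*B +I*h*S*B) * r.aa + (-h*C*A +I*h*C*A) * r.bb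
  · linear_combination ((1/4)*I*q^2*A*B +(1/8)*I*q^2*C*S +(1/2)*I*p*q*A*B +(1/4)*I*p*q*C*S +(1/4)*I*p^2*A*B +(1/8)*I*p^2*C*S +(1/4)*I*h*q^2*C*S +(1/2)*I*h*p*q*C*S +(1/4)*I*h*p^2*C*S) * hI + (-I*C*S -2*I*C*S^3 -I*q^2*C*S^3 +I*p*q*C*S^3 -I*p*q*C^3*S +I*p^2*C^3*S) * r.hh + (-2*I*q*S^2*A*B +I*q*C*S*B^2 -I*q*C*S*A^2 +(1/2)*I*q*C*S^3 +2*I*q*C^2*A*B -(1/2)*I*q*C^3*S -(1/2)*I*p*C*S +I*p*C*S*B^2 +(1/2)*I*p*C^3*S) * r.hp + (-(1/2)*I*q*C*S -I*q*C*S*A^2 -(1/2)*I*q*C*S^3) * r.hq + (-(1/2)*I*A*B -(1/2)*I*C*S +(1/2)*I*C*S*B^2 +(3/4)*I*C^3*S) * r.pp + (-(1/2)*I*A*B -I*S^2*A*B +(1/2)*I*C*S*B^2 +I*C^2*A*B -(1/4)*I*C^3*S) * r.qq + (-I*S^2*A*B -(1/2)*I*C*S +I*C*S*B^2 -I*C*S*A^2 +(1/2)*I*C*S^3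 +I*C^2*A*B -(1/2)*I*C^3*S) * r.pq + (I*A*B +(1/2)*I*C*S +(1/2)*I*h*C*S) * r.cc + (-I*h*C*S) * r.aa + (I*C*S +I*h*C*S) * r.bb

/-- the square of the rotation -/
theorem R01_sq {h p q C S A B : ℂ} (r : Rel h p q C S A B) :
    (R0 p q * R1 p q) * (R0 p q * R1 p q) = mk4 (-I) 0 0 0 0 (-I) 0 0 0 0 I 0 0 0 0 I := by
  have hI : I * I = -1 := Complex.I_mul_I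
  rw [R0, R1, mk4_mul, mk4_mul]
  apply mk4_ext
  · linear_combination ((5/16)*q^4 -(1/4)*p*q^3 -(9/8)*p^2*q^2 -(1/4)*p^3*q +(5/16)*p^4 -(1/4)*I*q^4 -(1/2)*I*p*q^3 +(1/2)*I*p^3*q +(1/4)*I*p^4 +(1/16)*I^2*q^4 +(1/4)*I^2*p*q^3 +(3/8)*I^2*p^2*q^2 +(1/4)*I^2*p^3*q +(1/16)*I^2*p^4) * hI + (-(1/4)*p -2*I*q) * r.hp + ((7/4)*q) * r.hq + (-(3/8) +(3/2)*q^2 -(1/4)*p^2 -I*p*q) * r.pp + ((3/8) -(1/4)*q^2 -I +I*p*q) * r.qq + ((3/4) -I) * r.pq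
  · ring
  · ring
  · ring
  · ring
  · linear_combination ((5/16)*q^4 +(1/4)*p*q^3 -(9/8)*p^2*q^2 +(1/4)*p^3*q +(5/16)*p^4 +(1/4)*I*q^4 -(1/2)*I*p*q^3 +(1/2)*I*p^3*q -(1/4)*I*p^4 +(1/16)*I^2*q^4 -(1/4)*I^2*p*q^3 +(3/8)*I^2*p^2*q^2 -(1/4)*I^2*p^3*q +(1/16)*I^2*p^4) * hI + (-(1/4)*p -2*I*q) * r.hp + ((7/4)*q) * r.hq + (-(3/8) +(3/2)*q^2 -(1/4)*p^2 -I*p*q) * r.pp + ((3/8) -(1/4)*q^2 -I +I*p*q) * r.qq + ((3/4) -I) * r.pq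
  · ring
  · ring
  · ring
  · ring
  · linear_combination ((5/16)*q^4 +(1/4)*p*q^3 -(9/8)*p^2*q^2 +(1/4)*p^3*q +(5/16)*p^4 -(1/4)*I*q^4 +(1/2)*I*p*q^3 -(1/2)*I*p^3*q +(1/4)*I*p^4 +(1/16)*I^2*q^4 -(1/4)*I^2*p*q^3 +(3/8)*I^2*p^2*q^2 -(1/4)*I^2*p^3*q +(1/16)*I^2*p^4) * hI + (-(1/4)*p +2*I*q) * r.hp + ((7/4)*q) * r.hq + (-(3/8) +(3/2)*q^2 -(1/4)*p^2 +I*p*q) * r.pp + ((3/8) -(1/4)*q^2 +I -I*p*q) * r.qq + ((3/4) +I) * r.pq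
  · ring
  · ring
  · ring
  · ring
  · linear_combination ((5/16)*q^4 -(1/4)*p*q^3 -(9/8)*p^2*q^2 -(1/4)*p^3*q +(5/16)*p^4 +(1/4)*I*q^4 +(1/2)*I*p*q^3 -(1/2)*I*p^3*q -(1/4)*I*p^4 +(1/16)*I^2*q^4 +(1/4)*I^2*p*q^3 +(3/8)*I^2*p^2*q^2 +(1/4)*I^2*p^3*q +(1/16)*I^2*p^4) * hI + (-(1/4)*p +2*I*q) * r.hp + ((7/4)*q) * r.hq + (-(3/8) +(3/2)*q^2 -(1/4)*p^2 +I*p*q) * r.pp + ((3/8) -(1/4)*q^2 +I -I*p*q) * r.qq + ((3/4) +I) * r.pq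

theorem R01_pow {h p q C S A B : ℂ} (r : Rel h p q C S A B) : (R0 p q * R1 p q) ^ 4 = -1 := by
  have hI : I * I = -1 := Complex.I_mul_I
  have h4 : (R0 p q * R1 p q) ^ 4 = ((R0 p q * R1 p q) * (R0 p q * R1 p q)) *
      ((R0 p q * R1 p q) * (R0 p q * R1 p q)) := by
    rw [pow_succ, pow_succ, pow_two, mul_assoc, mul_assoc]
  rw [h4, R01_sq r, mk4_mul, mk4_one, mk4_neg]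
  apply mk4_ext <;> first | ring1 | linear_combination hI

/-- braid relation to a power -/
theorem pow3_of_braid {R : Type*} [Ring R] {a b : R} (ha : a * a = 1) (hb : b * b = 1)
    (h : b * a * b = -(a * b * a)) : (a * b) ^ 3 = -1 := by
  have e : (a * b) ^ 3 = a * (b * a * b) * (a * b) := by
    rw [pow_succ, pow_two]
    simp only [mul_assoc]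
  rw [e, h]
  have e2 : a * -(a * b * a) * (a * b) = -((a * a) * b * (a * a) * b) := by
    simp only [mul_assoc, mul_neg, neg_mul]
  rw [e2, ha, one_mul, mul_one, hb]

/-- matrices in Pauli form -/
noncomputable def mkP (a0 a1 a2 a3 b1 b2 b3 c0 c1 c2 c3 d0 d1 d2 d3 : ℂ) : M4 :=
  mk4 (a0 + a3) (a1 - I * a2) (c0 + c3) (c1 - I * c2)
    (a1 + I * a2) (a0 - a3) (c1 + I * c2) (c0 - c3)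
    (-(d0 + d3)) (-(d1 - I * d2)) (-a0 + b3) (b1 - I * b2)
    (-(d1 + I * d2)) (-(d0 - d3)) (b1 + I * b2) (-a0 - b3)

/-- the matrix `h G` of the form `G = [[k, z], [z', k]] ⊗ 1` -/
noncomputable def mkY (k z z' : ℂ) : M4 :=
  mk4 k 0 z 0 0 k 0 z (-z') 0 (-k) 0 0 (-z') 0 (-k)

/-- coefficient -/
noncomputable def fa0 (h p q C S A g0 g1 : ℂ) : ℂ :=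
  -g0 -2*S^2*g0 -2*S^4*g0 -2*q*C*S^2*A*g1 +2*p*C*A*g1 +2*p*C*S^2*A*g1 -2*h*g0 -4*h*S^2*g0

/-- coefficient -/
noncomputable def fa1 (p q C S g2 : ℂ) : ℂ :=
  q*C*S*g2 +p*C*S*g2

/-- coefficient -/
noncomputable def fa2 (p q C S A B g0 g1 : ℂ) : ℂ :=
  -2*S*A*g0 -2*S^3*A*g0 +2*C*S^2*B*g0 +2*q*S^2*A*B*g1 +q*C*S*g1 +q*C*S^3*g1 -2*p*S^2*A*B*g1 +p*C*S*g1 +p*C*S^3*g1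

/-- coefficient -/
noncomputable def fa3 (h p q C S A B g0 g1 : ℂ) : ℂ :=
  2*q*C*S^2*A*g1 +2*p*S*B*g1 +2*p*S^3*B*g1 -2*h*S^2*g0 -2*h*S^4*g0 -4*h*C*S*A*B*g0

/-- coefficient -/
noncomputable def fb1 (p q C S g2 : ℂ) : ℂ :=
  -q*C*S*g2 -p*C*S*g2

/-- coefficient -/
noncomputable def fb2 (p q C S A B g0 g1 : ℂ) : ℂ :=
  2*S*A*g0 +2*S^3*A*g0 +2*C*S^2*B*g0 +2*q*S^2*A*B*g1 -q*C*S*g1 -q*C*S^3*g1 -2*p*S^2*A*B*g1 -p*C*S*g1 -p*C*S^3*g1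

/-- coefficient -/
noncomputable def fb3 (h p q C S A B g0 g1 : ℂ) : ℂ :=
  2*q*C*S^2*A*g1 -2*p*S*B*g1 -2*p*S^3*B*g1 -2*h*S^2*g0 -2*h*S^4*g0 +4*h*C*S*A*B*g0

/-- coefficient -/
noncomputable def fc0 (h p q C S A g0 g1 g2 : ℂ) : ℂ :=
  g1 +S^2*g1 +2*q*C*S^2*A*g0 -2*p*C*A*g0 -2*p*C*S^2*A*g0 +2*h*g1 +4*h*S^2*g1 +2*h*S^4*g1 -I*g2 -I*S^2*g2

/-- coefficient -/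
noncomputable def fc1 (h p q C S A g0 g1 g2 : ℂ) : ℂ :=
  2*h*S*A*g2 +2*I*S^3*A*g1 +I*q*C*S*g0 +2*I*q*C*S^3*g0 +I*p*C*S*g0 -2*I*h*S*A*g1 -4*I*h*S^3*A*g1

/-- coefficient -/
noncomputable def fc2 (p q C S A g0 g1 : ℂ) : ℂ :=
  2*S*A*g1 +2*S^3*A*g1 -q*C*S*g0 -p*C*S*g0 -2*p*C*S^3*g0

/-- coefficient -/
noncomputable def fc3 (h p q C S A B g0 g1 : ℂ) : ℂ :=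
  -2*q*S^3*B*g0 -2*p*S*B*g0 -2*p*S^3*B*g0 +4*h*C*S*A*B*g1

/-- coefficient -/
noncomputable def fd0 (h p q C S A g0 g1 g2 : ℂ) : ℂ :=
  g1 +S^2*g1 +2*q*C*S^2*A*g0 -2*p*C*A*g0 -2*p*C*S^2*A*g0 +2*h*g1 +4*h*S^2*g1 +2*h*S^4*g1 +I*g2 +I*S^2*g2

/-- coefficient -/
noncomputable def fd1 (h p q C S A g0 g1 g2 : ℂ) : ℂ :=
  2*h*S*A*g2 -2*I*S^3*A*g1 -I*q*C*S*g0 -2*I*q*C*S^3*g0 -I*p*C*S*g0 +2*I*h*S*A*g1 +4*I*h*S^3*A*g1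

/-- coefficient -/
noncomputable def fd2 (p q C S A g0 g1 : ℂ) : ℂ :=
  2*S*A*g1 +2*S^3*A*g1 -q*C*S*g0 -p*C*S*g0 -2*p*C*S^3*g0

/-- coefficient -/
noncomputable def fd3 (h p q C S A B g0 g1 : ℂ) : ℂ :=
  -2*q*S^3*B*g0 -2*p*S*B*g0 -2*p*S^3*B*g0 +4*h*C*S*A*B*g1

/-- the conjugate of `mkY` by `R2` -/
theorem Pg_eq {h p q C S A B : ℂ} (r : Rel h p q C S A B) (g0 g1 g2 : ℂ) :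
    R2 h p q C S A B * mkY g0 (g1 + I * g2) (g1 - I * g2) * R2 h p q C S A B =
    mkP (fa0 h p q C S A g0 g1) (fa1 p q C S g2) (fa2 p q C S A B g0 g1) (fa3 h p q C S A B g0 g1) (fb1 p q C S g2) (fb2 p q C S A B g0 g1) (fb3 h p q C S A B g0 g1) (fc0 h p q C S A g0 g1 g2) (fc1 h p q C S A g0 g1 g2) (fc2 p q C S A g0 g1) (fc3 h p q C S A B g0 g1) (fd0 h p q C S A g0 g1 g2) (fd1 h p q C S A g0 g1 g2) (fd2 p q C S A g0 g1) (fd3 h p q C S A B g0 g1) := by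
  have hI : I * I = -1 := Complex.I_mul_I
  rw [R2, mkY, mk4_mul, mk4_mul, mkP]
  simp only [fa0, fa1, fa2, fa3, fb1, fb2, fb3, fc0, fc1, fc2, fc3, fd0, fd1, fd2, fd3]
  apply mk4_ext
  · linear_combination (A^2*B^2*g0 +C*S*A*B*g0 +(1/4)*C^2*S^2*g0 -2*q*S*A^2*B*g1 -q*C*S^2*A*g1 +q^2*S^2*A^2*g0 -2*p*C*A*B^2*g1 -p*C^2*S*B*g1 +2*p*q*C*S*A*B*g0 +p^2*C^2*B^2*g0 +2*h*C*S*A*B*g0 +h*C^2*S^2*g0 -2*h*q*C*S^2*A*g1 -2*h*p*C^2*S*B*g1 +h^2*C^2*S^2*g0) * hI + (3*S^2*g0 -S^2*B^2*g0 +3*S^4*g0 +2*C*S*A*B*g0 -C^2*A^2*g0 -C^2*S^2*g0 -2*q*S^3*B*g1 +2*q*C*S^2*A*g1 -q^2*S^4*g0 -2*p*C^2*S*B*g1 +2*p*C^3*A*g1 -2*p*q*C^2*S^2*g0 -p^2*C^4*g0) * r.hh + (-2*C*S^2*A*g1 +2*C^2*S*B*g1) * r.hp + (2*S*B*g1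 +2*S^3*B*g1 +2*C*S^2*A*g1) * r.hq + (-C^2*B^2*g0 -(1/2)*C^4*g0) * r.pp + (-S^2*A^2*g0 -(1/2)*S^4*g0) * r.qq + (-2*C*S*A*B*g0 -C^2*S^2*g0) * r.pq + (-(1/2)*g0 -B^2*g0 -(1/2)*A^2*g0 -(5/4)*S^2*g0 -(1/2)*C^2*g0 +q*S*B*g1 +p*S*B*g1 +p*C*A*g1 -(1/2)*h*g0 -h*B^2*g0 -(5/2)*h*S^2*g0 -(1/2)*h*C^2*g0) * r.cc + (-(1/2)*g0 -B^2*g0 -(3/2)*S^2*g0 +2*q*S*B*g1 +h*S^2*g0) * r.aa + (-g0 -2*S^2*g0 +2*p*C*A*g1 -2*h*g0 -2*h*S^2*g0) * r.bb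
  · linear_combination (-2*h*p*C*S*B^2*g2 -h*p*C^3*S*g2 +2*h^2*q*C*S^3*g2) * hI + (-2*q*C*S^3*g2 -2*I*C*S^2*B*g0 +2*I*C^2*S*A*g0 -2*I*p*C^3*S*g1) * r.hh + (2*C*S*B^2*g2 -C*S^3*g2 +C^3*S*g2 -I*C*S*g1 -I*C*S^3*g1 -2*I*q*C*S^2*B*g0 +2*I*q*C^2*S*A*g0) * r.hp + (-C*S^3*g2 +4*I*S^2*A*B*g1 +I*C*S*g1 -2*I*C*S*A^2*g1 +2*I*C*S^3*g1) * r.hq + (-I*C*S^2*B*g0 +I*C^2*S*A*g0) * r.qq + (-I*C*S^2*B*g0 +I*C^2*S*A*g0) * r.pq + ((1/2)*q*C*S*g2 +(1/2)*p*C*S*g2 +2*I*S*A*g0 -I*p*C*S*g1) * r.cc + (I*q*C*S*g1 -I*p*C*S*g1) * r.aa + (q*C*S*g2 +p*C*S*g2) * r.bb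
  · linear_combination (-A^2*B^2*g1 +(1/4)*C^2*S^2*g1 +2*q*S*A^2*B*g0 -q^2*S^2*A^2*g1 +2*p*C*A*B^2*g0 -2*p*q*C*S*A*B*g1 -p^2*C^2*B^2*g1 -2*h*C*S*A*B*g1 +2*h*q*C*S^2*A*g0 +2*h*p*C^2*S*B*g0 -h^2*C^2*S^2*g1 -I*A^2*B^2*g2 +(1/4)*I*C^2*S^2*g2 +I*q^2*S^2*A^2*g2 +2*I*p*q*C*S*A*B*g2 +I*p^2*C^2*B^2*g2 -2*I*h*C*S*A*B*g2 -I*h^2*C^2*S^2*g2) * hI + (-3*S^2*g1 -S^2*B^2*g1 -3*S^4*g1 +C^2*A^2*g1 +C^2*S^2*g1 -2*q*S^3*B*g0 -q^2*S^4*g1 -2*p*C^3*A*g0 +p^2*C^4*g1 +I*S^2*g2 -I*S^2*B^2*g2 +I*S^4*g2 +I*C^2*A^2*g2 +I*C^2*S^2*g2 +I*q^2*S^4*g2 -I*p^2*C^4*g2) * r.hh + (2*C*S^2*A*g0 -2*C^2*S*B*g0) * r.hp + (-2*S*B*g0 -2*S^3*B*g0 -2*C*S^2*A*g0) * r.hq + (C^2*B^2*g1 +(1/2)*C^4*g1 -I*C^2*B^2*g2 -(1/2)*I*C^4*g2)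 * r.pp + (S^2*A^2*g1 -(1/2)*S^4*g1 -I*S^2*A^2*g2 +(1/2)*I*S^4*g2) * r.qq + (2*C*S*A*B*g1 -2*I*C*S*A*B*g2) * r.pq + ((1/2)*g1 +B^2*g1 +(1/2)*A^2*g1 +(3/4)*S^2*g1 +(1/2)*C^2*g1 -q*S*B*g0 -p*S*B*g0 -p*C*A*g0 +(1/2)*h*g1 +h*B^2*g1 +(1/2)*h*S^2*g1 +(1/2)*h*C^2*g1 -(1/2)*I*g2 -I*B^2*g2 +(1/2)*I*A^2*g2 -(1/4)*I*S^2*g2 -(1/2)*I*C^2*g2 -(1/2)*I*h*g2 -I*h*B^2*g2 -(1/2)*I*h*S^2*g2 -(1/2)*I*h*C^2*g2) * r.cc + ((1/2)*g1 +B^2*g1 +(3/2)*S^2*g1 -2*q*S*B*g0 -h*S^2*g1 +(1/2)*I*g2 +I*B^2*g2 -(1/2)*I*S^2*g2 +I*h*S^2*g2) * r.aa + (g1 +S^2*g1 -2*p*C*A*g0 +2*h*g1 +2*h*S^2*g1 -I*g2 -I*S^2*g2) * r.bb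
  · linear_combination (-2*h*S*A*B^2*g2 -h*C^2*S*A*g2 +2*h*q^2*S^3*A*g2 +2*h*p*q*C^2*S*A*g2 -2*h^2*C^2*S*A*g2) * hI + (-2*S^3*A*g2 +2*C^2*S*A*g2 +2*I*S^3*A*g1 -2*I*C^2*S*A*g1 +2*I*q*C*S^3*g0 +2*I*p*C^3*S*g0) * r.hh + (-2*q*C^2*S*A*g2 +I*C*S*g0 +2*I*C*S*B^2*g0 +I*C^3*S*g0 -2*I*q*C^2*S*A*g1) * r.hp + (-2*q*S^3*A*g2 -I*C*S*g0 +2*I*C*S*A^2*g0 -I*C*S^3*g0 -2*I*q*S^3*A*g1) * r.hq + (S^3*A*g2 -C^2*S*A*g2 +I*S^3*A*g1 -I*C^2*S*A*g1) * r.qq + (-S^3*A*g2 -C^2*S*A*g2 -I*S^3*A*g1 -I*C^2*S*A*g1) * r.pq + (h*S*A*g2 -2*I*S*A*g1 +(1/2)*I*q*C*S*g0 +(3/2)*I*p*C*S*g0 -I*h*S*A*g1) * r.cc + (-I*q*C*S*g0 +I*p*C*S*g0) * r.aa + (2*h*S*A*g2 +I*q*C*S*g0 +I*p*C*S*g0 -2*I*h*S*A*g1) * r.bb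
  · linear_combination (-2*h*p*C*S*B^2*g2 -h*p*C^3*S*g2 +2*h^2*q*C*S^3*g2) * hI + (-2*q*C*S^3*g2 +2*I*C*S^2*B*g0 -2*I*C^2*S*A*g0 +2*I*p*C^3*S*g1) * r.hh + (2*C*S*B^2*g2 -C*S^3*g2 +C^3*S*g2 +I*C*S*g1 +I*C*S^3*g1 +2*I*q*C*S^2*B*g0 -2*I*q*C^2*S*A*g0) * r.hp + (-C*S^3*g2 -4*I*S^2*A*B*g1 -I*C*S*g1 +2*I*C*S*A^2*g1 -2*I*C*S^3*g1) * r.hq + (I*C*S^2*B*g0 -I*C^2*S*A*g0) * r.qq + (I*C*S^2*B*g0 -I*C^2*S*A*g0) * r.pq + ((1/2)*q*C*S*g2 +(1/2)*p*C*S*g2 -2*I*S*A*g0 +I*p*C*S*g1) * r.cc + (-I*q*C*S*g1 +I*p*C*S*g1) * r.aa + (q*C*S*g2 +p*C*S*g2) * r.bb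
  · linear_combination (A^2*B^2*g0 +C*S*A*B*g0 +(1/4)*C^2*S^2*g0 +2*q*S*A^2*B*g1 +q*C*S^2*A*g1 +q^2*S^2*A^2*g0 -2*p*C*A*B^2*g1 -p*C^2*S*B*g1 -2*p*q*C*S*A*B*g0 +p^2*C^2*B^2*g0 -2*h*C*S*A*B*g0 -h*C^2*S^2*g0 -2*h*q*C*S^2*A*g1 +2*h*p*C^2*S*B*g1 +h^2*C^2*S^2*g0) * hI + (3*S^2*g0 -S^2*B^2*g0 +3*S^4*g0 +2*C*S*A*B*g0 -C^2*A^2*g0 -C^2*S^2*g0 +2*q*S^3*B*g1 -2*q*C*S^2*A*g1 -q^2*S^4*g0 -2*p*C^2*S*B*g1 +2*p*C^3*A*g1 +2*p*q*C^2*S^2*g0 -p^2*C^4*g0) * r.hh + (-2*C*S^2*A*g1 -2*C^2*S*B*g1) * r.hp + (-2*S*B*g1 -2*S^3*B*g1 +2*C*S^2*A*g1) * r.hq + (-C^2*B^2*g0 -(1/2)*C^4*g0) * r.pp + (-S^2*A^2*g0 -(1/2)*S^4*g0) * r.qq + (2*C*S*A*B*g0 +C^2*S^2*g0) * r.pq + (-(1/2)*g0 -B^2*g0 -(1/2)*A^2*g0 -(5/4)*S^2*g0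 -(1/2)*C^2*g0 -q*S*B*g1 -p*S*B*g1 +p*C*A*g1 -(1/2)*h*g0 -h*B^2*g0 +(3/2)*h*S^2*g0 -(1/2)*h*C^2*g0) * r.cc + (-(1/2)*g0 -B^2*g0 -(3/2)*S^2*g0 -2*q*S*B*g1 +h*S^2*g0) * r.aa + (-g0 -2*S^2*g0 +2*p*C*A*g1 -2*h*g0 -2*h*S^2*g0) * r.bb
  · linear_combination (-2*h*S*A*B^2*g2 -h*C^2*S*A*g2 +2*h*q^2*S^3*A*g2 -2*h*p*q*C^2*S*A*g2 +2*h^2*C^2*S*A*g2) * hI + (-2*S^3*A*g2 -2*C^2*S*A*g2 +2*I*S^3*A*g1 +2*I*C^2*S*A*g1 +2*I*q*C*S^3*g0 -2*I*p*C^3*S*g0) * r.hh + (2*q*C^2*S*A*g2 -I*C*S*g0 +2*I*C*S*B^2*g0 -2*I*C*S^3*g0 +I*C^3*S*g0 +2*I*q*C^2*S*A*g1) * r.hp + (-2*q*S^3*A*g2 +I*C*S*g0 -2*I*C*S*A^2*g0 -I*C*S^3*g0 -2*I*q*S^3*A*g1) * r.hq + (S^3*A*g2 +C^2*S*A*g2 +I*S^3*A*g1 +I*C^2*S*A*g1) * r.qq + (-S^3*A*g2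 +C^2*S*A*g2 -I*S^3*A*g1 +I*C^2*S*A*g1) * r.pq + (h*S*A*g2 +2*I*S*A*g1 +(1/2)*I*q*C*S*g0 -(1/2)*I*p*C*S*g0 -I*h*S*A*g1) * r.cc + (I*q*C*S*g0 -I*p*C*S*g0) * r.aa + (2*h*S*A*g2 +I*q*C*S*g0 +I*p*C*S*g0 -2*I*h*S*A*g1) * r.bb
  · linear_combination (-A^2*B^2*g1 +(1/4)*C^2*S^2*g1 -2*q*S*A^2*B*g0 -q^2*S^2*A^2*g1 +2*p*C*A*B^2*g0 +2*p*q*C*S*A*B*g1 -p^2*C^2*B^2*g1 +2*h*C*S*A*B*g1 +2*h*q*C*S^2*A*g0 -2*h*p*C^2*S*B*g0 -h^2*C^2*S^2*g1 -I*A^2*B^2*g2 +(1/4)*I*C^2*S^2*g2 +I*q^2*S^2*A^2*g2 -2*I*p*q*C*S*A*B*g2 +I*p^2*C^2*B^2*g2 +2*I*h*C*S*A*B*g2 -I*h^2*C^2*S^2*g2) * hI + (-3*S^2*g1 -S^2*B^2*g1 -3*S^4*g1 +C^2*A^2*g1 +C^2*S^2*g1 +2*q*S^3*B*g0 -q^2*S^4*g1 -2*p*C^3*A*g0 +p^2*C^4*g1 +I*S^2*g2 -I*S^2*B^2*g2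 +I*S^4*g2 +I*C^2*A^2*g2 +I*C^2*S^2*g2 +I*q^2*S^4*g2 -I*p^2*C^4*g2) * r.hh + (2*C*S^2*A*g0 +2*C^2*S*B*g0) * r.hp + (2*S*B*g0 +2*S^3*B*g0 -2*C*S^2*A*g0) * r.hq + (C^2*B^2*g1 +(1/2)*C^4*g1 -I*C^2*B^2*g2 -(1/2)*I*C^4*g2) * r.pp + (S^2*A^2*g1 -(1/2)*S^4*g1 -I*S^2*A^2*g2 +(1/2)*I*S^4*g2) * r.qq + (-2*C*S*A*B*g1 +2*I*C*S*A*B*g2) * r.pq + ((1/2)*g1 +B^2*g1 +(1/2)*A^2*g1 +(3/4)*S^2*g1 +(1/2)*C^2*g1 +q*S*B*g0 +p*S*B*g0 -p*C*A*g0 +(1/2)*h*g1 +h*B^2*g1 +(1/2)*h*S^2*g1 +(1/2)*h*C^2*g1 -(1/2)*I*g2 -I*B^2*g2 +(1/2)*I*A^2*g2 -(1/4)*I*S^2*g2 -(1/2)*I*C^2*g2 -(1/2)*I*h*g2 -I*h*B^2*g2 -(1/2)*I*h*S^2*g2 -(1/2)*I*h*C^2*g2) * r.cc + ((1/2)*g1 +B^2*g1 +(3/2)*S^2*g1 +2*q*S*B*g0 -h*S^2*g1 +(1/2)*I*g2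 +I*B^2*g2 -(1/2)*I*S^2*g2 +I*h*S^2*g2) * r.aa + (g1 +S^2*g1 -2*p*C*A*g0 +2*h*g1 +2*h*S^2*g1 -I*g2 -I*S^2*g2) * r.bb
  · linear_combination (A^2*B^2*g1 -(1/4)*C^2*S^2*g1 -2*q*S*A^2*B*g0 +q^2*S^2*A^2*g1 -2*p*C*A*B^2*g0 +2*p*q*C*S*A*B*g1 +p^2*C^2*B^2*g1 +2*h*C*S*A*B*g1 -2*h*q*C*S^2*A*g0 -2*h*p*C^2*S*B*g0 +h^2*C^2*S^2*g1 -I*A^2*B^2*g2 +(1/4)*I*C^2*S^2*g2 +I*q^2*S^2*A^2*g2 +2*I*p*q*C*S*A*B*g2 +I*p^2*C^2*B^2*g2 -2*I*h*C*S*A*B*g2 -I*h^2*C^2*S^2*g2) * hI + (3*S^2*g1 +S^2*B^2*g1 +3*S^4*g1 -C^2*A^2*g1 -C^2*S^2*g1 +2*q*S^3*B*g0 +q^2*S^4*g1 +2*p*C^3*A*g0 -p^2*C^4*g1 +I*S^2*g2 -I*S^2*B^2*g2 +I*S^4*g2 +I*C^2*A^2*g2 +I*C^2*S^2*g2 +I*q^2*S^4*g2 -I*p^2*C^4*g2) * r.hh + (-2*C*S^2*A*g0 +2*C^2*S*B*g0)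 * r.hp + (2*S*B*g0 +2*S^3*B*g0 +2*C*S^2*A*g0) * r.hq + (-C^2*B^2*g1 -(1/2)*C^4*g1 -I*C^2*B^2*g2 -(1/2)*I*C^4*g2) * r.pp + (-S^2*A^2*g1 +(1/2)*S^4*g1 -I*S^2*A^2*g2 +(1/2)*I*S^4*g2) * r.qq + (-2*C*S*A*B*g1 -2*I*C*S*A*B*g2) * r.pq + (-(1/2)*g1 -B^2*g1 -(1/2)*A^2*g1 -(3/4)*S^2*g1 -(1/2)*C^2*g1 +q*S*B*g0 +p*S*B*g0 +p*C*A*g0 -(1/2)*h*g1 -h*B^2*g1 -(1/2)*h*S^2*g1 -(1/2)*h*C^2*g1 -(1/2)*I*g2 -I*B^2*g2 +(1/2)*I*A^2*g2 -(1/4)*I*S^2*g2 -(1/2)*I*C^2*g2 -(1/2)*I*h*g2 -I*h*B^2*g2 -(1/2)*I*h*S^2*g2 -(1/2)*I*h*C^2*g2) * r.cc + (-(1/2)*g1 -B^2*g1 -(3/2)*S^2*g1 +2*q*S*B*g0 +h*S^2*g1 +(1/2)*I*g2 +I*B^2*g2 -(1/2)*I*S^2*g2 +I*h*S^2*g2) * r.aa + (-g1 -S^2*g1 +2*p*C*A*g0 -2*h*g1 -2*h*S^2*g1 -I*g2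 -I*S^2*g2) * r.bb
  · linear_combination (2*h*S*A*B^2*g2 +h*C^2*S*A*g2 -2*h*q^2*S^3*A*g2 +2*h*p*q*C^2*S*A*g2 -2*h^2*C^2*S*A*g2) * hI + (2*S^3*A*g2 +2*C^2*S*A*g2 +2*I*S^3*A*g1 +2*I*C^2*S*A*g1 +2*I*q*C*S^3*g0 -2*I*p*C^3*S*g0) * r.hh + (-2*q*C^2*S*A*g2 -I*C*S*g0 +2*I*C*S*B^2*g0 -2*I*C*S^3*g0 +I*C^3*S*g0 +2*I*q*C^2*S*A*g1) * r.hp + (2*q*S^3*A*g2 +I*C*S*g0 -2*I*C*S*A^2*g0 -I*C*S^3*g0 -2*I*q*S^3*A*g1) * r.hq + (-S^3*A*g2 -C^2*S*A*g2 +I*S^3*A*g1 +I*C^2*S*A*g1) * r.qq + (S^3*A*g2 -C^2*S*A*g2 -I*S^3*A*g1 +I*C^2*S*A*g1) * r.pq + (-h*S*A*g2 +2*I*S*A*g1 +(1/2)*I*q*C*S*g0 -(1/2)*I*p*C*S*g0 -I*h*S*A*g1) * r.cc + (I*q*C*S*g0 -I*p*C*S*g0) * r.aa + (-2*h*S*A*g2 +I*q*C*S*g0 +I*p*C*S*g0 -2*I*h*S*A*g1)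 * r.bb
  · linear_combination (-A^2*B^2*g0 +C*S*A*B*g0 -(1/4)*C^2*S^2*g0 +2*q*S*A^2*B*g1 -q*C*S^2*A*g1 -q^2*S^2*A^2*g0 +2*p*C*A*B^2*g1 -p*C^2*S*B*g1 -2*p*q*C*S*A*B*g0 -p^2*C^2*B^2*g0 -2*h*C*S*A*B*g0 +h*C^2*S^2*g0 +2*h*q*C*S^2*A*g1 +2*h*p*C^2*S*B*g1 -h^2*C^2*S^2*g0) * hI + (-3*S^2*g0 +S^2*B^2*g0 -3*S^4*g0 +2*C*S*A*B*g0 +C^2*A^2*g0 +C^2*S^2*g0 +2*q*S^3*B*g1 +2*q*C*S^2*A*g1 +q^2*S^4*g0 -2*p*C^2*S*B*g1 -2*p*C^3*A*g1 -2*p*q*C^2*S^2*g0 +p^2*C^4*g0) * r.hh + (2*C*S^2*A*g1 -2*C^2*S*B*g1) * r.hp + (-2*S*B*g1 -2*S^3*B*g1 -2*C*S^2*A*g1) * r.hq + (C^2*B^2*g0 +(1/2)*C^4*g0) * r.pp + (S^2*A^2*g0 +(1/2)*S^4*g0) * r.qq + (2*C*S*A*B*g0 -C^2*S^2*g0) * r.pq + ((1/2)*g0 +B^2*g0 +(1/2)*A^2*g0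 +(5/4)*S^2*g0 +(1/2)*C^2*g0 -q*S*B*g1 -p*S*B*g1 -p*C*A*g1 +(1/2)*h*g0 +h*B^2*g0 -(3/2)*h*S^2*g0 +(1/2)*h*C^2*g0) * r.cc + ((1/2)*g0 +B^2*g0 +(3/2)*S^2*g0 -2*q*S*B*g1 -h*S^2*g0) * r.aa + (g0 +2*S^2*g0 -2*p*C*A*g1 +2*h*g0 +2*h*S^2*g0) * r.bb
  · linear_combination (2*h*p*C*S*B^2*g2 +h*p*C^3*S*g2 -2*h^2*q*C*S^3*g2) * hI + (2*q*C*S^3*g2 -2*I*C*S^2*B*g0 -2*I*C^2*S*A*g0 +2*I*p*C^3*S*g1) * r.hh + (-2*C*S*B^2*g2 +C*S^3*g2 -C^3*S*g2 +I*C*S*g1 +I*C*S^3*g1 -2*I*q*C*S^2*B*g0 -2*I*q*C^2*S*A*g0) * r.hp + (C*S^3*g2 +4*I*S^2*A*B*g1 -I*C*S*g1 +2*I*C*S*A^2*g1 -2*I*C*S^3*g1) * r.hq + (-I*C*S^2*B*g0 -I*C^2*S*A*g0) * r.qq + (-I*C*S^2*B*g0 -I*C^2*S*A*g0) * r.pq + (-(1/2)*q*C*S*g2 -(1/2)*p*C*S*g2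 -2*I*S*A*g0 +I*p*C*S*g1) * r.cc + (-I*q*C*S*g1 +I*p*C*S*g1) * r.aa + (-q*C*S*g2 -p*C*S*g2) * r.bb
  · linear_combination (2*h*S*A*B^2*g2 +h*C^2*S*A*g2 -2*h*q^2*S^3*A*g2 -2*h*p*q*C^2*S*A*g2 +2*h^2*C^2*S*A*g2) * hI + (2*S^3*A*g2 -2*C^2*S*A*g2 +2*I*S^3*A*g1 -2*I*C^2*S*A*g1 +2*I*q*C*S^3*g0 +2*I*p*C^3*S*g0) * r.hh + (2*q*C^2*S*A*g2 +I*C*S*g0 +2*I*C*S*B^2*g0 +I*C^3*S*g0 -2*I*q*C^2*S*A*g1) * r.hp + (2*q*S^3*A*g2 -I*C*S*g0 +2*I*C*S*A^2*g0 -I*C*S^3*g0 -2*I*q*S^3*A*g1) * r.hq + (-S^3*A*g2 +C^2*S*A*g2 +I*S^3*A*g1 -I*C^2*S*A*g1) * r.qq + (S^3*A*g2 +C^2*S*A*g2 -I*S^3*A*g1 -I*C^2*S*A*g1) * r.pq + (-h*S*A*g2 -2*I*S*A*g1 +(1/2)*I*q*C*S*g0 +(3/2)*I*p*C*S*g0 -I*h*S*A*g1) * r.cc + (-I*q*C*S*g0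 +I*p*C*S*g0) * r.aa + (-2*h*S*A*g2 +I*q*C*S*g0 +I*p*C*S*g0 -2*I*h*S*A*g1) * r.bb
  · linear_combination (A^2*B^2*g1 -(1/4)*C^2*S^2*g1 +2*q*S*A^2*B*g0 +q^2*S^2*A^2*g1 -2*p*C*A*B^2*g0 -2*p*q*C*S*A*B*g1 +p^2*C^2*B^2*g1 -2*h*C*S*A*B*g1 -2*h*q*C*S^2*A*g0 +2*h*p*C^2*S*B*g0 +h^2*C^2*S^2*g1 -I*A^2*B^2*g2 +(1/4)*I*C^2*S^2*g2 +I*q^2*S^2*A^2*g2 -2*I*p*q*C*S*A*B*g2 +I*p^2*C^2*B^2*g2 +2*I*h*C*S*A*B*g2 -I*h^2*C^2*S^2*g2) * hI + (3*S^2*g1 +S^2*B^2*g1 +3*S^4*g1 -C^2*A^2*g1 -C^2*S^2*g1 -2*q*S^3*B*g0 +q^2*S^4*g1 +2*p*C^3*A*g0 -p^2*C^4*g1 +I*S^2*g2 -I*S^2*B^2*g2 +I*S^4*g2 +I*C^2*A^2*g2 +I*C^2*S^2*g2 +I*q^2*S^4*g2 -I*p^2*C^4*g2) * r.hh + (-2*C*S^2*A*g0 -2*C^2*S*B*g0) * r.hp + (-2*S*B*g0 -2*S^3*B*g0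 +2*C*S^2*A*g0) * r.hq + (-C^2*B^2*g1 -(1/2)*C^4*g1 -I*C^2*B^2*g2 -(1/2)*I*C^4*g2) * r.pp + (-S^2*A^2*g1 +(1/2)*S^4*g1 -I*S^2*A^2*g2 +(1/2)*I*S^4*g2) * r.qq + (2*C*S*A*B*g1 +2*I*C*S*A*B*g2) * r.pq + (-(1/2)*g1 -B^2*g1 -(1/2)*A^2*g1 -(3/4)*S^2*g1 -(1/2)*C^2*g1 -q*S*B*g0 -p*S*B*g0 +p*C*A*g0 -(1/2)*h*g1 -h*B^2*g1 -(1/2)*h*S^2*g1 -(1/2)*h*C^2*g1 -(1/2)*I*g2 -I*B^2*g2 +(1/2)*I*A^2*g2 -(1/4)*I*S^2*g2 -(1/2)*I*C^2*g2 -(1/2)*I*h*g2 -I*h*B^2*g2 -(1/2)*I*h*S^2*g2 -(1/2)*I*h*C^2*g2) * r.cc + (-(1/2)*g1 -B^2*g1 -(3/2)*S^2*g1 -2*q*S*B*g0 +h*S^2*g1 +(1/2)*I*g2 +I*B^2*g2 -(1/2)*I*S^2*g2 +I*h*S^2*g2) * r.aa + (-g1 -S^2*g1 +2*p*C*A*g0 -2*h*g1 -2*h*S^2*g1 -I*g2 -I*S^2*g2) * r.bb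
  · linear_combination (2*h*p*C*S*B^2*g2 +h*p*C^3*S*g2 -2*h^2*q*C*S^3*g2) * hI + (2*q*C*S^3*g2 +2*I*C*S^2*B*g0 +2*I*C^2*S*A*g0 -2*I*p*C^3*S*g1) * r.hh + (-2*C*S*B^2*g2 +C*S^3*g2 -C^3*S*g2 -I*C*S*g1 -I*C*S^3*g1 +2*I*q*C*S^2*B*g0 +2*I*q*C^2*S*A*g0) * r.hp + (C*S^3*g2 -4*I*S^2*A*B*g1 +I*C*S*g1 -2*I*C*S*A^2*g1 +2*I*C*S^3*g1) * r.hq + (I*C*S^2*B*g0 +I*C^2*S*A*g0) * r.qq + (I*C*S^2*B*g0 +I*C^2*S*A*g0) * r.pq + (-(1/2)*q*C*S*g2 -(1/2)*p*C*S*g2 +2*I*S*A*g0 -I*p*C*S*g1) * r.cc + (I*q*C*S*g1 -I*p*C*S*g1) * r.aa + (-q*C*S*g2 -p*C*S*g2) * r.bb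
  · linear_combination (-A^2*B^2*g0 +C*S*A*B*g0 -(1/4)*C^2*S^2*g0 -2*q*S*A^2*B*g1 +q*C*S^2*A*g1 -q^2*S^2*A^2*g0 +2*p*C*A*B^2*g1 -p*C^2*S*B*g1 +2*p*q*C*S*A*B*g0 -p^2*C^2*B^2*g0 +2*h*C*S*A*B*g0 -h*C^2*S^2*g0 +2*h*q*C*S^2*A*g1 -2*h*p*C^2*S*B*g1 -h^2*C^2*S^2*g0) * hI + (-3*S^2*g0 +S^2*B^2*g0 -3*S^4*g0 +2*C*S*A*B*g0 +C^2*A^2*g0 +C^2*S^2*g0 -2*q*S^3*B*g1 -2*q*C*S^2*A*g1 +q^2*S^4*g0 -2*p*C^2*S*B*g1 -2*p*C^3*A*g1 +2*p*q*C^2*S^2*g0 +p^2*C^4*g0) * r.hh + (2*C*S^2*A*g1 +2*C^2*S*B*g1) * r.hp + (2*S*B*g1 +2*S^3*B*g1 -2*C*S^2*A*g1) * r.hq + (C^2*B^2*g0 +(1/2)*C^4*g0) * r.pp + (S^2*A^2*g0 +(1/2)*S^4*g0) * r.qq + (-2*C*S*A*B*g0 +C^2*S^2*g0) * r.pq + ((1/2)*g0 +B^2*g0 +(1/2)*A^2*g0 +(5/4)*S^2*g0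 +(1/2)*C^2*g0 +q*S*B*g1 +p*S*B*g1 -p*C*A*g1 +(1/2)*h*g0 +h*B^2*g0 +(5/2)*h*S^2*g0 +(1/2)*h*C^2*g0) * r.cc + ((1/2)*g0 +B^2*g0 +(3/2)*S^2*g0 +2*q*S*B*g1 -h*S^2*g0) * r.aa + (g0 +2*S^2*g0 -2*p*C*A*g1 +2*h*g0 +2*h*S^2*g0) * r.bb

theorem id_ab {h p q C S A B : ℂ} (r : Rel h p q C S A B) (g0 g1 g2 : ℂ) :
    fa1 p q C S g2 ^ 2 + fa2 p q C S A B g0 g1 ^ 2 + fa3 h p q C S A B g0 g1 ^ 2 =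
      fb1 p q C S g2 ^ 2 + fb2 p q C S A B g0 g1 ^ 2 + fb3 h p q C S A B g0 g1 ^ 2 := by
  have hI : I * I = -1 := Complex.I_mul_I
  simp only [fa1, fa2, fa3, fb1, fb2, fb3]
  linear_combination (32*C*S^3*A*B*g0^2 +32*C*S^5*A*B*g0^2) * r.hh + (-16*S^3*B*g0*g1 -32*S^5*B*g0*g1 -16*S^7*B*g0*g1) * r.hp + (-32*C^2*S^3*A^2*B*g0*g1) * r.hq + (-8*C*S^3*A*B*g1^2 -8*C*S^5*A*B*g1^2) * r.pp + (8*C*S^3*A*B*g1^2 +8*C*S^5*A*B*g1^2) * r.qq + (16*C*S^3*A*B*g1^2 +16*C*S^5*A*B*g1^2) * r.pq + (8*q*S^3*B*g0*g1 +16*q*S^3*A^2*B*g0*g1 +8*q*S^5*B*g0*g1 +8*p*S^3*B*g0*g1 -16*p*S^3*A^2*B*g0*g1 +8*p*S^5*B*g0*g1) * r.cc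

theorem id_c {h p q C S A B : ℂ} (r : Rel h p q C S A B) (g0 g1 g2 : ℂ) :
    fc1 h p q C S A g0 g1 g2 * (fa1 p q C S g2 + fb1 p q C S g2) + fc2 p q C S A g0 g1 * (fa2 p q C S A B g0 g1 + fb2 p q C S A B g0 g1) +
      fc3 h p q C S A B g0 g1 * (fa3 h p q C S A B g0 g1 + fb3 h p q C S A B g0 g1) = 0 := by
  have hI : I * I = -1 := Complex.I_mul_I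
  simp only [fa1, fa2, fa3, fb1, fb2, fb3, fc1, fc2, fc3]
  linear_combination (-16*C*S^3*A*B*g0*g1 -16*C*S^5*A*B*g0*g1) * r.hh + (8*S^3*B*g0^2 +16*S^5*B*g0^2 +8*S^7*B*g0^2) * r.hp + (8*S^5*B*g0^2 +8*S^7*B*g0^2 +16*C^2*S^3*A^2*B*g1^2) * r.hq + (4*C*S^3*A*B*g0*g1 +8*C*S^5*A*B*g0*g1) * r.pp + (-4*C*S^3*A*B*g0*g1 -8*C*S^5*A*B*g0*g1) * r.qq + (-8*C*S^3*A*B*g0*g1 -16*C*S^5*A*B*g0*g1) * r.pq + (-4*q*S^3*B*g0^2 -8*q*S^3*A^2*B*g1^2 -4*p*S^3*B*g0^2 +8*p*S^3*A^2*B*g1^2 -8*p*S^5*B*g0^2) * r.cc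

theorem id_d {h p q C S A B : ℂ} (r : Rel h p q C S A B) (g0 g1 g2 : ℂ) :
    fd1 h p q C S A g0 g1 g2 * (fa1 p q C S g2 + fb1 p q C S g2) + fd2 p q C S A g0 g1 * (fa2 p q C S A B g0 g1 + fb2 p q C S A B g0 g1) +
      fd3 h p q C S A B g0 g1 * (fa3 h p q C S A B g0 g1 + fb3 h p q C S A B g0 g1) = 0 := by
  have hI : I * I = -1 := Complex.I_mul_I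
  simp only [fa1, fa2, fa3, fb1, fb2, fb3, fd1, fd2, fd3]
  linear_combination (-16*C*S^3*A*B*g0*g1 -16*C*S^5*A*B*g0*g1) * r.hh + (8*S^3*B*g0^2 +16*S^5*B*g0^2 +8*S^7*B*g0^2) * r.hp + (8*S^5*B*g0^2 +8*S^7*B*g0^2 +16*C^2*S^3*A^2*B*g1^2) * r.hq + (4*C*S^3*A*B*g0*g1 +8*C*S^5*A*B*g0*g1) * r.pp + (-4*C*S^3*A*B*g0*g1 -8*C*S^5*A*B*g0*g1) * r.qq + (-8*C*S^3*A*B*g0*g1 -16*C*S^5*A*B*g0*g1) * r.pq + (-4*q*S^3*B*g0^2 -8*q*S^3*A^2*B*g1^2 -4*p*S^3*B*g0^2 +8*p*S^3*A^2*B*g1^2 -8*p*S^5*B*g0^2) * r.cc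

end Pool.Agent.AnB
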