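import Pool.Agent.AnB.NS

/-!
Values of the nonsingularity expression on the five edges (up to complex conjugation).
-/

namespace Pool.Agent.AnB

open Pool.Agent.Hhelper63.AnT

open Complex (I)

/-- the nonsingularity expression -/
noncomputable def VAL (h p q C S A B g0 g1 g2 k0 k1 k2 : ℂ) : ℂ :=
  (g0 ^ 2 - (g1 + I * g2) * (g1 - I * g2) + (k0 ^ 2 - (k1 + I * k2) * (k1 - I * k2)) +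
    (2 * k0 * (fa0 h p q C S A g0 g1) - ((k1 - I * k2) * (fc0 h p q C S A g0 g1 g2) + (k1 + I * k2) * (fd0 h p q C S A g0 g1 g2)))) ^ 2 -
  omW k0 (k1 + I * k2) (k1 - I * k2) (fa1 p q C S g2) (fa2 p q C S A B g0 g1) (fa3 h p q C S A B g0 g1)
    (fb1 p q C S g2) (fb2 p q C S A B g0 g1) (fb3 h p q C S A B g0 g1)
    (fc1 h p q C S A g0 g1 g2) (fc2 p q C S A g0 g1) (fc3 h p q C S A B g0 g1)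
    (fd1 h p q C S A g0 g1 g2) (fd2 p q C S A g0 g1) (fd3 h p q C S A B g0 g1)

theorem ns_gen {h p q C S A B : ℂ} (r : Rel h p q C S A B) {g0 g1 g2 k0 k1 k2 : ℂ}
    (hx : VAL h p q C S A B g0 g1 g2 k0 k1 k2 ≠ 0) {v : Fin 4 → ℂ}
    (hv : (R2 h p q C S A B * mkY g0 (g1 + I * g2) (g1 - I * g2) * R2 h p q C S A B +
      mkY k0 (k1 + I * k2) (k1 - I * k2)).mulVec v = 0) : v = 0 := by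
  have hP : (R2 h p q C S A B * mkY g0 (g1 + I * g2) (g1 - I * g2) * R2 h p q C S A B) *
      (R2 h p q C S A B * mkY g0 (g1 + I * g2) (g1 - I * g2) * R2 h p q C S A B) =
      (g0 ^ 2 - (g1 + I * g2) * (g1 - I * g2)) • 1 := by
    have e : ∀ X Y : M4, (X * Y * X) * (X * Y * X) = X * Y * (X * X) * Y * X := by
      intro X Y
      noncomm_ring
    rw [e, R2_sq r, mul_one, mul_assoc (R2 h p q C S A B), mkY_sq, Matrix.mul_smul, mul_one,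
      Matrix.smul_mul, R2_sq r]
  rw [Pg_eq r g0 g1 g2] at hP hv
  exact ker_sum hP (mkY_sq _ _ _) (anti_eq _ _ _ _ _ _ _ _ _ _ _ _ _ _ _ _ _ _)
    (om_sq (id_ab r g0 g1 g2) (id_c r g0 g1 g2) (id_d r g0 g1 g2)) hx hv

theorem val_E1 {h p q C S A B : ℂ} (r : Rel h p q C S A B) {e : ℂ} (he : e * e = 1) :
    VAL h p q C S A B (3) (-5*h) (5*h*e) (3) (5) (0) =
      -802 -3908*S^2 -1408*S^4 +840*q*C*A +7680*q*C*S^2*A +1800*h +1100*h*S^2 -3900*h*S^4 := by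
  have hI : I * I = -1 := Complex.I_mul_I
  simp only [VAL, omW, fa0, fa1, fa2, fa3, fb1, fb2, fb3, fc0, fc1, fc2, fc3, fd0, fd1, fd2, fd3]
  linear_combination (-1250*h^2*e^2 -1800*h^2*S^2*e^2 -1800*h^2*S^4*e^2 -3000*h^2*q*C*S^2*A*e^2 +3000*h^2*p*C*A*e^2 +3000*h^2*p*C*S^2*A*e^2 +700*h^3*e^2 -1100*h^3*S^2*e^2 +3000*h^3*q*C*S^2*A*e^2 -3000*h^3*p*C*A*e^2 -3000*h^3*p*C*S^2*A*e^2 +3750*h^4*e^2 -625*h^4*e^4 +10000*h^4*S^2*e^2 +5000*h^4*S^4*e^2 +625*I^2*h^4*e^4) * hI + (-(5083/2) -625*e^2 +(625/2)*e^4 -11816*S^2 -3200*S^2*e^2 +14400*S^2*B^2 -10000*S^2*A^2 -5000*S^2*A^2*e^2 -21120*S^4 -700*S^4*e^2 +22400*S^4*B^2 -20000*S^4*A^2 -31408*S^6 +8000*S^6*B^2 -10000*S^6*A^2 -17104*S^8 -5184*C*S^3*A*B -5184*C*S^5*A*B -25184*C^2*S^2*A^2*B^2 +12000*q*S^3*A^2*B +12000*q*S^5*A^2*B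 -1320*q*C*S^2*A +3000*q*C*S^2*A*e^2 -6960*q*C*S^4*A -24000*q*C*S^4*A*B^2 +1680*q*C*S^6*A -8640*q*C^2*S^3*A^2*B +6400*q^2*S^4*A^2*B^2 -3600*q^2*C*S^3*A*B -3600*q^2*C*S^5*A*B -900*q^2*C^2*S^2 -900*q^2*C^2*S^2*e^2 -1800*q^2*C^2*S^4 +10000*q^2*C^2*S^4*A^2 -900*q^2*C^2*S^6 -4320*p*S^3*B -12000*p*S^3*A^2*B -8640*p*S^5*B -12000*p*S^5*A^2*B -4320*p*S^7*B +7320*p*C*A -3000*p*C*A*e^2 +39960*p*C*S^2*A -3000*p*C*S^2*A*e^2 -32640*p*C*S^2*A*B^2 +50640*p*C*S^4*A -32640*p*C*S^4*A*B^2 +18000*p*C*S^6*A -12800*p*q*S^4*A^2*B^2 -7200*p*q*C*S^3*A*B -7200*p*q*C*S^5*A*B -1800*p*q*C^2*S^2 -1800*p*q*C^2*S^2*e^2 -7200*p*q*C^2*S^2*A^2 -3600*p*q*C^2*S^4 -7200*p*q*C^2*S^4*A^2 -1800*p*q*C^2*S^6 -3600*p^2*S^2*B^2 -7200*p^2*S^4*B^2 +6400*p^2*S^4*A^2*B^2 -3600*p^2*S^6*B^2 +3600*p^2*C*S^3*A*B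 +3600*p^2*C*S^5*A*B +3600*p^2*C^2*A^2 -900*p^2*C^2*S^2 -900*p^2*C^2*S^2*e^2 +7200*p^2*C^2*S^2*A^2 -1800*p^2*C^2*S^4 +3600*p^2*C^2*S^4*A^2 -900*p^2*C^2*S^6 +2100*h -700*h*e^2 +2300*h*S^2 +1100*h*S^2*e^2 -6000*h*S^4 -4400*h*S^6 +14400*h*C*S^3*A*B +14400*h*C*S^5*A*B +28800*h*C^2*S^2*A^2*B^2 +9000*h*q*C*S^2*A +3000*h*q*C*S^2*A*e^2 +24000*h*q*C*S^4*A +12000*h*q*C*S^6*A +24000*h*q*C^2*S^3*A^2*B -9000*h*p*C*A +3000*h*p*C*A*e^2 -33000*h*p*C*S^2*A +9000*h*p*C*S^2*A*e^2 +24000*h*p*C*S^2*A*B^2 -36000*h*p*C*S^4*A +24000*h*p*C*S^4*A*B^2 -12000*h*p*C*S^6*A +5625*h^2 -3750*h^2*e^2 +625*h^2*e^4 +30000*h^2*S^2 -10000*h^2*S^2*e^2 -10000*h^2*S^2*A^2*e^2 +55000*h^2*S^4 -5000*h^2*S^4*e^2 +40000*h^2*S^6 +10000*h^2*S^8 -40000*h^2*C^2*S^2*A^2*B^2) * r.hh + (4320*S^3*B +4320*S^3*A^2*B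 +8640*S^5*B +4320*S^5*A^2*B +4320*S^7*B +180*C*A +1500*C*A*e^2 -18300*C*S^2*A +4500*C*S^2*A*e^2 +20640*C*S^2*A*B^2 -28320*C*S^4*A +28320*C*S^4*A*B^2 -14160*C*S^6*A +2160*C^2*S^3*B +2160*C^2*S^5*B +7200*q*S^4*B^2 +7200*q*S^6*B^2 +7200*q*C*S^3*A*B +14400*q*C*S^5*A*B +3600*q*C^2*S^2 +14400*q*C^2*S^2*A^2 +7200*q*C^2*S^4 +14400*q*C^2*S^4*A^2 +3600*q*C^2*S^6 +7200*p*S^2*B^2 +14400*p*S^4*B^2 +7200*p*S^6*B^2 -3600*p*C*S^3*A*B -7200*p*C*S^5*A*B -7200*p*C^2*A^2 +1800*p*C^2*S^2 -14400*p*C^2*S^2*A^2 +5400*p*C^2*S^4 -7200*p*C^2*S^4*A^2 +3600*p*C^2*S^6) * r.hp + (-4320*S^3*A^2*B +4320*S^5*B -4320*S^5*A^2*B +4320*S^7*B -8340*C*S^2*A +1500*C*S^2*A*e^2 -10320*C*S^4*A +960*C*S^4*A*B^2 -2160*C*S^6*A +2160*C^2*S^3*B +12000*C^2*S^3*A^2*B +2160*C^2*S^5*B +3600*q*C*S^3*A*B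 +7200*q*C*S^5*A*B +1800*q*C^2*S^2 +1800*q*C^2*S^4 -7200*q*C^2*S^4*A^2) * r.hq + (-1800*S^2*B^2 -3600*S^4*B^2 +3200*S^4*A^2*B^2 -1800*S^6*B^2 -1800*C*S^5*A*B +1800*C^2*A^2 -450*C^2*S^2 -450*C^2*S^2*e^2 +3600*C^2*S^2*A^2 -1800*C^2*S^4 +1800*C^2*S^4*A^2 -2250*C^2*S^6) * r.pp + (3600*S^4*B^2 +3200*S^4*A^2*B^2 +1800*C*S^5*A*B -450*C^2*S^2 -450*C^2*S^2*e^2 +7200*C^2*S^2*A^2 +1800*C^2*S^4 +19400*C^2*S^4*A^2 +1350*C^2*S^6) * r.qq + (3600*S^2*B^2 +3600*S^4*B^2 -6400*S^4*A^2*B^2 +3600*C*S^5*A*B -3600*C^2*A^2 +900*C^2*S^2 -900*C^2*S^2*e^2 -10800*C^2*S^2*A^2 +1800*C^2*S^4 -10800*C^2*S^4*A^2 +2700*C^2*S^6) * r.pq + (1800*A^2 -900*S^2 -900*S^2*e^2 +10800*S^2*A^2 -12592*S^2*A^2*B^2 +2304*S^4*B^2 +21200*S^4*A^2 -900*S^6 -2160*q*S^3*B -10320*q*S^3*A^2*B +6000*p*S^3*A^2*B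 -2160*p*S^5*B -1800*h*A^2 +900*h*S^2 -900*h*S^2*e^2 -14400*h*S^2*A^2 +14400*h*S^2*A^2*B^2 -1800*h*S^4 -28400*h*S^4*A^2 -900*h*S^6) * r.cc + (1800 +6304*S^2 -2500*S^2*e^2 -12592*S^2*B^2 +19408*S^4 -6192*S^4*B^2 +14904*S^6 -1800*h -9000*h*S^2 +14400*h*S^2*B^2 -28400*h*S^4 +8000*h*S^4*B^2 -21200*h*S^6) * r.aa + (5400*S^2 +7208*S^4 +1408*S^6 +10320*q*C*S^2*A +1680*q*C*S^4*A -6000*p*C*S^2*A -1680*p*C*S^4*A -10792*h*S^2 -15184*h*S^4 -3992*h*S^6) * r.bb + (-(625/4) +(625/4)*e^2 -2500*S^2 -2500*S^4 +750*q*C*A +3000*q*C*S^2*A -750*p*C*A +1500*p*C*S^2*A -350*h -2850*h*S^2 -3400*h*S^4) * he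

theorem val_E2 {h p q C S A B : ℂ} (r : Rel h p q C S A B) :
    VAL h p q C S A B (3) (-5) (0) (3) (5) (0) =
      2048 +8192*S^2 +10692*S^4 -6400*h*S^2 -12800*h*S^4 := by
  have hI : I * I = -1 := Complex.I_mul_I
  simp only [VAL, omW, fa0, fa1, fa2, fa3, fb1, fb2, fb3, fc0, fc1, fc2, fc3, fd0, fd1, fd2, fd3]
  linear_combination (4096 +16384*S^2 +33280*S^4 -12800*S^4*B^2 +20992*S^6 -12800*S^6*B^2 +4096*S^8 +9216*C*S^3*A*B +9216*C*S^5*A*B -16384*C^2*S^2*A^2*B^2) * r.hh + (4320*S^5*B +4320*S^7*B +7680*C*S^4*A -15360*C*S^4*A*B^2 +7680*C*S^6*A +15360*C^2*S^3*A^2*B) * r.hq + (6400*S^4*A^2*B^2 -3600*C*S^5*A*B -900*C^2*S^6) * r.pp + (6400*S^4*A^2*B^2 -3600*S^6*B^2 +3600*C*S^5*A*B +6400*C^2*S^4*A^2 -900*C^2*S^6) * r.qq + (-12800*S^4*A^2*B^2 +7200*C*S^5*A*B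 +1800*C^2*S^6) * r.pq + (-8192*S^2*A^2*B^2 +2304*S^4*B^2 +6400*S^4*A^2 -1800*S^6 -7680*q*S^3*A^2*B +2160*q*S^5*B +7680*p*S^3*A^2*B -2160*p*S^5*B -6400*h*S^4*A^2 +1800*h*S^6) * r.cc + (-4096*S^2 -8192*S^2*B^2 -1792*S^4 +4608*S^4*B^2 +2304*S^6 -6400*h*S^4 -12800*h*S^4*B^2 -6400*h*S^6) * r.aa + (-8192*S^4 -5392*S^6 -8192*h*S^2 -3584*h*S^4 +1808*h*S^6) * r.bb

theorem val_E3 {h p q C S A B : ℂ} (r : Rel h p q C S A B) {e : ℂ} (he : e * e = 1) :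
    VAL h p q C S A B (3) (0) (-5*e) (0) (3) (-3*e) =
      664 -240*S^2 -1296*S^4 +288*q*C*S^2*A -288*p*C*A -288*p*C*S^2*A +1296*h +2088*h*S^2 +2088*h*S^4 := by
  have hI : I * I = -1 := Complex.I_mul_I
  simp only [VAL, omW, fa0, fa1, fa2, fa3, fb1, fb2, fb3, fc0, fc1, fc2, fc3, fd0, fd1, fd2, fd3]
  linear_combination (-16*e^4 +240*S^2*e^4 -900*S^4*e^4 -1296*C^2*S^4*B^2*e^2 -288*q*C*S^2*A*e^2 +2160*q*C*S^4*A*e^2 +324*q^2*C^2*S^2*e^2 +1296*q^2*C^2*S^4*e^2 +1296*q^2*C^2*S^6*e^2 +288*p*C*A*e^2 -1872*p*C*S^2*A*e^2 -2160*p*C*S^4*A*e^2 +648*p*q*C^2*S^2*e^2 +1296*p*q*C^2*S^4*e^2 +324*p^2*C^2*S^2*e^2 +2160*h*q*C*S^2*A*e^2 +4320*h*q*C*S^4*A*e^2 +2160*h*p*C*S^2*A*e^2 -1296*h^2*S^4*e^2 -2592*h^2*S^6*e^2 -1296*h^2*S^8*e^2 +16*I^2*e^4 -240*I^2*S^2*e^4 +900*I^2*S^4*e^4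 -324*I^2*q^2*C^2*S^2*e^2 -1296*I^2*q^2*C^2*S^4*e^2 -1296*I^2*q^2*C^2*S^6*e^2 -648*I^2*p*q*C^2*S^2*e^2 -1296*I^2*p*q*C^2*S^4*e^2 -324*I^2*p^2*C^2*S^2*e^2) * hI + (1296 +2592*S^2 -3600*S^2*A^2*e^2 +1296*S^4 +1296*S^4*e^2 +2592*S^6 +2592*S^6*e^2 +1296*S^8 +1296*S^8*e^2) * r.hh + (-2160*C*S^2*A*e^2) * r.hp + (-2160*C*S^2*A*e^2 -4320*C*S^4*A*e^2) * r.hq + (-1296*S^2*B^2 -2592*S^4*B^2 -1296*S^6*B^2 +1296*C^2*A^2 -324*C^2*S^2 -324*C^2*S^2*e^2 +2592*C^2*S^2*A^2 -1296*C^2*S^4 +1296*C^2*S^4*A^2 -1296*C^2*S^6) * r.pp + (-1296*S^6*B^2 -324*C^2*S^2 -324*C^2*S^2*e^2 -1296*C^2*S^4*e^2 +1296*C^2*S^4*A^2 -1296*C^2*S^6*e^2) * r.qq + (-2592*S^4*B^2 -2592*S^6*B^2 -648*C^2*S^2 -648*C^2*S^2*e^2 -2592*C^2*S^2*A^2 -1296*C^2*S^4 -1296*C^2*S^4*e^2 -2592*C^2*S^4*A^2) * r.pq +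 (1296*A^2 -648*S^2 -648*S^2*e^2 +2592*S^2*A^2 -1296*S^4 -1296*S^4*e^2 +1296*S^4*B^2 +1296*S^4*B^2*e^2 +2592*S^4*A^2 -1296*S^6 -1296*S^6*e^2 +1296*h*A^2 -648*h*S^2 -648*h*S^2*e^2 -2592*h*S^4 -2592*h*S^4*A^2 -1296*h*S^6 +1296*h*S^6*e^2) * r.cc + (1296 +3888*S^2 -1800*S^2*e^2 +5184*S^4 +2592*S^6 +1296*h +1296*h*S^2 -2592*h*S^4 -2592*h*S^6) * r.aa + (-1296*S^2 -1296*S^4 +1296*S^4*e^2 -1296*S^6 +1296*S^6*e^2 -1296*h*S^2 -5184*h*S^4 -2592*h*S^6) * r.bb + (16 +16*e^2 -888*S^2 -240*S^2*e^2 -648*S^4 +900*S^4*e^2 +288*q*C*S^2*A -288*p*C*A -288*p*C*S^2*A -2448*h*S^2 -2448*h*S^4) * he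

theorem val_E4 {h p q C S A B : ℂ} (r : Rel h p q C S A B) :
    VAL h p q C S A B (0) (-6*h) (0) (3) (5) (0) =
      3772 +11136*S^2 +10824*S^4 -1872*q*C*A +576*q*C*S^2*A -6192*p*C*A -8640*p*C*S^2*A +5712*h +12192*h*S^2 +1872*h*S^4 := by
  have hI : I * I = -1 := Complex.I_mul_I
  simp only [VAL, omW, fa0, fa1, fa2, fa3, fb1, fb2, fb3, fc0, fc1, fc2, fc3, fd0, fd1, fd2, fd3]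
  linear_combination (7032 +24864*S^2 -14400*S^2*A^2 +48432*S^4 -9216*S^4*B^2 -28800*S^4*A^2 +33984*S^6 -9216*S^6*B^2 -14400*S^6*A^2 +9792*S^8 -28800*C^2*S^2*A^2*B^2 +17280*q*S^3*A^2*B +17280*q*S^5*A^2*B +17280*q*C*S^2*A +25920*q*C*S^4*A +8640*q*C*S^6*A +9216*q^2*S^4*A^2*B^2 -5184*q^2*C*S^3*A*B -5184*q^2*C*S^5*A*B -1296*q^2*C^2*S^2 -2592*q^2*C^2*S^4 +14400*q^2*C^2*S^4*A^2 -1296*q^2*C^2*S^6 -17280*p*S^3*A^2*B -17280*p*S^5*A^2*B -8640*p*C*A -8640*p*C*S^2*A +8640*p*C*S^4*A +8640*p*C*S^6*A -18432*p*q*S^4*A^2*B^2 -10368*p*q*C*S^3*A*B -10368*p*q*C*S^5*A*B -2592*p*q*C^2*S^2 -10368*p*q*C^2*S^2*A^2 -5184*p*q*C^2*S^4 -10368*p*q*C^2*S^4*A^2 -2592*p*q*C^2*S^6 -5184*p^2*S^2*B^2 -10368*p^2*S^4*B^2 +9216*p^2*S^4*A^2*B^2 -5184*p^2*S^6*B^2 +5184*p^2*C*S^3*A*B +5184*p^2*C*S^5*A*B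 +5184*p^2*C^2*A^2 -1296*p^2*C^2*S^2 +10368*p^2*C^2*S^2*A^2 -2592*p^2*C^2*S^4 +5184*p^2*C^2*S^4*A^2 -1296*p^2*C^2*S^6 +10080*h +38880*h*S^2 +43200*h*S^4 +14400*h*S^6 +12096*h*q*C*S^2*A +34560*h*q*C*S^4*A +17280*h*q*C*S^6*A +34560*h*q*C^2*S^3*A^2*B -12096*h*p*C*A -46656*h*p*C*S^2*A +34560*h*p*C*S^2*A*B^2 -51840*h*p*C*S^4*A +34560*h*p*C*S^4*A*B^2 -17280*h*p*C*S^6*A +7056*h^2 +40320*h^2*S^2 +77760*h^2*S^4 +57600*h^2*S^6 +14400*h^2*S^8 -57600*h^2*C^2*S^2*A^2*B^2) * r.hh + (-3744*C*A -21024*C*S^2*A +17280*C*S^2*A*B^2 -34560*C*S^4*A +17280*C*S^4*A*B^2 -17280*C*S^6*A) * r.hp + (3744*C*S^2*A +8640*C*S^4*A +17280*C^2*S^3*A^2*B) * r.hq + (-2592*S^2*B^2 -5184*S^4*B^2 +4608*S^4*A^2*B^2 -2592*S^6*B^2 +2592*C*S^3*A*B +2592*C*S^5*A*B +2592*C^2*A^2 -648*C^2*S^2 +5184*C^2*S^2*A^2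 -1296*C^2*S^4 +2592*C^2*S^4*A^2 -648*C^2*S^6) * r.pp + (4608*S^4*A^2*B^2 -2592*C*S^3*A*B -2592*C*S^5*A*B -648*C^2*S^2 -1296*C^2*S^4 +7200*C^2*S^4*A^2 -648*C^2*S^6) * r.qq + (-9216*S^4*A^2*B^2 -5184*C*S^3*A*B -5184*C*S^5*A*B -1296*C^2*S^2 -5184*C^2*S^2*A^2 -2592*C^2*S^4 -5184*C^2*S^4*A^2 -1296*C^2*S^6) * r.pq + (2592*A^2 -1296*S^2 +5184*S^2*A^2 -14400*S^2*A^2*B^2 -2592*S^4 +9792*S^4*A^2 -1296*S^6 -8640*q*S^3*A^2*B +8640*p*S^3*A^2*B +2592*h*A^2 -1296*h*S^2 -2592*h*S^4 -9792*h*S^4*A^2 -1296*h*S^6) * r.cc + (2592 +576*S^2 -14400*S^2*B^2 +576*S^4 -5184*S^4*B^2 +2592*S^6 +2592*h +2592*h*S^2 -9792*h*S^4 -9216*h*S^4*B^2 -9792*h*S^6) * r.aa + (-2592*S^2 -16992*S^4 -9792*S^6 +8640*q*C*S^2*A +8640*q*C*S^4*A +8640*p*C*S^2*A +8640*p*C*S^4*A -16992*h*S^2 -24768*h*S^4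 -12384*h*S^6) * r.bb

theorem val_E5 {h p q C S A B : ℂ} (r : Rel h p q C S A B) {e : ℂ} (he : e * e = 1) :
    VAL h p q C S A B (0) (-3) (-3*e) (0) (3) (-3*e) =
      648 +2592*S^2 +3888*S^4 -2592*h*S^2 -5184*h*S^4 := by
  have hI : I * I = -1 := Complex.I_mul_I
  simp only [VAL, omW, fa0, fa1, fa2, fa3, fb1, fb2, fb3, fc0, fc1, fc2, fc3, fd0, fd1, fd2, fd3]
  linear_combination (-648*S^4*e^2 -324*S^4*e^4 +1296*S^6*A^2*e^2 -1296*q^2*S^4*A^2*B^2*e^2 -1296*q^2*C^2*S^4*A^2*e^2 +2592*p*q*S^4*A^2*B^2*e^2 -1296*p^2*S^4*A^2*B^2*e^2 -1296*h*S^2*e^2 -2592*h*S^4*e^2 -5184*h*S^4*A^2*e^2 -1296*h*S^6*e^2 -5184*h*S^6*A^2*e^2 +3888*h^2*S^2*A^2*e^2 +10368*h^2*S^4*A^2*e^2 +5184*h^2*S^6*A^2*e^2 +324*I^2*S^4*e^4 -1296*I^2*S^6*A^2*e^2 +2592*I^2*h*S^4*A^2*e^2 +5184*I^2*h*S^6*A^2*e^2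 -1296*I^2*h^2*S^2*A^2*e^2 -5184*I^2*h^2*S^4*A^2*e^2 -5184*I^2*h^2*S^6*A^2*e^2) * hI + (1296 +5184*S^2 -5184*S^2*A^2*e^2 +9072*S^4 +3888*S^4*e^2 -2592*S^4*B^2 -2592*S^4*B^2*e^2 -10368*S^4*A^2*e^2 +5184*S^6 +5184*S^6*e^2 -2592*S^6*B^2 -2592*S^6*B^2*e^2 -5184*S^6*A^2*e^2 +1296*S^8 +2592*S^8*e^2 -5184*C^2*S^2*A^2*B^2) * r.hh + (1296*S^4*A^2*B^2 +1296*S^4*A^2*B^2*e^2) * r.pp + (1296*S^4*A^2*B^2 +1296*S^4*A^2*B^2*e^2 +1296*C^2*S^4*A^2 +1296*C^2*S^4*A^2*e^2) * r.qq + (-2592*S^4*A^2*B^2 -2592*S^4*A^2*B^2*e^2) * r.pq + (-2592*S^2*A^2*B^2 +1296*S^4*A^2 +1296*S^4*A^2*e^2 -1296*h*S^4*A^2 -1296*h*S^4*A^2*e^2) * r.cc + (-1296*S^2 -2592*S^2*e^2 -2592*S^2*B^2 -1296*S^4 -3888*S^4*e^2 +2592*S^4*B^2*e^2 -2592*S^6*e^2 -1296*h*S^4 +3888*h*S^4*e^2 -2592*h*S^4*B^2 -2592*h*S^4*B^2*e^2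 -1296*h*S^6 +3888*h*S^6*e^2) * r.aa + (-2592*S^4 -1296*S^4*e^2 -1296*S^6 -2592*h*S^2 -2592*h*S^4 +2592*h*S^4*e^2 -1296*h*S^6 +1296*h*S^6*e^2) * r.bb + (972*S^4 +324*S^4*e^2 -1296*h*S^2 -2592*h*S^4) * he

end Pool.Agent.AnB
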