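import Pool.Agent.AnB.Path
import Pool.Agent.AnB.Val

/-!
The certificate of the path: three constant Hermitian forms with integer entries.
-/

namespace Pool.Agent.AnB

open Pool.Agent.Hhelper63.AnT Matrix

open Complex (I)

/-- the form `[[k, z], [w, k]] ⊗ 1` -/
noncomputable def mkG (k z w : ℂ) : M4 :=
  mk4 k 0 z 0 0 k 0 z w 0 k 0 0 w 0 k

theorem mkG_eq (k z w : ℂ) : mkG k z w = Hh * mkY k z w := by
  rw [mkG, Hh, mkY, mk4_mul]
  apply mk4_ext <;> ring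

/-- the form with real parameters -/
noncomputable def MG (g0 g1 g2 : ℝ) : M4 := mkG g0 (g1 + I * g2) (g1 - I * g2)

theorem MG_herm (g0 g1 g2 : ℝ) : (MG g0 g1 g2).conjTranspose = MG g0 g1 g2 := by
  rw [MG, mkG, mk4_star]
  apply mk4_ext <;> simp [sub_eq_add_neg]

/-- the difference of the two sides along an edge -/
noncomputable def Mp (g0 g1 g2 k0 k1 k2 : ℝ) (s : ℝ) : M4 :=
  (R2s s).conjTranspose * MG g0 g1 g2 * R2s s - MG k0 k1 k2

theorem Mp_eq (g0 g1 g2 k0 k1 k2 : ℝ) (s : ℝ) : Mp g0 g1 g2 k0 k1 k2 s =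
    -(Hh * (R2s s * mkY g0 (g1 + I * g2) (g1 - I * g2) * R2s s +
      mkY k0 (k1 + I * k2) (k1 - I * k2))) := by
  rw [Mp, R2s_star, MG, MG, mkG_eq, mkG_eq]
  have e : ∀ X Y Z : M4, -(Hh * X * Hh) * (Hh * Y) * X - Hh * Z =
      -(Hh * X * (Hh * Hh) * Y * X) - Hh * Z := by
    intro X Y Z
    noncomm_ring
  rw [e, Hh_sq, mul_one, mul_add, neg_add, ← sub_eq_add_neg]
  simp only [mul_assoc]

theorem Mp_continuous (g0 g1 g2 k0 k1 k2 : ℝ) : Continuous (Mp g0 g1 g2 k0 k1 k2) := by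
  unfold Mp
  have h := R2s_continuous
  exact ((h.matrix_conjTranspose.matrix_mul continuous_const).matrix_mul h).sub continuous_const

theorem Mp_herm (g0 g1 g2 k0 k1 k2 : ℝ) (s : ℝ) : (Mp g0 g1 g2 k0 k1 k2 s).IsHermitian := by
  unfold Matrix.IsHermitian Mp
  rw [Matrix.conjTranspose_sub, Matrix.conjTranspose_mul, Matrix.conjTranspose_mul, MG_herm,
    MG_herm, Matrix.conjTranspose_conjTranspose, mul_assoc]

theorem Q_mk4 (m : ℝ) (u : ℂ) (v : Fin 4 → ℂ) :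
    Q (mk4 m 0 u 0 0 m 0 u (star u) 0 m 0 0 (star u) 0 m) v =
      m * n2 v + 2 * (star (v 0) * u * v 2).re + 2 * (star (v 1) * u * v 3).re := by
  unfold Q n2
  rw [mk4_mulVec]
  simp only [dotProduct, Fin.sum_univ_four, Pi.star_apply, Matrix.cons_val_zero,
    Matrix.cons_val_one, Matrix.cons_val]
  simp only [Complex.add_re, Complex.mul_re, Complex.add_im, Complex.mul_im, Complex.star_def,
    Complex.conj_re, Complex.conj_im, Complex.ofReal_re, Complex.ofReal_im, Complex.normSq_apply,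
    Complex.zero_re, Complex.zero_im]
  ring

theorem Q_mk4_pos {m : ℝ} {u : ℂ} (hm : 0 < m) (hu : Complex.normSq u < m ^ 2)
    (v : Fin 4 → ℂ) (hv : v ≠ 0) :
    0 < Q (mk4 m 0 u 0 0 m 0 u (star u) 0 m 0 0 (star u) 0 m) v := by
  have hn : ‖u‖ < m := by
    rw [Complex.normSq_eq_norm_sq] at hu
    exact lt_of_pow_lt_pow_left₀ 2 hm.le hu
  have key : ∀ a b : ℂ, -(‖u‖ * (Complex.normSq a + Complex.normSq b)) ≤
      2 * (star a * u * b).re := by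
    intro a b
    have h1 : |(star a * u * b).re| ≤ ‖star a * u * b‖ := Complex.abs_re_le_norm _
    rw [norm_mul, norm_mul, norm_star] at h1
    have h2 := (abs_le.1 h1).1
    rw [Complex.normSq_eq_norm_sq, Complex.normSq_eq_norm_sq]
    have h3 := norm_nonneg u
    have h4 := mul_nonneg h3 (sq_nonneg (‖a‖ - ‖b‖))
    nlinarith
  rw [Q_mk4]
  have h1 := key (v 0) (v 2)
  have h2 := key (v 1) (v 3)
  have h3 : n2 v = Complex.normSq (v 0) + Complex.normSq (v 1) + Complex.normSq (v 2) +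
      Complex.normSq (v 3) := by
    unfold n2
    rw [Fin.sum_univ_four]
  have h4 := n2_pos hv
  have h5 : 0 < (m - ‖u‖) * n2 v := mul_pos (by linarith) h4
  nlinarith

theorem Sf_zero : Sf 0 = 0 := by simp [Sf]

theorem Cf_zero : Cf 0 = 1 := by simp [Cf]

/-- the base number `p A` -/
noncomputable def x0 : ℝ := pB * Af 0

theorem x0_pos : 0 < x0 := by
  refine mul_pos pB_pos ?_
  unfold Af
  rw [mul_zero, add_zero]
  exact Real.sqrt_pos.2 hB_pos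

theorem x0_sq : x0 * x0 = hB + 1 / 2 := by
  have h1 : Af 0 * Af 0 = hB := by
    unfold Af
    rw [mul_zero, add_zero]
    exact Real.mul_self_sqrt hB_pos.le
  have e : x0 * x0 = (pB * pB) * (Af 0 * Af 0) := by
    unfold x0
    ring
  rw [e, h1, pB_sq]
  nlinarith [hB_sq]

/-- the matrix at the base point -/
theorem Mp_zero (g0 g1 g2 k0 k1 k2 : ℝ) : Mp g0 g1 g2 k0 k1 k2 0 =
    mk4 ((g0 + 2 * hB * g0 - 2 * x0 * g1 - k0 : ℝ) : ℂ) 0
        (-((((1 + 2 * hB) * g1 - 2 * x0 * g0 + k1 : ℝ) : ℂ) + I * ((k2 - g2 : ℝ) : ℂ))) 0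
      0 ((g0 + 2 * hB * g0 - 2 * x0 * g1 - k0 : ℝ) : ℂ) 0
        (-((((1 + 2 * hB) * g1 - 2 * x0 * g0 + k1 : ℝ) : ℂ) + I * ((k2 - g2 : ℝ) : ℂ)))
      (star (-((((1 + 2 * hB) * g1 - 2 * x0 * g0 + k1 : ℝ) : ℂ) + I * ((k2 - g2 : ℝ) : ℂ)))) 0
        ((g0 + 2 * hB * g0 - 2 * x0 * g1 - k0 : ℝ) : ℂ) 0
      0 (star (-((((1 + 2 * hB) * g1 - 2 * x0 * g0 + k1 : ℝ) : ℂ) + I * ((k2 - g2 : ℝ) : ℂ)))) 0
        ((g0 + 2 * hB * g0 - 2 * x0 * g1 - k0 : ℝ) : ℂ) := by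
  rw [Mp_eq, R2s, Pg_eq (rel_path zero_mem_L), Sf_zero, Cf_zero]
  have hx : ((x0 : ℝ) : ℂ) = (pB : ℂ) * (Af 0 : ℝ) := by
    unfold x0
    push_cast
    ring
  rw [mkP, mkY, mk4_add, Hh, mk4_mul, mk4_neg]
  apply mk4_ext <;>
    simp only [fa0, fa1, fa2, fa3, fb1, fb2, fb3, fc0, fc1, fc2, fc3, fd0, fd1, fd2, fd3,
      Complex.ofReal_zero, Complex.ofReal_one, Complex.star_def, map_neg, map_add, map_mul,
      Complex.conj_I, Complex.conj_ofReal] <;>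
    push_cast <;> (try rw [hx]) <;> ring

/-- positivity along an edge -/
theorem edge_pos {g0 g1 g2 k0 k1 k2 : ℝ} (hm : 0 < g0 + 2 * hB * g0 - 2 * x0 * g1 - k0)
    (hu : ((1 + 2 * hB) * g1 - 2 * x0 * g0 + k1) ^ 2 + (k2 - g2) ^ 2 <
      (g0 + 2 * hB * g0 - 2 * x0 * g1 - k0) ^ 2)
    (hval : ∀ s ∈ Set.Icc 0 Lm, VAL (hB : ℝ) (pB : ℝ) (qB : ℝ) (Cf s : ℝ) (Sf s : ℝ) (Af s : ℝ)
      (Bf s : ℝ) g0 g1 g2 k0 k1 k2 ≠ 0) :
    ∀ s ∈ Set.Icc 0 Lm, ∃ κ > 0, ∀ v, κ * n2 v ≤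
      Q (MG g0 g1 g2) ((R2s s).mulVec v) - Q (MG k0 k1 k2) v := by
  intro s hs
  have h0 : ∀ v, v ≠ 0 → 0 < Q (Mp g0 g1 g2 k0 k1 k2 0) v := by
    intro v hv
    rw [Mp_zero]
    refine Q_mk4_pos hm ?_ v hv
    rw [Complex.normSq_neg, Complex.normSq_apply]
    simp only [Complex.add_re, Complex.add_im, Complex.mul_re, Complex.mul_im, Complex.I_re,
      Complex.I_im, Complex.ofReal_re, Complex.ofReal_im]
    nlinarith
  have hns : ∀ s ∈ Set.Icc 0 Lm, ∀ v, (Mp g0 g1 g2 k0 k1 k2 s).mulVec v = 0 → v = 0 := by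
    intro t ht v hv
    refine ns_gen (rel_path ht) (hval t ht) ?_
    rw [Mp_eq, Matrix.neg_mulVec, neg_eq_zero] at hv
    have h1 : Hh.mulVec ((Hh * (R2s t * mkY g0 (g1 + I * g2) (g1 - I * g2) * R2s t +
      mkY k0 (k1 + I * k2) (k1 - I * k2))).mulVec v) = 0 := by
      rw [hv, Matrix.mulVec_zero]
    rw [Matrix.mulVec_mulVec, ← mul_assoc, Hh_sq, one_mul] at h1
    exact h1
  obtain ⟨κ, hκ, h⟩ := pos_path (Mp_continuous g0 g1 g2 k0 k1 k2) (Mp_herm g0 g1 g2 k0 k1 k2) h0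
    hns s hs
  refine ⟨κ, hκ, fun v => ?_⟩
  have h1 := h v
  rw [Mp, Q_sub, Q_conj] at h1
  exact h1

end Pool.Agent.AnB
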