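import Pool.Agent.AnB.Edges

/-!
The certificate for `edgesB` along the path.
-/

namespace Pool.Agent.AnB

open Pool.Agent.Hhelper63.AnT Matrix

open Complex (I)

theorem conjR0 {h p q C S A B : ℂ} (r : Rel h p q C S A B) (k z w : ℂ) :
    R0 p q * mkG k z w * R0 p q = mkG k (h * (1 + I) * w) (h * (1 - I) * z) := by
  have hI : I * I = -1 := Complex.I_mul_I
  rw [R0, mkG, mk4_mul, mk4_mul, mkG]
  apply mk4_ext
  · linear_combination (-(1/4)*q^2*k -(1/2)*p*q*k -(1/4)*p^2*k) * hI + ((1/2)*k) * r.pp + ((1/2)*k) * r.qq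
  · ring
  · linear_combination ((1/4)*q^2*w -(1/4)*p^2*w) * hI + ((1/2)*w) * r.pp + (-(1/2)*w) * r.qq + (I*w) * r.pq
  · ring
  · ring
  · linear_combination (-(1/4)*q^2*k +(1/2)*p*q*k -(1/4)*p^2*k) * hI + ((1/2)*k) * r.pp + ((1/2)*k) * r.qq
  · ring
  · linear_combination ((1/4)*q^2*w -(1/4)*p^2*w) * hI + ((1/2)*w) * r.pp + (-(1/2)*w) * r.qq + (I*w) * r.pq
  · linear_combination ((1/4)*q^2*z -(1/4)*p^2*z) * hI + ((1/2)*z) * r.pp + (-(1/2)*z) * r.qq + (-I*z) * r.pq
  · ring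
  · linear_combination (-(1/4)*q^2*k +(1/2)*p*q*k -(1/4)*p^2*k) * hI + ((1/2)*k) * r.pp + ((1/2)*k) * r.qq
  · ring
  · ring
  · linear_combination ((1/4)*q^2*z -(1/4)*p^2*z) * hI + ((1/2)*z) * r.pp + (-(1/2)*z) * r.qq + (-I*z) * r.pq
  · ring
  · linear_combination (-(1/4)*q^2*k -(1/2)*p*q*k -(1/4)*p^2*k) * hI + ((1/2)*k) * r.pp + ((1/2)*k) * r.qq

theorem conjR1 {h p q C S A B : ℂ} (r : Rel h p q C S A B) (k z w : ℂ) :
    R1 p q * mkG k z w * R1 p q = mkG k (h * (1 - I) * w) (h * (1 + I) * z) := by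
  have hI : I * I = -1 := Complex.I_mul_I
  rw [R1, mkG, mk4_mul, mk4_mul, mkG]
  apply mk4_ext
  · linear_combination (-(1/4)*q^2*k -(1/2)*p*q*k -(1/4)*p^2*k) * hI + ((1/2)*k) * r.pp + ((1/2)*k) * r.qq
  · ring
  · linear_combination ((1/4)*q^2*w -(1/4)*p^2*w) * hI + ((1/2)*w) * r.pp + (-(1/2)*w) * r.qq + (-I*w) * r.pq
  · ring
  · ring
  · linear_combination (-(1/4)*q^2*k +(1/2)*p*q*k -(1/4)*p^2*k) * hI + ((1/2)*k) * r.pp + ((1/2)*k) * r.qq
  · ring
  · linear_combination ((1/4)*q^2*w -(1/4)*p^2*w) * hI + ((1/2)*w) * r.pp + (-(1/2)*w) * r.qq + (-I*w) * r.pq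
  · linear_combination ((1/4)*q^2*z -(1/4)*p^2*z) * hI + ((1/2)*z) * r.pp + (-(1/2)*z) * r.qq + (I*z) * r.pq
  · ring
  · linear_combination (-(1/4)*q^2*k +(1/2)*p*q*k -(1/4)*p^2*k) * hI + ((1/2)*k) * r.pp + ((1/2)*k) * r.qq
  · ring
  · ring
  · linear_combination ((1/4)*q^2*z -(1/4)*p^2*z) * hI + ((1/2)*z) * r.pp + (-(1/2)*z) * r.qq + (I*z) * r.pq
  · ring
  · linear_combination (-(1/4)*q^2*k -(1/2)*p*q*k -(1/4)*p^2*k) * hI + ((1/2)*k) * r.pp + ((1/2)*k) * r.qq

theorem mkG_congr {k k' z z' w w' : ℂ} (h1 : k = k') (h2 : z = z') (h3 : w = w') :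
    mkG k z w = mkG k' z' w' := by
  rw [h1, h2, h3]

theorem QR0 (k a b : ℝ) (v : Fin 4 → ℂ) : Q (MG k a b) (R0s.mulVec v) =
    Q (MG k (hB * (a + b)) (hB * (a - b))) v := by
  have hI : I * I = -1 := Complex.I_mul_I
  rw [← Q_conj, R0s_star, MG, R0s, conjR0 (rel_path zero_mem_L), MG]
  congr 1
  refine mkG_congr rfl ?_ ?_
  · push_cast
    linear_combination (-(hB : ℂ) * b) * hI
  · push_cast
    linear_combination (-(hB : ℂ) * b) * hI

theorem QR1 (k a b : ℝ) (v : Fin 4 → ℂ) : Q (MG k a b) (R1s.mulVec v) =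
    Q (MG k (hB * (a - b)) (-(hB * (a + b)))) v := by
  have hI : I * I = -1 := Complex.I_mul_I
  rw [← Q_conj, R1s_star, MG, R1s, conjR1 (rel_path zero_mem_L), MG]
  congr 1
  refine mkG_congr rfl ?_ ?_
  · push_cast
    linear_combination ((hB : ℂ) * b) * hI
  · push_cast
    linear_combination ((hB : ℂ) * b) * hI

theorem MG_congr {k k' z z' w w' : ℝ} (h1 : k = k') (h2 : z = z') (h3 : w = w') :
    MG k z w = MG k' z' w' := by
  rw [h1, h2, h3]

/-- the three forms -/
noncomputable def HB : ℕ → M4 := fun q =>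
  if q = 0 then MG 3 5 0 else if q = 1 then MG 0 3 (-3) else MG 0 3 3

theorem HB0 : HB 0 = MG 3 5 0 := rfl

theorem HB1 : HB 1 = MG 0 3 (-3) := rfl

theorem HB2 : HB 2 = MG 0 3 3 := rfl

theorem ev_mulVec (S : Fin 3 → M4) (a : Fin 3) (w : List (Fin 3)) (T : M4) (v : Fin 4 → ℂ) :
    (ev S (a :: w) * T).mulVec v = (S a).mulVec ((ev S w * T).mulVec v) := by
  rw [Matrix.mulVec_mulVec, ← mul_assoc]
  simp [ev]

theorem ev_nil_mulVec (S : Fin 3 → M4) (T : M4) (v : Fin 4 → ℂ) :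
    (ev S [] * T).mulVec v = T.mulVec v := by
  simp [ev]

theorem Rm_zero (s : ℝ) : Rm s 0 = R0s := rfl

theorem Rm_one (s : ℝ) : Rm s 1 = R1s := rfl

theorem Rm_two (s : ℝ) : Rm s 2 = R2s s := rfl

/-- subspaces `{(x, λ x)}` -/
noncomputable def lamMap (l : ℂ) : (Fin 2 → ℂ) →ₗ[ℂ] (Fin 4 → ℂ) where
  toFun x := ![x 0, x 1, l * x 0, l * x 1]
  map_add' x y := by
    ext i
    fin_cases i <;> simp <;> ring
  map_smul' t x := by
    ext i
    fin_cases i <;> simp <;> ring

theorem lamMap_inj (l : ℂ) : Function.Injective (lamMap l) := by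
  intro x y h
  have h0 := congrFun h 0
  have h1 := congrFun h 1
  funext i
  fin_cases i
  · exact h0
  · exact h1

theorem lamMap_rank (l : ℂ) : Module.finrank ℂ (LinearMap.range (lamMap l)) = 2 := by
  rw [LinearMap.finrank_range_of_inj (lamMap_inj l)]
  simp

theorem Q_lam (k a b : ℝ) (l : ℂ) (x : Fin 2 → ℂ) : Q (MG k a b) (lamMap l x) =
    (k * (1 + Complex.normSq l) + 2 * (a * l.re - b * l.im)) *
      (Complex.normSq (x 0) + Complex.normSq (x 1)) := by
  have e : MG k a b = mk4 k 0 (a + I * b) 0 0 k 0 (a + I * b) (star (a + I * b)) 0 k 0 0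
      (star (a + I * b)) 0 k := by
    rw [MG, mkG]
    congr 1 <;> simp [sub_eq_add_neg]
  rw [e, Q_mk4]
  unfold n2
  rw [Fin.sum_univ_four]
  simp only [lamMap, LinearMap.coe_mk, AddHom.coe_mk, Matrix.cons_val_zero, Matrix.cons_val_one,
    Matrix.cons_val]
  simp only [Complex.add_re, Complex.mul_re, Complex.add_im, Complex.mul_im, Complex.star_def,
    Complex.conj_re, Complex.conj_im, Complex.ofReal_re, Complex.ofReal_im, Complex.normSq_apply,
    Complex.I_re, Complex.I_im]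
  ring

theorem n2_lam (l : ℂ) (x : Fin 2 → ℂ) : n2 (lamMap l x) =
    (1 + Complex.normSq l) * (Complex.normSq (x 0) + Complex.normSq (x 1)) := by
  unfold n2
  rw [Fin.sum_univ_four]
  simp only [lamMap, LinearMap.coe_mk, AddHom.coe_mk, Matrix.cons_val_zero, Matrix.cons_val_one,
    Matrix.cons_val, map_mul]
  ring

theorem certB {s : ℝ} (hs : s ∈ Set.Icc 0 Lm) : CertAt 3 edgesB 2 (Rm s) := by
  have h3 := hB_sq
  have one1 : (1 : ℝ) * 1 = 1 := by norm_num
  have one2 : (-1 : ℝ) * -1 = 1 := by norm_num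
  refine ⟨HB, 2, by norm_num, ?_, ?_, ?_⟩
  · intro e he
    simp only [edgesB, List.mem_cons, List.not_mem_nil, or_false] at he
    rcases he with rfl | rfl | rfl | rfl | rfl | rfl | rfl | rfl | rfl
    · refine ⟨by norm_num, by norm_num, 1, one_pos, ?_⟩
      obtain ⟨κ, hκ, h⟩ := edge1 one1 hs
      refine ⟨κ, hκ, fun v => (h v).trans (le_of_eq ?_)⟩
      rw [ev_mulVec, ev_mulVec, ev_mulVec, ev_nil_mulVec, Rm_zero, Rm_one, Rm_two, HB0, QR0, QR1,
        QR0, one_mul]
      congr 2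
      refine MG_congr rfl ?_ ?_
      · linear_combination (10 * hB) * h3
      · linear_combination (-10 * hB) * h3
    · refine ⟨by norm_num, by norm_num, 1, one_pos, ?_⟩
      obtain ⟨κ, hκ, h⟩ := edge2 hs
      refine ⟨κ, hκ, fun v => (h v).trans (le_of_eq ?_)⟩
      rw [ev_mulVec, ev_mulVec, ev_mulVec, ev_mulVec, ev_nil_mulVec, Rm_zero, Rm_one, Rm_two, HB0,
        QR0, QR1, QR0, QR1, one_mul]
      congr 2
      refine MG_congr rfl ?_ ?_
      · linear_combination (20 * hB * hB + 10) * h3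
      · ring
    · refine ⟨by norm_num, by norm_num, 1, one_pos, ?_⟩
      obtain ⟨κ, hκ, h⟩ := edge3 one1 hs
      refine ⟨κ, hκ, fun v => (h v).trans (le_of_eq ?_)⟩
      rw [ev_mulVec, ev_mulVec, ev_nil_mulVec, Rm_zero, Rm_one, Rm_two, HB0, QR0, QR1, one_mul]
      congr 1
      · congr 1
        refine MG_congr rfl ?_ ?_
        · ring
        · linear_combination 10 * h3
      · rw [HB1]
        congr 1
        refine MG_congr rfl rfl ?_
        norm_num
    · refine ⟨by norm_num, by norm_num, 1, one_pos, ?_⟩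
      obtain ⟨κ, hκ, h⟩ := edge3 one2 hs
      refine ⟨κ, hκ, fun v => (h v).trans (le_of_eq ?_)⟩
      rw [ev_mulVec, ev_mulVec, ev_nil_mulVec, Rm_zero, Rm_one, Rm_two, HB0, QR1, QR0, one_mul]
      congr 1
      · congr 1
        refine MG_congr rfl ?_ ?_
        · ring
        · linear_combination (-10) * h3
      · rw [HB2]
        congr 1
        refine MG_congr rfl rfl ?_
        norm_num
    · refine ⟨by norm_num, by norm_num, 1, one_pos, ?_⟩
      obtain ⟨κ, hκ, h⟩ := edge1 one2 hs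
      refine ⟨κ, hκ, fun v => (h v).trans (le_of_eq ?_)⟩
      rw [ev_mulVec, ev_mulVec, ev_mulVec, ev_nil_mulVec, Rm_zero, Rm_one, Rm_two, HB0, QR1, QR0,
        QR1, one_mul]
      congr 2
      refine MG_congr rfl ?_ ?_ <;> linear_combination (10 * hB) * h3
    · refine ⟨by norm_num, by norm_num, 1, one_pos, ?_⟩
      obtain ⟨κ, hκ, h⟩ := edge4 hs
      refine ⟨κ, hκ, fun v => (h v).trans (le_of_eq ?_)⟩
      rw [ev_mulVec, ev_mulVec, ev_mulVec, ev_nil_mulVec, Rm_zero, Rm_one, Rm_two, HB1, QR0, QR1,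
        QR0, one_mul]
      congr 2
      refine MG_congr rfl ?_ ?_
      · linear_combination (12 * hB) * h3
      · ring
    · refine ⟨by norm_num, by norm_num, 1, one_pos, ?_⟩
      obtain ⟨κ, hκ, h⟩ := edge5 one1 hs
      refine ⟨κ, hκ, fun v => (h v).trans (le_of_eq ?_)⟩
      rw [ev_mulVec, ev_mulVec, ev_nil_mulVec, Rm_zero, Rm_one, Rm_two, HB1, QR0, QR1, one_mul]
      congr 1
      · congr 1
        refine MG_congr rfl ?_ ?_
        · linear_combination 6 * h3
        · linear_combination 6 * h3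
      · congr 1
        refine MG_congr rfl rfl ?_
        norm_num
    · refine ⟨by norm_num, by norm_num, 1, one_pos, ?_⟩
      obtain ⟨κ, hκ, h⟩ := edge5 one2 hs
      refine ⟨κ, hκ, fun v => (h v).trans (le_of_eq ?_)⟩
      rw [ev_mulVec, ev_mulVec, ev_nil_mulVec, Rm_zero, Rm_one, Rm_two, HB2, QR1, QR0, one_mul]
      congr 1
      · congr 1
        refine MG_congr rfl ?_ ?_
        · linear_combination 6 * h3
        · linear_combination (-6) * h3
      · congr 1
        refine MG_congr rfl rfl ?_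
        norm_num
    · refine ⟨by norm_num, by norm_num, 1, one_pos, ?_⟩
      obtain ⟨κ, hκ, h⟩ := edge4 hs
      refine ⟨κ, hκ, fun v => (h v).trans (le_of_eq ?_)⟩
      rw [ev_mulVec, ev_mulVec, ev_mulVec, ev_nil_mulVec, Rm_zero, Rm_one, Rm_two, HB2, QR1, QR0,
        QR1, one_mul]
      congr 2
      refine MG_congr rfl ?_ ?_
      · linear_combination (12 * hB) * h3
      · ring
  · intro q hq
    have hq3 : q = 0 ∨ q = 1 ∨ q = 2 := by omega
    rcases hq3 with rfl | rfl | rfl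
    · refine ⟨LinearMap.range (lamMap 1), (lamMap_rank 1).ge, ?_⟩
      rintro _ ⟨x, rfl⟩
      rw [HB0, Q_lam, n2_lam]
      have := Complex.normSq_nonneg (x 0)
      have := Complex.normSq_nonneg (x 1)
      simp only [map_one, Complex.one_re, Complex.one_im]
      nlinarith
    · refine ⟨LinearMap.range (lamMap (1 + I)), (lamMap_rank _).ge, ?_⟩
      rintro _ ⟨x, rfl⟩
      rw [HB1, Q_lam, n2_lam]
      have := Complex.normSq_nonneg (x 0)
      have := Complex.normSq_nonneg (x 1)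
      simp only [Complex.normSq_apply (1 + I), Complex.add_re, Complex.add_im, Complex.one_re,
        Complex.one_im, Complex.I_re, Complex.I_im]
      nlinarith
    · refine ⟨LinearMap.range (lamMap (1 - I)), (lamMap_rank _).ge, ?_⟩
      rintro _ ⟨x, rfl⟩
      rw [HB2, Q_lam, n2_lam]
      have := Complex.normSq_nonneg (x 0)
      have := Complex.normSq_nonneg (x 1)
      simp only [Complex.normSq_apply (1 - I), Complex.sub_re, Complex.sub_im, Complex.one_re,
        Complex.one_im, Complex.I_re, Complex.I_im]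
      nlinarith
  · refine ⟨LinearMap.range (lamMap (-1)), by rw [lamMap_rank], ?_⟩
    rintro _ ⟨x, rfl⟩
    rw [HB0, Q_lam, n2_lam]
    have := Complex.normSq_nonneg (x 0)
    have := Complex.normSq_nonneg (x 1)
    simp only [Complex.normSq_neg, map_one, Complex.neg_re, Complex.neg_im, Complex.one_re,
      Complex.one_im]
    nlinarith

end Pool.Agent.AnB
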