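import Pool.Agent.AnB.Cert

/-!
The inequalities along the nine edges and the certificate.
-/

namespace Pool.Agent.AnB

open Pool.Agent.Hhelper63.AnT Matrix

open Complex (I)

theorem le_of_mul_self {a b : ℝ} (hb : 0 ≤ b) (h : a * a ≤ b * b) : a ≤ b := by
  by_contra hc
  push Not at hc
  nlinarith

section vals

variable {s X : ℝ}

theorem pos1 (hs0 : 0 ≤ s) (hX0 : 0 ≤ X)
    (hX : X * X = (1 + s) * (hB + (hB + 1 / 2) * s)) :
    0 < -802 - 3908 * s - 1408 * s ^ 2 + 840 * (qB * X) + 7680 * s * (qB * X) + 1800 * hB +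
      1100 * hB * s - 3900 * hB * s ^ 2 := by
  have h1 := hB_lo
  have h2 := hB_hi
  have h3 := hB_sq
  have hq := qB_sq
  have hq0 := qB_pos
  have hs2 : 0 ≤ s ^ 2 := sq_nonneg s
  have e : (qB * X) * (qB * X) = (hB - 1 / 2) + (3 * hB / 2 - 1 / 2) * s + hB / 2 * s ^ 2 := by
    have : (qB * X) * (qB * X) = (qB * qB) * (X * X) := by ring
    rw [this, hq, hX]
    linear_combination (-(1 + s) ^ 2) * h3
  have hY : 0.45 + 0.59 * s ≤ qB * X := by
    refine le_of_mul_self (by positivity) ?_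
    rw [e]
    nlinarith [mul_nonneg hs0 (by linarith : (0 : ℝ) ≤ hB - 0.70710678),
      mul_nonneg hs2 (by linarith : (0 : ℝ) ≤ hB - 0.70710678)]
  have h4 := mul_le_mul_of_nonneg_left hY hs0
  nlinarith [mul_nonneg hs0 (by linarith : (0 : ℝ) ≤ hB - 0.70710678),
      mul_nonneg hs2 (by linarith : (0 : ℝ) ≤ 0.70710679 - hB)]

theorem pos2 (hs0 : 0 ≤ s) :
    0 < 2048 + 8192 * s + 10692 * s ^ 2 - 6400 * hB * s - 12800 * hB * s ^ 2 := by
  have h2 := hB_hi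
  have hs2 : 0 ≤ s ^ 2 := sq_nonneg s
  nlinarith [mul_nonneg hs0 (by linarith : (0 : ℝ) ≤ 0.70710679 - hB),
      mul_nonneg hs2 (by linarith : (0 : ℝ) ≤ 0.70710679 - hB)]

theorem pos5 (hs0 : 0 ≤ s) :
    0 < 648 + 2592 * s + 3888 * s ^ 2 - 2592 * hB * s - 5184 * hB * s ^ 2 := by
  have h2 := hB_hi
  have hs2 : 0 ≤ s ^ 2 := sq_nonneg s
  nlinarith [mul_nonneg hs0 (by linarith : (0 : ℝ) ≤ 0.70710679 - hB),
      mul_nonneg hs2 (by linarith : (0 : ℝ) ≤ 0.70710679 - hB)]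

theorem pos3 (hs0 : 0 ≤ s) (hs1 : s ≤ 1 + 2 * hB)
    (hX : X * X = (1 + s) * (hB + (hB + 1 / 2) * s)) :
    0 < 664 - 240 * s - 1296 * s ^ 2 - 288 * (pB * X) - 288 * s * ((pB - qB) * X) + 1296 * hB +
      2088 * hB * s + 2088 * hB * s ^ 2 := by
  have h1 := hB_lo
  have h2 := hB_hi
  have h3 := hB_sq
  have hp := pB_sq
  have hq := qB_sq
  have hpq := pq_B
  have hs2 : 0 ≤ s ^ 2 := sq_nonneg s
  have hs1' : s ≤ 2.4143 := by linarith
  have e : (pB * X) * (pB * X) = (hB + 1 / 2) + (5 * hB / 2 + 3 / 2) * s +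
      (3 * hB / 2 + 1) * s ^ 2 := by
    have : (pB * X) * (pB * X) = (pB * pB) * (X * X) := by ring
    rw [this, hp, hX]
    linear_combination ((1 + s) ^ 2) * h3
  have hY : pB * X ≤ 1.1 + 1.5 * s := by
    refine le_of_mul_self (by positivity) ?_
    rw [e]
    nlinarith [mul_nonneg hs0 (by linarith : (0 : ℝ) ≤ 0.70710679 - hB),
      mul_nonneg hs2 (by linarith : (0 : ℝ) ≤ 0.70710679 - hB)]
  have e2 : ((pB - qB) * X) * ((pB - qB) * X) = (2 * hB - 1) + (3 * hB - 1) * s + hB * s ^ 2 := by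
    have : ((pB - qB) * X) * ((pB - qB) * X) = (pB * pB + qB * qB - 2 * (pB * qB)) * (X * X) := by
      ring
    rw [this, hp, hq, hpq, hX]
    linear_combination (-2 * (1 + s) ^ 2) * h3
  have hZ : (pB - qB) * X ≤ 0.65 + 0.87 * s := by
    refine le_of_mul_self (by positivity) ?_
    rw [e2]
    nlinarith [mul_nonneg hs0 (by linarith : (0 : ℝ) ≤ 0.70710679 - hB),
      mul_nonneg hs2 (by linarith : (0 : ℝ) ≤ 0.70710679 - hB)]
  have h4 := mul_le_mul_of_nonneg_left hZ hs0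
  have h5 : s ^ 2 ≤ 2.4143 * s := by nlinarith
  nlinarith [mul_nonneg hs0 (by linarith : (0 : ℝ) ≤ hB - 0.70710678),
      mul_nonneg hs2 (by linarith : (0 : ℝ) ≤ hB - 0.70710678)]

theorem pos4 (hs0 : 0 ≤ s) (hs1 : s ≤ 1 + 2 * hB)
    (hX : X * X = (1 + s) * (hB + (hB + 1 / 2) * s)) :
    0 < 3772 + 11136 * s + 10824 * s ^ 2 - 1872 * qB * X + 576 * qB * s * X - 6192 * pB * X -
      8640 * pB * s * X + 5712 * hB + 12192 * hB * s + 1872 * hB * s ^ 2 := by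
  have h1 := hB_lo
  have h2 := hB_hi
  have h3 := hB_sq
  have hp := pB_sq
  have hp0 := pB_pos
  have hq := qB_sq
  have hq0 := qB_pos
  have hs2 : 0 ≤ s ^ 2 := sq_nonneg s
  have hs1' : s ≤ 2.4143 := by linarith
  have hX1 : X ≤ 0.85 + 1.107 * s := by
    refine le_of_mul_self (by positivity) ?_
    rw [hX]
    nlinarith [mul_nonneg hs0 (by linarith : (0 : ℝ) ≤ 0.70710679 - hB),
      mul_nonneg hs2 (by linarith : (0 : ℝ) ≤ 0.70710679 - hB), sq_nonneg (s - 0.9)]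
  have hp1 : pB ≤ 1.30657 := le_of_mul_self (by norm_num) (by rw [hp]; linarith)
  have hq1 : qB ≤ 0.5412 := le_of_mul_self (by norm_num) (by rw [hq]; linarith)
  have hq2 : 0.5411 ≤ qB := le_of_mul_self hq0.le (by rw [hq]; linarith)
  have hb0 : 1872 * qB + 6192 * pB ≤ 9103.5 := by linarith
  have hb1 : 8640 * pB - 576 * qB ≤ 10977.1 := by linarith
  have h4 : X * (1872 * qB + 6192 * pB) ≤ (0.85 + 1.107 * s) * 9103.5 :=
    mul_le_mul hX1 hb0 (by positivity) (by positivity)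
  have h5 : (s * X) * (8640 * pB - 576 * qB) ≤ (s * (0.85 + 1.107 * s)) * 10977.1 := by
    refine mul_le_mul (mul_le_mul_of_nonneg_left hX1 hs0) hb1 ?_ (by positivity)
    nlinarith
  have h6 : s ^ 2 ≤ 2.4143 * s := by nlinarith
  nlinarith [mul_nonneg hs0 (by linarith : (0 : ℝ) ≤ hB - 0.70710678),
      mul_nonneg hs2 (by linarith : (0 : ℝ) ≤ hB - 0.70710678)]

end vals

/-! ### real values along the path -/

theorem path_vals {s : ℝ} (hs : s ∈ Set.Icc 0 Lm) : Sf s ^ 2 = s ∧ 0 ≤ Cf s * Af s ∧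
    (Cf s * Af s) * (Cf s * Af s) = (1 + s) * (hB + (hB + 1 / 2) * s) ∧ 0 ≤ s ∧
    s ≤ 1 + 2 * hB := by
  have h0 : 0 ≤ s := hs.1
  have h1 : s ≤ 1 + 2 * hB := by
    rw [← Lm_eq]
    exact hs.2
  have hC : Cf s * Cf s = 1 + s := Real.mul_self_sqrt (by linarith)
  have hA : Af s * Af s = hB + (hB + 1 / 2) * s :=
    Real.mul_self_sqrt (by have := hB_pos; positivity)
  refine ⟨Real.sq_sqrt h0, mul_nonneg (Real.sqrt_nonneg _) (Real.sqrt_nonneg _), ?_, h0, h1⟩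
  calc (Cf s * Af s) * (Cf s * Af s) = (Cf s * Cf s) * (Af s * Af s) := by ring
    _ = _ := by rw [hC, hA]

theorem ne_of_real {z : ℂ} {x : ℝ} (h : z = (x : ℂ)) (hx : 0 < x) : z ≠ 0 := by
  rw [h]
  exact_mod_cast hx.ne'

variable {e : ℝ}

theorem edge1 (he : e * e = 1) {s : ℝ} (hs : s ∈ Set.Icc 0 Lm) : ∃ κ > 0, ∀ v, κ * n2 v ≤
    Q (MG 3 (-(5 * hB)) (5 * hB * e)) ((R2s s).mulVec v) - Q (MG 3 5 0) v := by
  have h1 := hB_lo
  have h2 := hB_hi
  have h3 := hB_sq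
  have hx := x0_sq
  have hx0 := x0_pos
  have hc : ((e : ℝ) : ℂ) * e = 1 := by
    rw [← Complex.ofReal_mul, he, Complex.ofReal_one]
  refine edge_pos ?_ ?_ ?_ s hs
  · show (0 : ℝ) < 3 + 2 * hB * 3 - 2 * x0 * (-(5 * hB)) - 3
    nlinarith [mul_pos hB_pos hx0]
  · have e2 : (3 + 2 * hB * 3 - 2 * x0 * (-(5 * hB)) - 3) ^ 2 - (((1 + 2 * hB) * (-(5 * hB)) - 2 * x0 * 3 + 5) ^ 2 + (0 - (5 * hB * e)) ^ 2) =
        14 * hB + 60 * (1 - hB) * x0 := by
      linear_combination (61 - 25 * e ^ 2 + 100 * x0 ^ 2 - 100 * hB - 100 * hB ^ 2) * h3 + 14 * hx + (-(25 / 2)) * he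
    have e3 : (0 : ℝ) < 14 * hB + 60 * (1 - hB) * x0 := by
      have h5 : 0 < (1 - hB) * x0 := mul_pos (by linarith) hx0
      nlinarith
    rw [← e2] at e3
    linarith
  · intro t ht
    obtain ⟨hS, hX0, hX, h0, h1L⟩ := path_vals ht
    refine ne_of_real (x := _) ?_ (pos1 h0 hX0 hX)
    have hv := val_E1 (rel_path ht) hc
    have hS' : ((Sf t : ℝ) : ℂ) ^ 2 = (t : ℂ) := by
      rw [← Complex.ofReal_pow, hS]
    have hS4 : ((Sf t : ℝ) : ℂ) ^ 4 = (t : ℂ) ^ 2 := by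
      rw [← hS']
      ring
    rw [hS', hS4] at hv
    push_cast
    ring_nf at hv ⊢
    exact hv

theorem edge2 {s : ℝ} (hs : s ∈ Set.Icc 0 Lm) : ∃ κ > 0, ∀ v, κ * n2 v ≤
    Q (MG 3 (-5) 0) ((R2s s).mulVec v) - Q (MG 3 5 0) v := by
  have h1 := hB_lo
  have h2 := hB_hi
  have h3 := hB_sq
  have hx := x0_sq
  have hx0 := x0_pos
  refine edge_pos ?_ ?_ ?_ s hs
  · show (0 : ℝ) < 3 + 2 * hB * 3 - 2 * x0 * (-5) - 3
    linarith [hB_pos, hx0]
  · have e2 : (3 + 2 * hB * 3 - 2 * x0 * (-5) - 3) ^ 2 - (((1 + 2 * hB) * (-5) - 2 * x0 * 3 + 5) ^ 2 + (0 - 0) ^ 2) =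
        64 * hB := by
      linear_combination (-64) * h3 + 64 * hx
    have e3 : (0 : ℝ) < 64 * hB := by
      linarith [hB_pos]
    rw [← e2] at e3
    linarith
  · intro t ht
    obtain ⟨hS, hX0, hX, h0, h1L⟩ := path_vals ht
    refine ne_of_real (x := _) ?_ (pos2 h0)
    have hv := val_E2 (rel_path ht)
    have hS' : ((Sf t : ℝ) : ℂ) ^ 2 = (t : ℂ) := by
      rw [← Complex.ofReal_pow, hS]
    have hS4 : ((Sf t : ℝ) : ℂ) ^ 4 = (t : ℂ) ^ 2 := by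
      rw [← hS']
      ring
    rw [hS', hS4] at hv
    push_cast
    ring_nf at hv ⊢
    exact hv

theorem edge3 (he : e * e = 1) {s : ℝ} (hs : s ∈ Set.Icc 0 Lm) : ∃ κ > 0, ∀ v, κ * n2 v ≤
    Q (MG 3 0 (-(5 * e))) ((R2s s).mulVec v) - Q (MG 0 3 (-(3 * e))) v := by
  have h1 := hB_lo
  have h2 := hB_hi
  have h3 := hB_sq
  have hx := x0_sq
  have hx0 := x0_pos
  have hc : ((e : ℝ) : ℂ) * e = 1 := by
    rw [← Complex.ofReal_mul, he, Complex.ofReal_one]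
  refine edge_pos ?_ ?_ ?_ s hs
  · show (0 : ℝ) < 3 + 2 * hB * 3 - 2 * x0 * 0 - 0
    linarith [hB_pos]
  · have e2 : (3 + 2 * hB * 3 - 2 * x0 * 0 - 0) ^ 2 - (((1 + 2 * hB) * 0 - 2 * x0 * 3 + 3) ^ 2 + ((-(3 * e)) - (-(5 * e))) ^ 2) =
        -4 + 36 * x0 := by
      linear_combination 36 * h3 + (-36) * hx + (-4) * he
    have e3 : (0 : ℝ) < -4 + 36 * x0 := by
      have h5 : 1 < x0 := by
        by_contra hc
        push Not at hc
        nlinarith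
      linarith
    rw [← e2] at e3
    linarith
  · intro t ht
    obtain ⟨hS, hX0, hX, h0, h1L⟩ := path_vals ht
    refine ne_of_real (x := _) ?_ (pos3 h0 h1L hX)
    have hv := val_E3 (rel_path ht) hc
    have hS' : ((Sf t : ℝ) : ℂ) ^ 2 = (t : ℂ) := by
      rw [← Complex.ofReal_pow, hS]
    have hS4 : ((Sf t : ℝ) : ℂ) ^ 4 = (t : ℂ) ^ 2 := by
      rw [← hS']
      ring
    rw [hS', hS4] at hv
    push_cast
    ring_nf at hv ⊢
    exact hv

theorem edge4 {s : ℝ} (hs : s ∈ Set.Icc 0 Lm) : ∃ κ > 0, ∀ v, κ * n2 v ≤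
    Q (MG 0 (-(6 * hB)) 0) ((R2s s).mulVec v) - Q (MG 3 5 0) v := by
  have h1 := hB_lo
  have h2 := hB_hi
  have h3 := hB_sq
  have hx := x0_sq
  have hx0 := x0_pos
  refine edge_pos ?_ ?_ ?_ s hs
  · show (0 : ℝ) < 0 + 2 * hB * 0 - 2 * x0 * (-(6 * hB)) - 3
    have h5 : 1.09 < x0 := by
      by_contra hc
      push Not at hc
      nlinarith
    nlinarith
  · have e2 : (0 + 2 * hB * 0 - 2 * x0 * (-(6 * hB)) - 3) ^ 2 - (((1 + 2 * hB) * (-(6 * hB)) - 2 * x0 * 0 + 5) ^ 2 + (0 - 0) ^ 2) =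
        26 + 60 * hB - 72 * hB * x0 := by
      linear_combination (12 + 144 * x0 ^ 2 - 144 * hB - 144 * hB ^ 2) * h3 + 72 * hx
    have e3 : (0 : ℝ) < 26 + 60 * hB - 72 * hB * x0 := by
      have h5 : x0 < 1.099 := by
        by_contra hc
        push Not at hc
        nlinarith
      nlinarith
    rw [← e2] at e3
    linarith
  · intro t ht
    obtain ⟨hS, hX0, hX, h0, h1L⟩ := path_vals ht
    refine ne_of_real (x := _) ?_ (pos4 h0 h1L hX)
    have hv := val_E4 (rel_path ht)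
    have hS' : ((Sf t : ℝ) : ℂ) ^ 2 = (t : ℂ) := by
      rw [← Complex.ofReal_pow, hS]
    have hS4 : ((Sf t : ℝ) : ℂ) ^ 4 = (t : ℂ) ^ 2 := by
      rw [← hS']
      ring
    rw [hS', hS4] at hv
    push_cast
    ring_nf at hv ⊢
    exact hv

theorem edge5 (he : e * e = 1) {s : ℝ} (hs : s ∈ Set.Icc 0 Lm) : ∃ κ > 0, ∀ v, κ * n2 v ≤
    Q (MG 0 (-3) (-(3 * e))) ((R2s s).mulVec v) - Q (MG 0 3 (-(3 * e))) v := by
  have h1 := hB_lo
  have h2 := hB_hi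
  have h3 := hB_sq
  have hx := x0_sq
  have hx0 := x0_pos
  have hc : ((e : ℝ) : ℂ) * e = 1 := by
    rw [← Complex.ofReal_mul, he, Complex.ofReal_one]
  refine edge_pos ?_ ?_ ?_ s hs
  · show (0 : ℝ) < 0 + 2 * hB * 0 - 2 * x0 * (-3) - 0
    linarith [hx0]
  · have e2 : (0 + 2 * hB * 0 - 2 * x0 * (-3) - 0) ^ 2 - (((1 + 2 * hB) * (-3) - 2 * x0 * 0 + 3) ^ 2 + ((-(3 * e)) - (-(3 * e))) ^ 2) =
        36 * hB := by
      linear_combination (-36) * h3 + 36 * hx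
    have e3 : (0 : ℝ) < 36 * hB := by
      linarith [hB_pos]
    rw [← e2] at e3
    linarith
  · intro t ht
    obtain ⟨hS, hX0, hX, h0, h1L⟩ := path_vals ht
    refine ne_of_real (x := _) ?_ (pos5 h0)
    have hv := val_E5 (rel_path ht) hc
    have hS' : ((Sf t : ℝ) : ℂ) ^ 2 = (t : ℂ) := by
      rw [← Complex.ofReal_pow, hS]
    have hS4 : ((Sf t : ℝ) : ℂ) ^ 4 = (t : ℂ) ^ 2 := by
      rw [← hS']
      ring
    rw [hS', hS4] at hv
    push_cast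
    ring_nf at hv ⊢
    exact hv

end Pool.Agent.AnB
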