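import Pool.Agent.AnB.CertB
import Pool.Agent.Hhelper63.AnT.EndB

/-!
The end points of the path: at `s = 0` the representation is conjugate to the tensor product of the
Fuchsian representation with the finite representation, at `s = 1 + √2` to the symmetric cube of the
Fuchsian representation.
-/

namespace Pool.Agent.AnB

open Pool.Agent.Hhelper63.AnT Matrix EndCAux

open Complex (I)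

/-- the relations of the constants -/
structure ERel (h p q a r3 : ℂ) : Prop where
  hh : h * h = 1 / 2
  hp : h * p = (p + q) / 2
  hq : h * q = (p - q) / 2
  pp : p * p = 1 + h
  qq : q * q = 1 - h
  pq : p * q = h
  ha : a * a = h
  h3 : r3 * r3 = 3

theorem kr_eq (b00 b01 b10 b11 a00 a01 a10 a11 : ℂ) :
    kr !![b00, b01; b10, b11] !![a00, a01; a10, a11] =
    mk4 (b00 * a00) (b00 * a01) (b01 * a00) (b01 * a01)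
      (b00 * a10) (b00 * a11) (b01 * a10) (b01 * a11)
      (b10 * a00) (b10 * a01) (b11 * a00) (b11 * a01)
      (b10 * a10) (b10 * a11) (b11 * a10) (b11 * a11) := rfl

theorem sym3_eq (a b c d : ℂ) : sym3 !![a, b; c, d] =
    mk4 (a ^ 3) (a ^ 2 * b) (a * b ^ 2) (b ^ 3)
      (3 * a ^ 2 * c) (a ^ 2 * d + 2 * a * b * c) (b ^ 2 * c + 2 * a * b * d) (3 * b ^ 2 * d)
      (3 * a * c ^ 2) (b * c ^ 2 + 2 * a * c * d) (a * d ^ 2 + 2 * b * c * d) (3 * b * d ^ 2)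
      (c ^ 3) (c ^ 2 * d) (c * d ^ 2) (d ^ 3) := rfl

/-- the reflections, complexified -/
noncomputable def rb (h a : ℂ) : Fin 3 → Matrix (Fin 2) (Fin 2) ℂ :=
  ![!![1, 0; 0, -1], !![-h, -h; -h, h], !![1 / 2, -(1 / 2 + h) + a; -(1 / 2 + h) - a, -(1 / 2)]]

/-- the finite representation -/
noncomputable def fb (h : ℂ) : Fin 3 → Matrix (Fin 2) (Fin 2) ℂ :=
  ![!![1, 0; 0, -1], !![0, 1; 1, 0],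
    !![-(1 / 2), -(1 / 2) - h * I; -(1 / 2) + h * I, 1 / 2]]

/-- the intertwiner at `s = 0` -/
noncomputable def A0m (h p q : ℂ) : M4 :=
  mk4 (-I^2) (I^2*h +I^3*h) (-(1/2)*I^2*q -(1/2)*I^2*p +(1/2)*I^3*q -(1/2)*I^3*p) ((1/2)*I^2*h*q +(1/2)*I^2*h*p +I^3*h*p -(1/2)*I^4*h*q +(1/2)*I^4*h*p) (I) (-I*h -I^2*h) (-(1/2)*I*q -(1/2)*I*p +(1/2)*I^2*q -(1/2)*I^2*p) ((1/2)*I*h*q +(1/2)*I*h*p +I^2*h*p -(1/2)*I^3*h*q +(1/2)*I^3*h*p) (-I) (-I*h -I^2*h) (-(1/2)*I*q -(1/2)*I*p +(1/2)*I^2*q -(1/2)*I^2*p) (-(1/2)*I*h*q -(1/2)*I*h*p -I^2*h*p +(1/2)*I^3*h*q -(1/2)*I^3*h*p) (1) (h +I*h) (-(1/2)*q -(1/2)*p +(1/2)*I*q -(1/2)*I*p) (-(1/2)*h*q -(1/2)*h*p -I*h*p +(1/2)*I^2*h*q -(1/2)*I^2*h*p)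

/-- its inverse -/
noncomputable def B0m (h p q : ℂ) : M4 :=
  mk4 ((1/16)*h^2*q^2 +(1/8)*h^2*p*q +(1/16)*h^2*p^2 -(1/8)*I^2*h^2*q^2 -(1/8)*I^2*h^2*p^2 +(1/16)*I^4*h^2*q^2 -(1/8)*I^4*h^2*p*q +(1/16)*I^4*h^2*p^2) (-(1/16)*I*h^2*q^2 -(1/8)*I*h^2*p*q -(1/16)*I*h^2*p^2 +(1/8)*I^3*h^2*q^2 +(1/8)*I^3*h^2*p^2 -(1/16)*I^5*h^2*q^2 +(1/8)*I^5*h^2*p*q -(1/16)*I^5*h^2*p^2) ((1/16)*I*h^2*q^2 +(1/8)*I*h^2*p*q +(1/16)*I*h^2*p^2 -(1/8)*I^3*h^2*q^2 -(1/8)*I^3*h^2*p^2 +(1/16)*I^5*h^2*q^2 -(1/8)*I^5*h^2*p*q +(1/16)*I^5*h^2*p^2) (-(1/16)*I^2*h^2*q^2 -(1/8)*I^2*h^2*p*q -(1/16)*I^2*h^2*p^2 +(1/8)*I^4*h^2*q^2 +(1/8)*I^4*h^2*p^2 -(1/16)*I^6*h^2*q^2 +(1/8)*I^6*h^2*p*q -(1/16)*I^6*h^2*p^2) (-(1/16)*h*q^2 -(1/8)*h*p*q -(1/16)*h*p^2 +(1/16)*I*h*q^2 +(1/8)*I*h*p*q +(1/16)*I*h*p^2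 +(1/16)*I^2*h*q^2 -(1/8)*I^2*h*p*q +(1/16)*I^2*h*p^2 -(1/16)*I^3*h*q^2 +(1/8)*I^3*h*p*q -(1/16)*I^3*h*p^2) ((1/16)*I*h*q^2 +(1/8)*I*h*p*q +(1/16)*I*h*p^2 -(1/16)*I^2*h*q^2 -(1/8)*I^2*h*p*q -(1/16)*I^2*h*p^2 -(1/16)*I^3*h*q^2 +(1/8)*I^3*h*p*q -(1/16)*I^3*h*p^2 +(1/16)*I^4*h*q^2 -(1/8)*I^4*h*p*q +(1/16)*I^4*h*p^2) ((1/16)*I*h*q^2 +(1/8)*I*h*p*q +(1/16)*I*h*p^2 -(1/16)*I^2*h*q^2 -(1/8)*I^2*h*p*q -(1/16)*I^2*h*p^2 -(1/16)*I^3*h*q^2 +(1/8)*I^3*h*p*q -(1/16)*I^3*h*p^2 +(1/16)*I^4*h*q^2 -(1/8)*I^4*h*p*q +(1/16)*I^4*h*p^2) (-(1/16)*I^2*h*q^2 -(1/8)*I^2*h*p*q -(1/16)*I^2*h*p^2 +(1/16)*I^3*h*q^2 +(1/8)*I^3*h*p*q +(1/16)*I^3*h*p^2 +(1/16)*I^4*h*q^2 -(1/8)*I^4*h*p*q +(1/16)*I^4*h*p^2 -(1/16)*I^5*h*q^2 +(1/8)*I^5*h*p*q -(1/16)*I^5*h*p^2) ((1/8)*h^2*q +(1/8)*h^2*p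 +(1/8)*I*h^2*q -(1/8)*I*h^2*p -(1/8)*I^2*h^2*q -(1/8)*I^2*h^2*p -(1/8)*I^3*h^2*q +(1/8)*I^3*h^2*p) ((1/8)*I*h^2*q +(1/8)*I*h^2*p +(1/8)*I^2*h^2*q -(1/8)*I^2*h^2*p -(1/8)*I^3*h^2*q -(1/8)*I^3*h^2*p -(1/8)*I^4*h^2*q +(1/8)*I^4*h^2*p) ((1/8)*I*h^2*q +(1/8)*I*h^2*p +(1/8)*I^2*h^2*q -(1/8)*I^2*h^2*p -(1/8)*I^3*h^2*q -(1/8)*I^3*h^2*p -(1/8)*I^4*h^2*q +(1/8)*I^4*h^2*p) ((1/8)*I^2*h^2*q +(1/8)*I^2*h^2*p +(1/8)*I^3*h^2*q -(1/8)*I^3*h^2*p -(1/8)*I^4*h^2*q -(1/8)*I^4*h^2*p -(1/8)*I^5*h^2*q +(1/8)*I^5*h^2*p) (-(1/8)*h*q -(1/8)*h*p +(1/4)*I*h*p +(1/8)*I^2*h*q -(1/8)*I^2*h*p) (-(1/8)*I*h*q -(1/8)*I*h*p +(1/4)*I^2*h*p +(1/8)*I^3*h*q -(1/8)*I^3*h*p) ((1/8)*I*h*q +(1/8)*I*h*p -(1/4)*I^2*h*p -(1/8)*I^3*h*q +(1/8)*I^3*h*p) ((1/8)*I^2*h*q +(1/8)*I^2*h*p -(1/4)*I^3*h*p -(1/8)*I^4*h*q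 +(1/8)*I^4*h*p)

theorem A0B0 {h p q a r3 : ℂ} (r : ERel h p q a r3) :
    A0m h p q * B0m h p q = 1 := by
  obtain ⟨hh, hp, hq, pp, qq, pq, ha, h3⟩ := r
  have hI : I * I = -1 := Complex.I_mul_I
  rw [A0m, B0m, mk4_mul, mk4_one]
  apply mk4_ext
  · linear_combination (-h^2*q^2 -h^2*p^2 +(3/4)*I^2*h^2*q^2 -(1/2)*I^2*h^2*p*q +(3/4)*I^2*h^2*p^2 -(1/4)*I^4*h^2*q^2 +(1/2)*I^4*h^2*p*q -(1/4)*I^4*h^2*p^2) * hI + (q^2 +p^2) * hh + ((1/2)) * pp + ((1/2)) * qq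
  · ring
  · ring
  · ring
  · ring
  · linear_combination (-h^2*q^2 -h^2*p^2 +(3/4)*I^2*h^2*q^2 -(1/2)*I^2*h^2*p*q +(3/4)*I^2*h^2*p^2 -(1/4)*I^4*h^2*q^2 +(1/2)*I^4*h^2*p*q -(1/4)*I^4*h^2*p^2) * hI + (q^2 +p^2) * hh + ((1/2)) * pp + ((1/2)) * qq
  · ring
  · ring
  · ring
  · ring
  · linear_combination (-h^2*q^2 -h^2*p^2 +(3/4)*I^2*h^2*q^2 -(1/2)*I^2*h^2*p*q +(3/4)*I^2*h^2*p^2 -(1/4)*I^4*h^2*q^2 +(1/2)*I^4*h^2*p*q -(1/4)*I^4*h^2*p^2) * hI + (q^2 +p^2) * hh + ((1/2)) * pp + ((1/2)) * qq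
  · ring
  · ring
  · ring
  · ring
  · linear_combination (-h^2*q^2 -h^2*p^2 +(3/4)*I^2*h^2*q^2 -(1/2)*I^2*h^2*p*q +(3/4)*I^2*h^2*p^2 -(1/4)*I^4*h^2*q^2 +(1/2)*I^4*h^2*p*q -(1/4)*I^4*h^2*p^2) * hI + (q^2 +p^2) * hh + ((1/2)) * pp + ((1/2)) * qq

theorem e0_0 {h p q a r3 : ℂ} (r : ERel h p q a r3) :
    A0m h p q * R0 p q = kr (fb h 0) (rb h a 0) * A0m h p q := by
  obtain ⟨hh, hp, hq, pp, qq, pq, ha, h3⟩ := r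
  have hI : I * I = -1 := Complex.I_mul_I
  change A0m h p q * R0 p q = kr !![1, 0; 0, -1] !![1, 0; 0, -1] * A0m h p q
  rw [kr_eq, A0m, R0, mk4_mul, mk4_mul]
  apply mk4_ext
  · linear_combination (1 +(1/2)*h*q^2 -h*p*q -(1/2)*h*p^2 +(1/2)*I*h*q^2 +I*h*p*q -(1/2)*I*h*p^2 -(1/4)*I^2*h*q^2 +I^2*h*p*q +(1/4)*I^2*h*p^2 -(1/4)*I^3*h*q^2 +(1/4)*I^3*h*p^2) * hI + (q +(1/2)*p -I*q +(1/2)*I*p) * hp + (-(1/2)*q -(1/2)*I*q) * hq + ((1/4) +(1/4)*I) * pp + ((3/4) -(1/4)*I) * qq + ((1/2) -(1/2)*I) * pq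
  · linear_combination (p*q -h -(1/2)*I*q^2 +(1/2)*I*p^2 -I*h +(1/4)*I^2*q^2 -(1/2)*I^2*p*q +(1/4)*I^2*p^2) * hI + (-(1/2)*I) * pp + ((1/2)*I) * qq + (-1) * pq
  · linear_combination ((1/2)*q +(1/2)*p -h*p -(1/2)*I*q +(1/2)*I*p -I*h*q -(1/2)*I^2*h*q +(1/2)*I^2*h*p) * hI + (1) * hp + (I) * hq
  · linear_combination (-(1/2)*q +(1/2)*p -h*q +(1/2)*I*q +(1/2)*I*p -I*h*p +(1/2)*I^2*h*q -(1/2)*I^2*h*p) * hI + (I) * hp + (1) * hq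
  · linear_combination ((1/2)*h*q^2 +h*p*q -(1/2)*h*p^2 -(1/4)*I*h*q^2 +I*h*p*q +(1/4)*I*h*p^2 -(1/4)*I^2*h*q^2 +(1/4)*I^2*h*p^2) * hI + (-q +(1/2)*p -I*q -(1/2)*I*p) * hp + (-(1/2)*q +(1/2)*I*q) * hq + ((1/4) -(1/4)*I) * pp + (-(1/4) -(3/4)*I) * qq + (-(1/2) -(1/2)*I) * pq
  · linear_combination (-(1/2)*q^2 +(1/2)*p^2 -h +(1/4)*I*q^2 -(1/2)*I*p*q +(1/4)*I*p^2) * hI + (-(1/2)) * pp + ((1/2)) * qq + (I) * pq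
  · linear_combination ((1/2)*q -(1/2)*p +h*q +(1/2)*I*h*q -(1/2)*I*h*p) * hI + (I) * hp + (-1) * hq
  · linear_combination (-(1/2)*q -(1/2)*p +h*p -(1/2)*I*h*q +(1/2)*I*h*p) * hI + (-1) * hp + (I) * hq
  · linear_combination (-(1/2)*h*q^2 -h*p*q +(1/2)*h*p^2 +(1/4)*I*h*q^2 -I*h*p*q -(1/4)*I*h*p^2 +(1/4)*I^2*h*q^2 -(1/4)*I^2*h*p^2) * hI + (q -(1/2)*p +I*q +(1/2)*I*p) * hp + ((1/2)*q -(1/2)*I*q) * hq + (-(1/4) +(1/4)*I) * pp + ((1/4) +(3/4)*I) * qq + ((1/2) +(1/2)*I) * pq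
  · linear_combination (-(1/2)*q^2 +(1/2)*p^2 -h +(1/4)*I*q^2 -(1/2)*I*p*q +(1/4)*I*p^2) * hI + (-(1/2)) * pp + ((1/2)) * qq + (I) * pq
  · linear_combination ((1/2)*q -(1/2)*p +h*q +(1/2)*I*h*q -(1/2)*I*h*p) * hI + (I) * hp + (-1) * hq
  · linear_combination ((1/2)*q +(1/2)*p -h*p +(1/2)*I*h*q -(1/2)*I*h*p) * hI + (1) * hp + (-I) * hq
  · linear_combination ((1/4)*h*q^2 -h*p*q -(1/4)*h*p^2 +(1/4)*I*h*q^2 -(1/4)*I*h*p^2) * hI + (q +(1/2)*p -I*q +(1/2)*I*p) * hp + (-(1/2)*q -(1/2)*I*q) * hq + ((1/4) +(1/4)*I) * pp + ((3/4) -(1/4)*I) * qq + ((1/2) -(1/2)*I) * pq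
  · linear_combination ((1/4)*q^2 -(1/2)*p*q +(1/4)*p^2) * hI + ((1/2)*I) * pp + (-(1/2)*I) * qq + (1) * pq
  · linear_combination (-(1/2)*h*q +(1/2)*h*p) * hI + (-1) * hp + (-I) * hq
  · linear_combination (-(1/2)*h*q +(1/2)*h*p) * hI + (I) * hp + (1) * hq

theorem e0_1 {h p q a r3 : ℂ} (r : ERel h p q a r3) :
    A0m h p q * R1 p q = kr (fb h 1) (rb h a 1) * A0m h p q := by
  obtain ⟨hh, hp, hq, pp, qq, pq, ha, h3⟩ := r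
  have hI : I * I = -1 := Complex.I_mul_I
  change A0m h p q * R1 p q = kr !![0, 1; 1, 0] !![-h, -h; -h, h] * A0m h p q
  rw [kr_eq, A0m, R1, mk4_mul, mk4_mul]
  apply mk4_ext
  · linear_combination ((1/2)*h*q^2 +(1/2)*h*p^2 -(1/2)*I*h*q^2 -(1/2)*I*h*p^2 -(1/4)*I^2*h*q^2 -(3/4)*I^2*h*p^2 +(1/4)*I^3*h*q^2 -(1/4)*I^3*h*p^2) * hI + (-(1/2)*p +(1/2)*I*p) * hp + (-(1/2)*q +(1/2)*I*q) * hq + (-(1/4) +(1/4)*I) * pp + ((1/4) -(1/4)*I) * qq + (-(1/2) +(1/2)*I) * pq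
  · linear_combination ((1/2)*q^2 +(1/2)*p^2 -h^2 -(1/4)*I^2*q^2 +(1/2)*I^2*p*q -(1/4)*I^2*p^2) * hI + (2) * hh + (-(1/2)) * pp + (-(1/2)) * qq
  · linear_combination (-(1/2)*h*q -(1/2)*h*p -I*h*p +(1/2)*I^2*h*q -(1/2)*I^2*h*p) * hI
  · linear_combination (-(1/2)*q +(1/2)*p +(1/2)*h^2*q -(3/2)*h^2*p -(1/2)*I*q -(1/2)*I*p +(1/2)*I*h^2*q -(1/2)*I*h^2*p) * hI + (-q +p -I*q -I*p) * hh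
  · linear_combination (-(1/2)*h*q^2 -(1/2)*h*p^2 -(1/4)*I*h*q^2 -(3/4)*I*h*p^2 +(1/4)*I^2*h*q^2 -(1/4)*I^2*h*p^2) * hI + ((1/2)*p +(1/2)*I*p) * hp + ((1/2)*q +(1/2)*I*q) * hq + ((1/4) +(1/4)*I) * pp + (-(1/4) -(1/4)*I) * qq + ((1/2) +(1/2)*I) * pq
  · linear_combination (-h^2 -(1/4)*I*q^2 +(1/2)*I*p*q -(1/4)*I*p^2) * hI + (-2*I) * hh + ((1/2)*I) * pp + ((1/2)*I) * qq
  · linear_combination ((1/2)*h*q +(1/2)*h*p -(1/2)*I*h*q +(1/2)*I*h*p) * hI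
  · linear_combination ((1/2)*q +(1/2)*p -(1/2)*h^2*q -(1/2)*h^2*p +(1/2)*I*h^2*q -(1/2)*I*h^2*p) * hI + (q +p -I*q +I*p) * hh
  · linear_combination (-h +(1/2)*h*q^2 +(1/2)*h*p^2 +(1/4)*I*h*q^2 +(3/4)*I*h*p^2 -(1/4)*I^2*h*q^2 +(1/4)*I^2*h*p^2) * hI + (-(1/2)*p -(1/2)*I*p) * hp + (-(1/2)*q -(1/2)*I*q) * hq + (-(1/4) -(1/4)*I) * pp + ((1/4) +(1/4)*I) * qq + (-(1/2) -(1/2)*I) * pq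
  · linear_combination (-(1/4)*I*q^2 +(1/2)*I*p*q -(1/4)*I*p^2 +I*h^2) * hI + (-2*I) * hh + ((1/2)*I) * pp + ((1/2)*I) * qq
  · ring
  · linear_combination (-(1/2)*q -(1/2)*p +h^2*q +h^2*p -(1/2)*I*h^2*q +(3/2)*I*h^2*p -(1/2)*I^2*h^2*q +(1/2)*I^2*h^2*p) * hI + (-q -p +I*q -I*p) * hh
  · linear_combination (-h +(1/4)*h*q^2 +(3/4)*h*p^2 -(1/4)*I*h*q^2 +(1/4)*I*h*p^2) * hI + (-(1/2)*p +(1/2)*I*p) * hp + (-(1/2)*q +(1/2)*I*q) * hq + (-(1/4) +(1/4)*I) * pp + ((1/4) -(1/4)*I) * qq + (-(1/2) +(1/2)*I) * pq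
  · linear_combination (-(1/4)*q^2 +(1/2)*p*q -(1/4)*p^2 +2*h^2 +I*h^2) * hI + (-2) * hh + ((1/2)) * pp + ((1/2)) * qq
  · linear_combination (-(1/2)*h*q -(1/2)*h*p +(1/2)*I*h*q -(1/2)*I*h*p) * hI
  · linear_combination (h^2*q -h^2*p +(1/2)*I*h^2*q +(1/2)*I*h^2*p -(1/2)*I^2*h^2*q +(1/2)*I^2*h^2*p) * hI + (-q +p -I*q -I*p) * hh

theorem e0_2 {h p q a r3 : ℂ} (r : ERel h p q a r3) :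
    A0m h p q * R2 h p q 1 0 a h = kr (fb h 2) (rb h a 2) * A0m h p q := by
  obtain ⟨hh, hp, hq, pp, qq, pq, ha, h3⟩ := r
  have hI : I * I = -1 := Complex.I_mul_I
  change A0m h p q * R2 h p q 1 0 a h = kr !![-(1 / 2), -(1 / 2) - h * I; -(1 / 2) + h * I, 1 / 2]
    !![1 / 2, -(1 / 2 + h) + a; -(1 / 2 + h) - a, -(1 / 2)] * A0m h p q
  rw [kr_eq, A0m, R2, mk4_mul, mk4_mul]
  apply mk4_ext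
  · linear_combination (-(1/4) -(1/2)*h -(1/2)*h*p*q +(1/2)*h*p^2 +h^2*a -h^2*p*q +I*h*a -(1/2)*I*h*p*q -(1/2)*I*h*p^2 +I*h^2*a -I*h^2*p^2 +(1/2)*I^2*h*p*q -(1/2)*I^2*h*p^2 +(1/2)*I^2*h^2*p*q -(1/2)*I^2*h^2*p^2) * hI + (-a +p*q -I -I*a +I*p^2) * hh + ((1/2)*q -(1/2)*p +(1/2)*I*q +(1/2)*I*p) * hp + (-(1/4) +(3/4)*I) * pp + ((1/4) +(1/4)*I) * qq + ((1/2) +(1/2)*I) * pq
  · linear_combination ((1/4)*h +(1/2)*h*a -(1/2)*h*p*q -(1/2)*h*p^2 -(1/2)*h^2 +h^2*p^2 -h^3 +(1/4)*I*h +(1/2)*I*h*p*q -(1/2)*I*h*p^2 -(1/2)*I*h^2 +I*h^2*a -I*h^2*p*q +I^2*h^2*a -I^2*h^2*p^2 +(1/2)*I^3*h^2*p*q -(1/2)*I^3*h^2*p^2) * hI + (-p^2 +h +I*p*q -I*h) * hh + ((1/2)*q +(1/2)*p -(1/2)*I*q +(1/2)*I*p) * hp + (-(1/4) +(1/4)*I) * pp + ((1/4) -(1/4)*I) * qq + ((1/2) +(1/2)*I) * pq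
  · linear_combination (-(1/8)*q +(1/4)*q*a -(1/8)*p -(1/4)*p*a -(3/4)*h*q +(1/4)*h*p -(1/2)*h^2*q -h^2*q*a +(3/2)*h^2*p +(1/8)*I*q -(1/8)*I*p +(1/4)*I*h*q -(1/2)*I*h*q*a +(3/4)*I*h*p -(1/2)*I*h*p*a +I*h^2*p -I*h^2*p*a +(1/2)*I^2*h*q*a -(1/2)*I^2*h*p*a +(1/2)*I^2*h^2*q*a -(1/2)*I^2*h^2*p*a) * hI + ((1/2)*q +q*a -(3/2)*p +(1/2)*I*q -(1/2)*I*p +I*p*a) * hh + (1) * hq
  · linear_combination ((1/8)*h*q -(1/4)*h*q*a +(5/8)*h*p -(1/4)*h*p*a -(3/4)*h^2*q -(3/4)*h^2*p +h^3*p +(1/4)*I*h*q +(1/4)*I*h*q*a -(1/4)*I*h*p*a -(1/2)*I*h^2*q*a +(1/2)*I*h^2*p -(1/2)*I*h^2*p*a -(1/2)*I*h^3*q +(1/2)*I*h^3*p -(1/8)*I^2*h*q +(1/8)*I^2*h*p +(1/4)*I^2*h^2*q +(3/4)*I^2*h^2*p -I^2*h^2*p*a +(1/2)*I^3*h^2*q*a -(1/2)*I^3*h^2*p*a) * hI + (q +p -h*p +I*h*q) * hh + (-1) * hp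
  · linear_combination ((1/4) +(1/2)*a +h -(1/2)*h*p*q -(1/2)*h*p^2 +h^2 -h^2*a -h^2*p^2 +(1/2)*I*h*p*q -(1/2)*I*h*p^2 +(1/2)*I*h^2*p*q -(1/2)*I*h^2*p^2) * hI + (-1 +a +p^2 -I*a -I*p*q) * hh + ((1/2)*q +(1/2)*p -(1/2)*I*q +(1/2)*I*p) * hp + ((3/4) +(1/4)*I) * pp + ((1/4) -(1/4)*I) * qq + ((1/2) -(1/2)*I) * pq
  · linear_combination ((1/4)*h +(1/2)*h*p*q -(1/2)*h*p^2 -h^2*p*q +h^3 -(1/4)*I*h -(1/2)*I*h*a -I*h^2*p^2 +I*h^3 +(1/2)*I^2*h^2*p*q -(1/2)*I^2*h^2*p^2) * hI + (p*q -h +I*p^2 -I*h) * hh + (-(1/2)*q +(1/2)*p -(1/2)*I*q -(1/2)*I*p) * hp + ((1/4) +(1/4)*I) * pp + (-(1/4) -(1/4)*I) * qq + ((1/2) -(1/2)*I) * pq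
  · linear_combination (-(1/8)*q +(3/8)*p +(1/2)*p*a +(1/2)*h^2*q -(1/2)*h^2*p -h^2*p*a -(1/8)*I*q -(1/4)*I*q*a +(1/8)*I*p +(1/4)*I*p*a -(1/2)*I*h*q +(1/2)*I*h*p -(1/2)*I*h^2*q +(1/2)*I*h^2*q*a +(1/2)*I*h^2*p -(1/2)*I*h^2*p*a) * hI + (-(1/2)*q +(1/2)*p +p*a +(1/2)*I*q -I*q*a -(3/2)*I*p) * hh + (I) * hq
  · linear_combination (-(3/8)*h*q +(1/8)*h*p +h^3*q -(1/4)*I*h*q*a -(1/4)*I*h*p -(1/4)*I*h*p*a -(1/2)*I*h^2*q -(1/2)*I*h^2*p +I*h^3*p +(1/8)*I^2*h*q +(1/4)*I^2*h*q*a -(1/8)*I^2*h*p -(1/4)*I^2*h*p*a -(1/2)*I^2*h^3*q +(1/2)*I^2*h^3*p) * hI + (-h*q +I*q +I*p -I*h*p) * hh + (-I) * hp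
  · linear_combination (-(1/4) +(1/2)*h -(1/2)*h*p*q -(1/2)*h*p^2 +h^2 -h^2*a +h^2*p^2 +(1/2)*I*h +(1/2)*I*h*p*q -(1/2)*I*h*p^2 -(1/2)*I*h^2*p*q +(1/2)*I*h^2*p^2) * hI + (-1 +a -p^2 -I*a +I*p*q) * hh + ((1/2)*q +(1/2)*p -(1/2)*I*q +(1/2)*I*p) * hp + (-(1/4) +(1/4)*I) * pp + ((1/4) -(1/4)*I) * qq + ((1/2) +(1/2)*I) * pq
  · linear_combination ((3/4)*h -(1/2)*h*a +(1/2)*h*p*q -(1/2)*h*p^2 +(1/2)*h^2 +h^2*p*q -h^3 +(1/4)*I*h -I*h^2 +I*h^2*p^2 -I*h^3 -(1/2)*I^2*h^2 -(1/2)*I^2*h^2*p*q +(1/2)*I^2*h^2*p^2) * hI + (-p*q +h +2*I -I*p^2 +I*h) * hh + (-(1/2)*q +(1/2)*p -(1/2)*I*q -(1/2)*I*p) * hp + ((1/4) -(3/4)*I) * pp + (-(1/4) -(1/4)*I) * qq + (-(1/2) -(1/2)*I) * pq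
  · linear_combination (-(3/8)*q +(1/4)*q*a +(1/8)*p -(1/4)*p*a -(1/4)*h*q +(3/4)*h*p -(1/2)*h^2*q -(3/2)*h^2*p +h^2*p*a +(1/8)*I*q -(1/8)*I*p +(1/2)*I*h*q +(1/2)*I*h^2*q -(1/2)*I*h^2*q*a -(1/2)*I*h^2*p +(1/2)*I*h^2*p*a -(1/4)*I^2*h*q +(1/4)*I^2*h*p) * hI + ((1/2)*q +(3/2)*p -p*a -(1/2)*I*q +I*q*a -(1/2)*I*p) * hh + (-1) * hp
  · linear_combination ((3/8)*h*q +(1/4)*h*q*a -(1/8)*h*p +(1/4)*h*p*a +(3/4)*h^2*q -(5/4)*h^2*p +h^3*q -(1/4)*I*h*q*a +(1/4)*I*h*p +(1/4)*I*h*p*a -(1/4)*I*h^2*q -(3/4)*I*h^2*p +I*h^3*p -(1/8)*I^2*h*q +(1/8)*I^2*h*p -(1/4)*I^2*h^2*q -(1/4)*I^2*h^2*p -(1/2)*I^2*h^3*q +(1/2)*I^2*h^3*p +(1/4)*I^3*h^2*q -(1/4)*I^3*h^2*p) * hI + (-q +p -h*q -I*h*p) * hh + (-1) * hq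
  · linear_combination ((1/4) +(1/2)*a +h +(1/2)*h*p*q -(1/2)*h*p^2 -(1/2)*h^2*p*q +(1/2)*h^2*p^2 -(1/2)*I*h -I*h*a -I*h^2) * hI + (a +p*q +I +I*a +I*p^2) * hh + (-(1/2)*q +(1/2)*p -(1/2)*I*q -(1/2)*I*p) * hp + ((1/4) +(1/4)*I) * pp + (-(1/4) -(1/4)*I) * qq + ((1/2) -(1/2)*I) * pq
  · linear_combination (-(1/4)*h -h*a -2*h^2 +h^2*p^2 -h^3 -(1/4)*I*h -(1/2)*I*h*a -(1/2)*I*h^2 +I*h^2*a -(1/2)*I*h^2*p*q +(1/2)*I*h^2*p^2 +I*h^3 +(1/2)*I^2*h^2 +I^2*h^2*a +I^2*h^3) * hI + (2 -p^2 +h +I*p*q -I*h) * hh + (-(1/2)*q -(1/2)*p +(1/2)*I*q -(1/2)*I*p) * hp + (-(3/4) -(1/4)*I) * pp + (-(1/4) +(1/4)*I) * qq + (-(1/2) +(1/2)*I) * pq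
  · linear_combination ((1/8)*q +(1/2)*q*a +(1/8)*p -(1/2)*h^2*q -(1/2)*h^2*q*a +(1/2)*h^2*p +(1/2)*h^2*p*a -(1/8)*I*q -(1/4)*I*q*a +(1/8)*I*p +(1/4)*I*p*a -(1/4)*I*h*q -(1/2)*I*h*q*a -(1/4)*I*h*p -(1/2)*I*h*p*a -(1/2)*I*h^2*q -(1/2)*I*h^2*p +(1/4)*I^2*h*q +(1/2)*I^2*h*q*a -(1/4)*I^2*h*p -(1/2)*I^2*h*p*a +(1/2)*I^2*h^2*q -(1/2)*I^2*h^2*p) * hI + ((1/2)*q +q*a +(1/2)*p +(1/2)*I*q +(3/2)*I*p +I*p*a) * hh + (-I) * hp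
  · linear_combination (-(1/8)*h*q -(1/2)*h*q*a -(5/8)*h*p -(1/2)*h*p*a -h^3*p +(1/4)*I*h*q +(1/4)*I*h*q*a -(1/2)*I*h*p -(3/4)*I*h*p*a +(3/4)*I*h^2*q +(1/2)*I*h^2*q*a -(1/4)*I*h^2*p +(1/2)*I*h^2*p*a +I*h^3*q +(1/8)*I^2*h*q +(1/4)*I^2*h*q*a -(1/8)*I^2*h*p -(1/4)*I^2*h*p*a +(1/2)*I^2*h^2*p +I^2*h^2*p*a +I^2*h^3*p -(1/4)*I^3*h^2*q -(1/2)*I^3*h^2*q*a +(1/4)*I^3*h^2*p +(1/2)*I^3*h^2*p*a -(1/2)*I^3*h^3*q +(1/2)*I^3*h^3*p) * hI + (h*p -I*q +I*p -I*h*q) * hh + (-I) * hq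

/-- the monomial part of the intertwiner at the other end -/
noncomputable def Tm (r3 : ℂ) : M4 :=
  mk4 (0) (0) (1) (0) (-I*r3) (0) (0) (0) (0) (0) (0) (I*r3) (0) (1) (0) (0)

noncomputable def Tmi (r3 : ℂ) : M4 :=
  mk4 (0) ((1/3)*I*r3) (0) (0) (0) (0) (0) (1) (1) (0) (0) (0) (0) (0) (-(1/3)*I*r3) (0)

theorem TTi {h p q a r3 : ℂ} (r : ERel h p q a r3) :
    Tm r3 * Tmi r3 = 1 := by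
  obtain ⟨hh, hp, hq, pp, qq, pq, ha, h3⟩ := r
  have hI : I * I = -1 := Complex.I_mul_I
  rw [Tm, Tmi, mk4_mul, mk4_one]
  apply mk4_ext
  · ring
  · ring
  · ring
  · ring
  · ring
  · linear_combination (-(1/3)*r3^2) * hI + ((1/3)) * h3
  · ring
  · ring
  · ring
  · ring
  · linear_combination (-(1/3)*r3^2) * hI + ((1/3)) * h3
  · ring
  · ring
  · ring
  · ring
  · ring

/-- the reflections in another basis -/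
noncomputable def mb (p q a : ℂ) : Fin 3 → Matrix (Fin 2) (Fin 2) ℂ :=
  ![!![0, (p - q) / 2 + I * ((p + q) / 2); (p - q) / 2 - I * ((p + q) / 2), 0],
    !![0, (p - q) / 2 - I * ((p + q) / 2); (p - q) / 2 + I * ((p + q) / 2), 0],
    !![-(I * a), p; p, I * a]]

noncomputable def Yi (p q : ℂ) : Matrix (Fin 2) (Fin 2) ℂ :=
  !![-(I * ((p + q) / 2 + I * ((p - q) / 2))), 1; -((p + q) / 2 + I * ((p - q) / 2)), I]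

theorem t_0 {h p q a r3 : ℂ} (r : ERel h p q a r3) :
    Tm r3 * R0 p q = sym3 (mb p q a 0) * Tm r3 := by
  obtain ⟨hh, hp, hq, pp, qq, pq, ha, h3⟩ := r
  have hI : I * I = -1 := Complex.I_mul_I
  change Tm r3 * R0 p q = sym3 !![0, (p - q) / 2 + I * ((p + q) / 2); (p - q) / 2 - I * ((p + q) / 2), 0] * Tm r3
  rw [sym3_eq, Tm, R0, mk4_mul, mk4_mul]
  apply mk4_ext
  · ring
  · linear_combination ((3/8)*q^3 +(3/8)*p*q^2 -(3/8)*p^2*q -(3/8)*p^3 -(1/8)*I*q^3 -(3/8)*I*p*q^2 -(3/8)*I*p^2*q -(1/8)*I*p^3) * hI + (1 -I) * hp + (1 +I) * hq + ((3/4)*q +(1/4)*p +(3/4)*I*q -(1/4)*I*p) * pp + (-(1/4)*q -(3/4)*p -(1/4)*I*q +(3/4)*I*p) * qq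
  · ring
  · ring
  · ring
  · ring
  · ring
  · linear_combination ((1/2)*q*r3 -(1/4)*q^3*r3 +(1/2)*p*r3 -(1/4)*p*q^2*r3 -(1/4)*p^2*q*r3 -(1/4)*p^3*r3 -(1/8)*I*q^3*r3 -(1/8)*I*p*q^2*r3 +(1/8)*I*p^2*q*r3 +(1/8)*I*p^3*r3 +(1/8)*I^2*q^3*r3 +(3/8)*I^2*p*q^2*r3 +(3/8)*I^2*p^2*q*r3 +(1/8)*I^2*p^3*r3) * hI + ((1/4)*q*r3 +(1/4)*p*r3 +(1/4)*I*q*r3 -(1/4)*I*p*r3) * pp + ((1/4)*q*r3 +(1/4)*p*r3 +(1/4)*I*q*r3 -(1/4)*I*p*r3) * qq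
  · linear_combination ((1/2)*q*r3 -(1/4)*q^3*r3 +(1/2)*p*r3 -(1/4)*p*q^2*r3 -(1/4)*p^2*q*r3 -(1/4)*p^3*r3 +(1/8)*I*q^3*r3 +(1/8)*I*p*q^2*r3 -(1/8)*I*p^2*q*r3 -(1/8)*I*p^3*r3 +(1/8)*I^2*q^3*r3 +(3/8)*I^2*p*q^2*r3 +(3/8)*I^2*p^2*q*r3 +(1/8)*I^2*p^3*r3) * hI + ((1/4)*q*r3 +(1/4)*p*r3 -(1/4)*I*q*r3 +(1/4)*I*p*r3) * pp + ((1/4)*q*r3 +(1/4)*p*r3 -(1/4)*I*q*r3 +(1/4)*I*p*r3) * qq
  · ring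
  · ring
  · ring
  · ring
  · ring
  · linear_combination ((3/8)*q^3 +(3/8)*p*q^2 -(3/8)*p^2*q -(3/8)*p^3 +(1/8)*I*q^3 +(3/8)*I*p*q^2 +(3/8)*I*p^2*q +(1/8)*I*p^3) * hI + (1 +I) * hp + (1 -I) * hq + ((3/4)*q +(1/4)*p -(3/4)*I*q +(1/4)*I*p) * pp + (-(1/4)*q -(3/4)*p +(1/4)*I*q -(3/4)*I*p) * qq
  · ring

theorem t_1 {h p q a r3 : ℂ} (r : ERel h p q a r3) :
    Tm r3 * R1 p q = sym3 (mb p q a 1) * Tm r3 := by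
  obtain ⟨hh, hp, hq, pp, qq, pq, ha, h3⟩ := r
  have hI : I * I = -1 := Complex.I_mul_I
  change Tm r3 * R1 p q = sym3 !![0, (p - q) / 2 - I * ((p + q) / 2); (p - q) / 2 + I * ((p + q) / 2), 0] * Tm r3
  rw [sym3_eq, Tm, R1, mk4_mul, mk4_mul]
  apply mk4_ext
  · ring
  · linear_combination ((3/8)*q^3 +(3/8)*p*q^2 -(3/8)*p^2*q -(3/8)*p^3 +(1/8)*I*q^3 +(3/8)*I*p*q^2 +(3/8)*I*p^2*q +(1/8)*I*p^3) * hI + (1 +I) * hp + (1 -I) * hq + ((3/4)*q +(1/4)*p -(3/4)*I*q +(1/4)*I*p) * pp + (-(1/4)*q -(3/4)*p +(1/4)*I*q -(3/4)*I*p) * qq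
  · ring
  · ring
  · ring
  · ring
  · ring
  · linear_combination (-(1/2)*q*r3 +(1/4)*q^3*r3 -(1/2)*p*r3 +(1/4)*p*q^2*r3 +(1/4)*p^2*q*r3 +(1/4)*p^3*r3 -(1/8)*I*q^3*r3 -(1/8)*I*p*q^2*r3 +(1/8)*I*p^2*q*r3 +(1/8)*I*p^3*r3 -(1/8)*I^2*q^3*r3 -(3/8)*I^2*p*q^2*r3 -(3/8)*I^2*p^2*q*r3 -(1/8)*I^2*p^3*r3) * hI + (-(1/4)*q*r3 -(1/4)*p*r3 +(1/4)*I*q*r3 -(1/4)*I*p*r3) * pp + (-(1/4)*q*r3 -(1/4)*p*r3 +(1/4)*I*q*r3 -(1/4)*I*p*r3) * qq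
  · linear_combination (-(1/2)*q*r3 +(1/4)*q^3*r3 -(1/2)*p*r3 +(1/4)*p*q^2*r3 +(1/4)*p^2*q*r3 +(1/4)*p^3*r3 +(1/8)*I*q^3*r3 +(1/8)*I*p*q^2*r3 -(1/8)*I*p^2*q*r3 -(1/8)*I*p^3*r3 -(1/8)*I^2*q^3*r3 -(3/8)*I^2*p*q^2*r3 -(3/8)*I^2*p^2*q*r3 -(1/8)*I^2*p^3*r3) * hI + (-(1/4)*q*r3 -(1/4)*p*r3 -(1/4)*I*q*r3 +(1/4)*I*p*r3) * pp + (-(1/4)*q*r3 -(1/4)*p*r3 -(1/4)*I*q*r3 +(1/4)*I*p*r3) * qq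
  · ring
  · ring
  · ring
  · ring
  · ring
  · linear_combination ((3/8)*q^3 +(3/8)*p*q^2 -(3/8)*p^2*q -(3/8)*p^3 -(1/8)*I*q^3 -(3/8)*I*p*q^2 -(3/8)*I*p^2*q -(1/8)*I*p^3) * hI + (1 -I) * hp + (1 +I) * hq + ((3/4)*q +(1/4)*p +(3/4)*I*q -(1/4)*I*p) * pp + (-(1/4)*q -(3/4)*p -(1/4)*I*q +(3/4)*I*p) * qq
  · ring

theorem t_2 {h p q a r3 : ℂ} (r : ERel h p q a r3) :
    Tm r3 * R2 h p q (p + q) ((p + q) * a) (r3 * h * ((p + q) * a)) 0 =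
      sym3 (mb p q a 2) * Tm r3 := by
  obtain ⟨hh, hp, hq, pp, qq, pq, ha, h3⟩ := r
  have hI : I * I = -1 := Complex.I_mul_I
  change Tm r3 * R2 h p q (p + q) ((p + q) * a) (r3 * h * ((p + q) * a)) 0 = sym3 !![-(I * a), p; p, I * a] * Tm r3
  rw [sym3_eq, Tm, R2, mk4_mul, mk4_mul]
  apply mk4_ext
  · linear_combination (I*p*a^2*r3) * hI + (-2*I*a^2*r3 +2*I*q^2*a^2*r3 +I*p*q*a^2*r3) * hp + (I*q^2*a^2*r3) * hq + ((1/2)*I*q*a^2*r3) * pp + ((1/2)*I*q*a^2*r3 +2*I*p*a^2*r3) * qq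
  · linear_combination (-3 +2*a^2 +q^2 -2*q^2*a^2 +2*p*q -p*q*a^2 +p^2) * hp + (1 -q^2*a^2) * hq + ((3/2)*q -(1/2)*q*a^2 -(1/2)*p) * pp + ((1/2)*q -(1/2)*q*a^2 +(3/2)*p -2*p*a^2) * qq + (-p) * ha
  · linear_combination (I*a^3) * hI + (2*I*q*a +I*p*a) * hp + (I*q*a) * hq + (I*a) * pq + (-I*a) * ha
  · linear_combination (p^2*a*r3) * hI + (q^2*a*r3 +2*p*q*a*r3 +p^2*a*r3) * hh + (-(1/2)*a*r3) * pp + ((1/2)*a*r3) * qq + (a*r3) * pq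
  · linear_combination (-a^3*r3 +(1/2)*q^2*a*r3 +p*q*a*r3 -(3/2)*p^2*a*r3 +h*q^2*a*r3 +2*h*p*q*a*r3 +h*p^2*a*r3 +I^2*a^3*r3) * hI + (-2*q*a*r3 -p*a*r3) * hp + (-q*a*r3) * hq + (a*r3) * pp + (-a*r3) * qq + (-3*a*r3) * pq + (a*r3) * ha
  · linear_combination (I*q^2*a*r3^2 +2*I*p*q*a*r3^2 +I*p^2*a*r3^2) * hh + (-3*I*a +(1/2)*I*a*r3^2) * pp + ((1/2)*I*a*r3^2) * qq + (I*a*r3^2) * pq + (I*a +I*h*a) * h3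
  · linear_combination (-3*p*a^2 +h*q^3*a^2*r3^2 +2*h*p*q^2*a^2*r3^2 +h*p^2*q*a^2*r3^2) * hI + (3 -r3^2 +2*a^2*r3^2 -2*q^2*a^2*r3^2 -p*q*a^2*r3^2) * hp + (-q^2*a^2*r3^2) * hq + (-(1/2)*q*a^2*r3^2) * pp + (-(1/2)*q*a^2*r3^2 -2*p*a^2*r3^2) * qq + (3*p -p*r3^2) * ha + (-(1/2)*q -(1/2)*p) * h3
  · linear_combination (2*I*p*a^2*r3) * hI + (-3*I*r3 -2*I*a^2*r3 +I*q^2*r3 +2*I*q^2*a^2*r3 +2*I*p*q*r3 +I*p*q*a^2*r3 +I*p^2*r3) * hp + (I*r3 +I*q^2*a^2*r3) * hq + ((3/2)*I*q*r3 +(1/2)*I*q*a^2*r3 -(1/2)*I*p*r3) * pp + ((1/2)*I*q*r3 +(1/2)*I*q*a^2*r3 +(3/2)*I*p*r3 +2*I*p*a^2*r3) * qq + (-I*p*r3) * ha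
  · linear_combination (-2*I*p*a^2*r3) * hI + (3*I*r3 +2*I*a^2*r3 -I*q^2*r3 -2*I*q^2*a^2*r3 -2*I*p*q*r3 -I*p*q*a^2*r3 -I*p^2*r3) * hp + (-I*r3 -I*q^2*a^2*r3) * hq + (-(3/2)*I*q*r3 -(1/2)*I*q*a^2*r3 +(1/2)*I*p*r3) * pp + (-(1/2)*I*q*r3 -(1/2)*I*q*a^2*r3 -(3/2)*I*p*r3 -2*I*p*a^2*r3) * qq + (I*p*r3) * ha
  · linear_combination (-3*p*a^2 +h*q^3*a^2*r3^2 +2*h*p*q^2*a^2*r3^2 +h*p^2*q*a^2*r3^2) * hI + (3 -r3^2 +2*a^2*r3^2 -2*q^2*a^2*r3^2 -p*q*a^2*r3^2) * hp + (-q^2*a^2*r3^2) * hq + (-(1/2)*q*a^2*r3^2) * pp + (-(1/2)*q*a^2*r3^2 -2*p*a^2*r3^2) * qq + (3*p -p*r3^2) * ha + (-(1/2)*q -(1/2)*p) * h3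
  · linear_combination (-I*q^2*a*r3^2 -2*I*p*q*a*r3^2 -I*p^2*a*r3^2) * hh + (3*I*a -(1/2)*I*a*r3^2) * pp + (-(1/2)*I*a*r3^2) * qq + (-I*a*r3^2) * pq + (-I*a -I*h*a) * h3
  · linear_combination (-a^3*r3 +(1/2)*q^2*a*r3 +p*q*a*r3 -(3/2)*p^2*a*r3 +h*q^2*a*r3 +2*h*p*q*a*r3 +h*p^2*a*r3 +I^2*a^3*r3) * hI + (-2*q*a*r3 -p*a*r3) * hp + (-q*a*r3) * hq + (a*r3) * pp + (-a*r3) * qq + (-3*a*r3) * pq + (a*r3) * ha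
  · linear_combination (p^2*a*r3) * hI + (q^2*a*r3 +2*p*q*a*r3 +p^2*a*r3) * hh + (-(1/2)*a*r3) * pp + ((1/2)*a*r3) * qq + (a*r3) * pq
  · linear_combination (-I*a^3) * hI + (-2*I*q*a -I*p*a) * hp + (-I*q*a) * hq + (-I*a) * pq + (I*a) * ha
  · linear_combination (-3 +2*a^2 +q^2 -2*q^2*a^2 +2*p*q -p*q*a^2 +p^2) * hp + (1 -q^2*a^2) * hq + ((3/2)*q -(1/2)*q*a^2 -(1/2)*p) * pp + ((1/2)*q -(1/2)*q*a^2 +(3/2)*p -2*p*a^2) * qq + (-p) * ha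
  · linear_combination (-I*p*a^2*r3) * hI + (2*I*a^2*r3 -2*I*q^2*a^2*r3 -I*p*q*a^2*r3) * hp + (-I*q^2*a^2*r3) * hq + (-(1/2)*I*q*a^2*r3) * pp + (-(1/2)*I*q*a^2*r3 -2*I*p*a^2*r3) * qq

theorem m2_ext {a b c d a' b' c' d' : ℂ} (h1 : a = a') (h2 : b = b') (h3 : c = c')
    (h4 : d = d') : (!![a, b; c, d] : Matrix (Fin 2) (Fin 2) ℂ) = !![a', b'; c', d'] := by
  rw [h1, h2, h3, h4]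

theorem y_0 {h p q a r3 : ℂ} (r : ERel h p q a r3) :
    Yi p q * mb p q a 0 = rb h a 0 * Yi p q := by
  obtain ⟨hh, hp, hq, pp, qq, pq, ha, h3⟩ := r
  have hI : I * I = -1 := Complex.I_mul_I
  change (!![-(I * ((p + q) / 2 + I * ((p - q) / 2))), 1; -((p + q) / 2 + I * ((p - q) / 2)), I] : Matrix (Fin 2) (Fin 2) ℂ) * !![0, (p - q) / 2 + I * ((p + q) / 2); (p - q) / 2 - I * ((p + q) / 2), 0] =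
    !![1, 0; 0, -1] * !![-(I * ((p + q) / 2 + I * ((p - q) / 2))), 1; -((p + q) / 2 + I * ((p - q) / 2)), I]
  rw [Matrix.mul_fin_two, Matrix.mul_fin_two]
  apply m2_ext
  · linear_combination (-(1/2)*q +(1/2)*p) * hI
  · linear_combination (-(1/2)*q^2 -(1/2)*p^2 +(1/4)*I*q^2 -(1/4)*I*p^2) * hI + ((1/2)) * pp + ((1/2)) * qq
  · linear_combination (-(1/2)*q -(1/2)*p) * hI
  · linear_combination ((1/4)*q^2 -(1/4)*p^2) * hI + (-(1/2)*I) * pp + (-(1/2)*I) * qq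

theorem y_1 {h p q a r3 : ℂ} (r : ERel h p q a r3) :
    Yi p q * mb p q a 1 = rb h a 1 * Yi p q := by
  obtain ⟨hh, hp, hq, pp, qq, pq, ha, h3⟩ := r
  have hI : I * I = -1 := Complex.I_mul_I
  change (!![-(I * ((p + q) / 2 + I * ((p - q) / 2))), 1; -((p + q) / 2 + I * ((p - q) / 2)), I] : Matrix (Fin 2) (Fin 2) ℂ) * !![0, (p - q) / 2 - I * ((p + q) / 2); (p - q) / 2 + I * ((p + q) / 2), 0] =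
    !![-h, -h; -h, h] * !![-(I * ((p + q) / 2 + I * ((p - q) / 2))), 1; -((p + q) / 2 + I * ((p - q) / 2)), I]
  rw [Matrix.mul_fin_two, Matrix.mul_fin_two]
  apply m2_ext
  · linear_combination ((1/2)*h*q -(1/2)*h*p) * hI + (-I) * hp + (-1) * hq
  · linear_combination (p*q -(1/4)*I*q^2 +(1/4)*I*p^2) * hI + (-(1/2)*I) * pp + ((1/2)*I) * qq + (-1) * pq
  · linear_combination ((1/2)*q +(1/2)*p +(1/2)*h*q -(1/2)*h*p) * hI + (1) * hp + (-I) * hq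
  · linear_combination (-(1/4)*q^2 +(1/4)*p^2) * hI + (-(1/2)) * pp + ((1/2)) * qq + (I) * pq

theorem y_2 {h p q a r3 : ℂ} (r : ERel h p q a r3) :
    Yi p q * mb p q a 2 = rb h a 2 * Yi p q := by
  obtain ⟨hh, hp, hq, pp, qq, pq, ha, h3⟩ := r
  have hI : I * I = -1 := Complex.I_mul_I
  change (!![-(I * ((p + q) / 2 + I * ((p - q) / 2))), 1; -((p + q) / 2 + I * ((p - q) / 2)), I] : Matrix (Fin 2) (Fin 2) ℂ) * !![-(I * a), p; p, I * a] =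
    !![1 / 2, -(1 / 2 + h) + a; -(1 / 2 + h) - a, -(1 / 2)] * !![-(I * ((p + q) / 2 + I * ((p - q) / 2))), 1; -((p + q) / 2 + I * ((p - q) / 2)), I]
  rw [Matrix.mul_fin_two, Matrix.mul_fin_two]
  apply m2_ext
  · linear_combination (-(1/4)*q +(1/2)*q*a +(1/4)*p +(1/2)*p*a -(1/2)*I*q*a +(1/2)*I*p*a) * hI + (-(1/2) -(1/2)*I) * hp + (-(1/2) +(1/2)*I) * hq
  · linear_combination ((1/2)*p*q -(1/2)*p^2) * hI + ((1/2) -(1/2)*I) * pp + (-(1/2) -(1/2)*I) * pq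
  · linear_combination ((1/4)*q -(1/4)*p +(1/2)*h*q -(1/2)*h*p) * hI + ((1/2) -(1/2)*I) * hp + (-(1/2) -(1/2)*I) * hq
  · linear_combination (a) * hI + (-(1/2) -(1/2)*I) * pp + (-(1/2) +(1/2)*I) * pq

end Pool.Agent.AnB
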