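import Pool.Agent.AnB.Ends
import Pool.Agent.Hhelper63.AnT.FinB

/-!
Case (b) for one Fuchsian representation of every surface group.
-/

namespace Pool.Agent.AnB

open Pool.Agent.Hhelper63.AnT Matrix EndCAux Pool.Agent.Hhelper67.Anosov

open Complex (I)

theorem erel : ERel (hB : ℝ) (pB : ℝ) (qB : ℝ) (cB : ℝ) (√3 : ℝ) := by
  have ha : cB * cB = hB := by
    unfold cB hB
    exact Real.mul_self_sqrt (by positivity)
  have h3 : √3 * √3 = 3 := Real.mul_self_sqrt (by norm_num)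
  have c1 := congrArg Complex.ofReal hB_sq
  have c2 := congrArg Complex.ofReal hp_B
  have c3 := congrArg Complex.ofReal hq_B
  have c4 := congrArg Complex.ofReal pB_sq
  have c5 := congrArg Complex.ofReal qB_sq
  have c6 := congrArg Complex.ofReal pq_B
  have c7 := congrArg Complex.ofReal ha
  have c8 := congrArg Complex.ofReal h3
  push_cast at c1 c2 c3 c4 c5 c6 c7 c8
  exact ⟨c1, c2, c3, c4, c5, c6, c7, c8⟩

theorem cx_refl (i : Fin 3) : cx (reflB i) = rb (hB : ℝ) (cB : ℝ) i := by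
  have h2 : ((√2 : ℝ) : ℂ) = 2 * (hB : ℂ) := by
    unfold hB
    push_cast
    ring
  fin_cases i <;> ext x y <;> fin_cases x <;> fin_cases y <;>
    simp [cx, reflB, rb, h2] <;> ring

theorem fin_eq (i : Fin 3) : finB i = fb (hB : ℝ) i := by
  fin_cases i <;> rfl

theorem Af_zero : Af 0 = cB := by
  unfold Af cB hB
  rw [mul_zero, add_zero]

theorem Bf_zero : Bf 0 = hB := by
  unfold Bf
  rw [mul_zero, add_zero]
  have h : (1 / 2 : ℝ) = hB * hB := hB_sq.symm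
  rw [h, Real.sqrt_mul_self hB_pos.le]

theorem cB_pos' : 0 < cB := by
  unfold cB
  positivity

theorem cB_mul : cB * cB = hB := by
  unfold cB hB
  exact Real.mul_self_sqrt (by positivity)

theorem sqrt_eq {x y : ℝ} (hy : 0 ≤ y) (h : x = y * y) : √x = y := by
  rw [h, Real.sqrt_mul_self hy]

theorem Cf_L : Cf Lm = pB + qB := by
  unfold Cf
  refine sqrt_eq (add_pos pB_pos qB_pos).le ?_
  rw [Lm_eq]
  nlinarith [pB_sq, qB_sq, pq_B]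

theorem Sf_L : Sf Lm = (pB + qB) * cB := by
  unfold Sf
  refine sqrt_eq (mul_pos (add_pos pB_pos qB_pos) cB_pos').le ?_
  have e : (pB + qB) * cB * ((pB + qB) * cB) =
      (pB * pB + qB * qB + 2 * (pB * qB)) * (cB * cB) := by ring
  rw [e, pB_sq, qB_sq, pq_B, cB_mul, Lm_eq]
  nlinarith [hB_sq]

theorem Af_L : Af Lm = √3 * hB * ((pB + qB) * cB) := by
  unfold Af
  have h3 : √3 * √3 = 3 := Real.mul_self_sqrt (by norm_num)
  refine sqrt_eq ?_ ?_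
  · have h1 := pB_pos
    have h2 := qB_pos
    have h4 := cB_pos'
    have h5 := hB_pos
    positivity
  · have e : √3 * hB * ((pB + qB) * cB) * (√3 * hB * ((pB + qB) * cB)) =
      (√3 * √3) * (hB * hB) * (pB * pB + qB * qB + 2 * (pB * qB)) * (cB * cB) := by ring
    rw [e, h3, hB_sq, pB_sq, qB_sq, pq_B, cB_mul, Lm_eq]
    nlinarith [hB_sq]

theorem Bf_L : Bf Lm = 0 := by
  unfold Bf
  have e : 1 / 2 + (1 / 2 - hB) * Lm = 0 := by
    rw [Lm_eq]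
    nlinarith [hB_sq]
  rw [e, Real.sqrt_zero]

theorem R2s_zero : R2s 0 = R2 (hB : ℝ) (pB : ℝ) (qB : ℝ) 1 0 (cB : ℝ) (hB : ℝ) := by
  rw [R2s, Cf_zero, Sf_zero, Af_zero, Bf_zero, Complex.ofReal_zero, Complex.ofReal_one]

theorem R2s_L : R2s Lm = R2 (hB : ℝ) (pB : ℝ) (qB : ℝ) ((pB : ℝ) + (qB : ℝ))
    (((pB : ℝ) + (qB : ℝ)) * (cB : ℝ)) ((√3 : ℝ) * (hB : ℝ) * (((pB : ℝ) + (qB : ℝ)) * (cB : ℝ)))
    0 := by
  rw [R2s, Cf_L, Sf_L, Af_L, Bf_L]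
  push_cast
  rfl

/-- the intertwiner at `s = 0` -/
noncomputable def A0g : GL (Fin 4) ℂ :=
  ⟨A0m (hB : ℝ) (pB : ℝ) (qB : ℝ), B0m (hB : ℝ) (pB : ℝ) (qB : ℝ), A0B0 erel,
    mul_eq_one_comm.1 (A0B0 erel)⟩

/-- the inverse of `Yi` -/
noncomputable def Yv : Matrix (Fin 2) (Fin 2) ℂ :=
  !![((pB + qB) / 2 - I * ((pB - qB) / 2)) / 2 * I, -(((pB + qB) / 2 - I * ((pB - qB) / 2)) / 2);
    1 / 2, -(I / 2)]

theorem Yi_mul : Yi (pB : ℝ) (qB : ℝ) * Yv = 1 := by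
  have hI : I * I = -1 := Complex.I_mul_I
  have c4 := congrArg Complex.ofReal pB_sq
  have c5 := congrArg Complex.ofReal qB_sq
  push_cast at c4 c5
  rw [Yi, Yv, Matrix.mul_fin_two, Matrix.one_fin_two]
  apply m2_ext
  · linear_combination (-(1/4)*(qB : ℂ)^2 -(1/4)*(pB : ℂ)^2 +(1/8)*I^2*(qB : ℂ)^2 -(1/4)*I^2*(pB : ℂ)*(qB : ℂ) +(1/8)*I^2*(pB : ℂ)^2) * hI + ((1/4)) * c4 + ((1/4)) * c5
  · linear_combination (-(1/8)*I*(qB : ℂ)^2 +(1/4)*I*(pB : ℂ)*(qB : ℂ) -(1/8)*I*(pB : ℂ)^2) * hI + ((1/4)*I) * c4 + ((1/4)*I) * c5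
  · linear_combination ((1/8)*I*(qB : ℂ)^2 -(1/4)*I*(pB : ℂ)*(qB : ℂ) +(1/8)*I*(pB : ℂ)^2) * hI + (-(1/4)*I) * c4 + (-(1/4)*I) * c5
  · linear_combination (-(1/2) -(1/8)*(qB : ℂ)^2 +(1/4)*(pB : ℂ)*(qB : ℂ) -(1/8)*(pB : ℂ)^2) * hI + ((1/4)) * c4 + ((1/4)) * c5

/-- the intertwiner at `s = 1 + √2` -/
noncomputable def A1g : GL (Fin 4) ℂ :=
  ⟨sym3 (Yi (pB : ℝ) (qB : ℝ)) * Tm (√3 : ℝ), Tmi (√3 : ℝ) * sym3 Yv, by
    have e : sym3 (Yi (pB : ℝ) (qB : ℝ)) * Tm (√3 : ℝ) * (Tmi (√3 : ℝ) * sym3 Yv) =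
        sym3 (Yi (pB : ℝ) (qB : ℝ)) * (Tm (√3 : ℝ) * Tmi (√3 : ℝ)) * sym3 Yv := by
      simp only [mul_assoc]
    rw [e, TTi erel, mul_one, ← sym3_mul, Yi_mul, sym3_one], by
    rw [mul_eq_one_comm]
    have e : sym3 (Yi (pB : ℝ) (qB : ℝ)) * Tm (√3 : ℝ) * (Tmi (√3 : ℝ) * sym3 Yv) =
        sym3 (Yi (pB : ℝ) (qB : ℝ)) * (Tm (√3 : ℝ) * Tmi (√3 : ℝ)) * sym3 Yv := by
      simp only [mul_assoc]
    rw [e, TTi erel, mul_one, ← sym3_mul, Yi_mul, sym3_one]⟩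

/-- the path, parametrized by the unit interval -/
noncomputable def SB (t : ℝ) : Fin 3 → M4 := Rm (Lm * t)

theorem Lm_pos : 0 < Lm := by
  rw [Lm_eq]
  linarith [hB_pos]

theorem mem_L {t : ℝ} (ht : t ∈ Set.Icc (0 : ℝ) 1) : Lm * t ∈ Set.Icc 0 Lm :=
  ⟨mul_nonneg Lm_pos.le ht.1, mul_le_of_le_one_right Lm_pos.le ht.2⟩

theorem SB_rel {t : ℝ} (ht : t ∈ Set.Icc (0 : ℝ) 1) : RelB (SB t) where
  sq i := by
    fin_cases i
    · exact R0s_sq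
    · exact R1s_sq
    · exact R2s_sq (mem_L ht)
  r01 := R01s_pow
  r12 := R12s_pow (mem_L ht)
  r02 := R02s_pow (mem_L ht)
  det i := Rm_det (mem_L ht) i

theorem SB_cont (i : Fin 3) : ContinuousOn (fun t => SB t i) (Set.Icc (0 : ℝ) 1) := by
  apply Continuous.continuousOn
  fin_cases i
  · exact continuous_const
  · exact continuous_const
  · exact R2s_continuous.comp (continuous_const.mul continuous_id)

theorem SB_unitary (t : ℝ) (i : Fin 3) (hi : i ≠ 2) : (SB t i).conjTranspose * SB t i = 1 := by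
  fin_cases i
  · show R0s.conjTranspose * R0s = 1
    rw [R0s_star, R0s_sq]
  · show R1s.conjTranspose * R1s = 1
    rw [R1s_star, R1s_sq]
  · exact absurd rfl hi

theorem SB_cert {t : ℝ} (ht : t ∈ Set.Icc (0 : ℝ) 1) : CertAt 3 edgesB 2 (SB t) :=
  certB (mem_L ht)

theorem e0_all (i : Fin 3) : A0g.1 * SB 0 i = kr (finB i) (cx (reflB i)) * A0g.1 := by
  rw [cx_refl, fin_eq]
  fin_cases i
  · exact e0_0 erel
  · exact e0_1 erel
  · show A0m (hB : ℝ) (pB : ℝ) (qB : ℝ) * R2s (Lm * 0) = _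
    rw [mul_zero, R2s_zero]
    exact e0_2 erel

theorem e1_gen {R : M4} {m b : Matrix (Fin 2) (Fin 2) ℂ} (h1 : Tm (√3 : ℝ) * R =
    sym3 m * Tm (√3 : ℝ)) (h2 : Yi (pB : ℝ) (qB : ℝ) * m = b * Yi (pB : ℝ) (qB : ℝ)) :
    A1g.1 * R = (1 : ℂ) • (sym3 b * A1g.1) := by
  show sym3 (Yi (pB : ℝ) (qB : ℝ)) * Tm (√3 : ℝ) * R =
    (1 : ℂ) • (sym3 b * (sym3 (Yi (pB : ℝ) (qB : ℝ)) * Tm (√3 : ℝ)))
  rw [one_smul, mul_assoc, h1, ← mul_assoc, ← sym3_mul, h2, sym3_mul, mul_assoc]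

theorem e1_all (i : Fin 3) : A1g.1 * SB 1 i = (1 : ℂ) • (sym3 (cx (reflB i)) * A1g.1) := by
  rw [cx_refl]
  fin_cases i
  · exact e1_gen (t_0 erel) (y_0 erel)
  · exact e1_gen (t_1 erel) (y_1 erel)
  · refine e1_gen (R := R2s (Lm * 1)) ?_ (y_2 erel)
    rw [mul_one, R2s_L]
    exact t_2 erel

/-- Case (b) for one Fuchsian representation of every surface group. -/
theorem main_b (g : ℕ) (hg : 2 ≤ g) : ∃ φ : Surf g →* X, ⇑φ ∈ fuchs (Surf g) ∧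
    ∀ S : Finset (Surf g), Subgroup.closure (S : Set (Surf g)) = ⊤ →
      ⇑(rho22 φ) ∈ connectedComponentIn (anosovSet 4 S {2}) ⇑(rho4 φ) :=
  main_b_path g hg (S := SB) (fun _ hs => SB_rel hs) SB_cont (fun s _ i hi => SB_unitary s i hi)
    (fun _ hs => SB_cert hs) A0g A1g (ε := 1) (one_mul 1) e0_all e1_all

end Pool.Agent.AnB
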