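import Pool.Agent.AnB.Alg

/-!
Nonsingularity: if `P` and `Y` are matrices of the form `mkP`, `mkY` with `P² = n`, then the kernel of
`P + Y` is trivial unless an explicit quadratic expression vanishes.
-/

namespace Pool.Agent.AnB

open Pool.Agent.Hhelper63.AnT

open Complex (I)

/-- the traceless part of the anticommutator -/
noncomputable def om (k z w a1 a2 a3 b1 b2 b3 c1 c2 c3 d1 d2 d3 : ℂ) : M4 :=
  mk4 (2 * k * a3 - (w * c3 + z * d3))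
      (2 * k * a1 - (w * c1 + z * d1) - I * (2 * k * a2 - (w * c2 + z * d2)))
      (z * (a3 + b3)) (z * (a1 + b1 - I * (a2 + b2)))
    (2 * k * a1 - (w * c1 + z * d1) + I * (2 * k * a2 - (w * c2 + z * d2)))
      (-(2 * k * a3 - (w * c3 + z * d3)))
      (z * (a1 + b1 + I * (a2 + b2))) (-(z * (a3 + b3)))
    (-(w * (a3 + b3))) (-(w * (a1 + b1 - I * (a2 + b2))))
      (-(2 * k * b3) - (w * c3 + z * d3))
      (-(2 * k * b1) - (w * c1 + z * d1) - I * (-(2 * k * b2) - (w * c2 + z * d2)))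
    (-(w * (a1 + b1 + I * (a2 + b2)))) (w * (a3 + b3))
      (-(2 * k * b1) - (w * c1 + z * d1) + I * (-(2 * k * b2) - (w * c2 + z * d2)))
      (-(-(2 * k * b3) - (w * c3 + z * d3)))

/-- the square of the traceless part -/
noncomputable def omW (k z w a1 a2 a3 b1 b2 b3 c1 c2 c3 d1 d2 d3 : ℂ) : ℂ :=
  (2 * k * a1 - (w * c1 + z * d1)) ^ 2 + (2 * k * a2 - (w * c2 + z * d2)) ^ 2 +
    (2 * k * a3 - (w * c3 + z * d3)) ^ 2 -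
    z * w * ((a1 + b1) ^ 2 + (a2 + b2) ^ 2 + (a3 + b3) ^ 2)

theorem anti_eq (k z w a0 a1 a2 a3 b1 b2 b3 c0 c1 c2 c3 d0 d1 d2 d3 : ℂ) :
    mkP a0 a1 a2 a3 b1 b2 b3 c0 c1 c2 c3 d0 d1 d2 d3 * mkY k z w +
      mkY k z w * mkP a0 a1 a2 a3 b1 b2 b3 c0 c1 c2 c3 d0 d1 d2 d3 =
    (2 * k * a0 - (w * c0 + z * d0)) • 1 + om k z w a1 a2 a3 b1 b2 b3 c1 c2 c3 d1 d2 d3 := by
  rw [mk4_one, om, mkP, mkY, mk4_mul, mk4_mul, mk4_add, mk4_smul, mk4_add]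
  apply mk4_ext <;> ring

theorem om_sq {k z w a1 a2 a3 b1 b2 b3 c1 c2 c3 d1 d2 d3 : ℂ}
    (h1 : a1 ^ 2 + a2 ^ 2 + a3 ^ 2 = b1 ^ 2 + b2 ^ 2 + b3 ^ 2)
    (h2 : c1 * (a1 + b1) + c2 * (a2 + b2) + c3 * (a3 + b3) = 0)
    (h3 : d1 * (a1 + b1) + d2 * (a2 + b2) + d3 * (a3 + b3) = 0) :
    om k z w a1 a2 a3 b1 b2 b3 c1 c2 c3 d1 d2 d3 * om k z w a1 a2 a3 b1 b2 b3 c1 c2 c3 d1 d2 d3 =
    (omW k z w a1 a2 a3 b1 b2 b3 c1 c2 c3 d1 d2 d3) • 1 := by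
  have hI : I * I = -1 := Complex.I_mul_I
  rw [mk4_one, om, mk4_mul, mk4_smul, omW]
  apply mk4_ext
  · linear_combination (-w^2*c2^2 -2*z*w*c2*d2 +z*w*b2^2 +2*z*w*a2*b2 +z*w*a2^2 -z^2*d2^2 +4*k*w*a2*c2 +4*k*z*a2*d2 -4*k^2*a2^2) * hI
  · ring
  · linear_combination (2*z*w*b2*c2 +2*z*w*a2*c2 +2*z^2*b2*d2 +2*z^2*a2*d2 +2*k*z*b2^2 -2*k*z*a2^2) * hI + (2*k*z) * h1 + (-2*z*w) * h2 + (-2*z^2) * h3
  · ring
  · ring
  · linear_combination (-w^2*c2^2 -2*z*w*c2*d2 +z*w*b2^2 +2*z*w*a2*b2 +z*w*a2^2 -z^2*d2^2 +4*k*w*a2*c2 +4*k*z*a2*d2 -4*k^2*a2^2) * hI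
  · ring
  · linear_combination (2*z*w*b2*c2 +2*z*w*a2*c2 +2*z^2*b2*d2 +2*z^2*a2*d2 +2*k*z*b2^2 -2*k*z*a2^2) * hI + (2*k*z) * h1 + (-2*z*w) * h2 + (-2*z^2) * h3
  · linear_combination (-2*w^2*b2*c2 -2*w^2*a2*c2 -2*z*w*b2*d2 -2*z*w*a2*d2 -2*k*w*b2^2 +2*k*w*a2^2) * hI + (-2*k*w) * h1 + (2*w^2) * h2 + (2*z*w) * h3
  · ring
  · linear_combination (-w^2*c2^2 -2*z*w*c2*d2 +z*w*b2^2 +2*z*w*a2*b2 +z*w*a2^2 -z^2*d2^2 -4*k*w*b2*c2 -4*k*z*b2*d2 -4*k^2*b2^2) * hI + (-4*k^2) * h1 + (4*k*w) * h2 + (4*k*z) * h3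
  · ring
  · ring
  · linear_combination (-2*w^2*b2*c2 -2*w^2*a2*c2 -2*z*w*b2*d2 -2*z*w*a2*d2 -2*k*w*b2^2 +2*k*w*a2^2) * hI + (-2*k*w) * h1 + (2*w^2) * h2 + (2*z*w) * h3
  · ring
  · linear_combination (-w^2*c2^2 -2*z*w*c2*d2 +z*w*b2^2 +2*z*w*a2*b2 +z*w*a2^2 -z^2*d2^2 -4*k*w*b2*c2 -4*k*z*b2*d2 -4*k^2*b2^2) * hI + (-4*k^2) * h1 + (4*k*w) * h2 + (4*k*z) * h3

theorem mkY_sq (k z w : ℂ) : mkY k z w * mkY k z w = (k ^ 2 - z * w) • 1 := by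
  rw [mk4_one, mkY, mk4_mul, mk4_smul]
  apply mk4_ext <;> ring

/-- kernel of a sum of two square roots of scalars -/
theorem ker_sum {P Y W : M4} {n m t x : ℂ} (hP : P * P = n • 1) (hY : Y * Y = m • 1)
    (hT : P * Y + Y * P = t • 1 + W) (hW : W * W = x • 1) (hx : (n + m + t) ^ 2 - x ≠ 0)
    {v : Fin 4 → ℂ} (hv : (P + Y).mulVec v = 0) : v = 0 := by
  have h1 : ((P + Y) * (P + Y)).mulVec v = 0 := by
    rw [← Matrix.mulVec_mulVec, hv, Matrix.mulVec_zero]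
  have h2 : (P + Y) * (P + Y) = (n + m + t) • 1 + W := by
    have e : (P + Y) * (P + Y) = P * P + Y * Y + (P * Y + Y * P) := by noncomm_ring
    rw [e, hP, hY, hT]
    module
  rw [h2] at h1
  have h3 : (((n + m + t) • 1 - W) * ((n + m + t) • 1 + W)).mulVec v = 0 := by
    rw [← Matrix.mulVec_mulVec, h1, Matrix.mulVec_zero]
  have h4 : ((n + m + t) • 1 - W) * ((n + m + t) • 1 + W) = ((n + m + t) ^ 2 - x) • (1 : M4) := by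
    have e : ((n + m + t) • (1 : M4) - W) * ((n + m + t) • 1 + W) =
        ((n + m + t) ^ 2) • (1 : M4) - W * W := by
      simp only [sub_mul, mul_add, Matrix.smul_mul, Matrix.mul_smul, one_mul, mul_one, smul_smul]
      module
    rw [e, hW]
    module
  rw [h4, Matrix.smul_mulVec, Matrix.one_mulVec] at h3
  exact (smul_eq_zero.1 h3).resolve_left hx

end Pool.Agent.AnB
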