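import Pool.Agent.AnB.Pos

/-!
The path of representations of `Tri 4 3 3`.
-/

namespace Pool.Agent.AnB

open Pool.Agent.Hhelper63.AnT Matrix

open Complex (I)

/-! ### constants -/

noncomputable def hB : ℝ := √2 / 2

noncomputable def pB : ℝ := √(1 + hB)

noncomputable def qB : ℝ := √(1 - hB)

theorem hB_sq : hB * hB = 1 / 2 := by
  have := Real.mul_self_sqrt (show (0 : ℝ) ≤ 2 by norm_num)
  unfold hB
  linarith

theorem hB_pos : 0 < hB := by
  unfold hB
  positivity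

theorem hB_lo : (0.70710678 : ℝ) < hB := by
  have h := hB_sq
  have h0 := hB_pos
  by_contra hc
  push Not at hc
  nlinarith

theorem hB_hi : hB < (0.70710679 : ℝ) := by
  have h := hB_sq
  have h0 := hB_pos
  by_contra hc
  push Not at hc
  nlinarith

theorem pB_pos : 0 < pB := Real.sqrt_pos.2 (by linarith [hB_pos])

theorem qB_pos : 0 < qB := Real.sqrt_pos.2 (by linarith [hB_hi])

theorem pB_sq : pB * pB = 1 + hB := Real.mul_self_sqrt (by linarith [hB_pos])

theorem qB_sq : qB * qB = 1 - hB := Real.mul_self_sqrt (by linarith [hB_hi])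

theorem eq_of_sq {a b : ℝ} (ha : 0 < a) (hb : 0 < b) (h : a * a = b * b) : a = b := by
  nlinarith

theorem pq_B : pB * qB = hB := by
  refine eq_of_sq (mul_pos pB_pos qB_pos) hB_pos ?_
  have e : pB * qB * (pB * qB) = (pB * pB) * (qB * qB) := by ring
  rw [e, pB_sq, qB_sq, hB_sq]
  nlinarith [hB_sq]

theorem hp_B : hB * pB = (pB + qB) / 2 := by
  refine eq_of_sq (mul_pos hB_pos pB_pos) (by linarith [pB_pos, qB_pos]) ?_
  have e : hB * pB * (hB * pB) = (hB * hB) * (pB * pB) := by ring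
  rw [e, pB_sq, hB_sq]
  nlinarith [pB_sq, qB_sq, pq_B]

theorem hq_B : hB * qB = (pB - qB) / 2 := by
  have h1 : qB < pB := by
    have h2 := pB_sq
    have h3 := qB_sq
    have h4 := hB_pos
    have h5 := pB_pos
    have h6 := qB_pos
    by_contra hc
    push Not at hc
    nlinarith
  refine eq_of_sq (mul_pos hB_pos qB_pos) (by linarith) ?_
  have e : hB * qB * (hB * qB) = (hB * hB) * (qB * qB) := by ring
  rw [e, qB_sq, hB_sq]
  nlinarith [pB_sq, qB_sq, pq_B]

noncomputable def Cf (s : ℝ) : ℝ := √(1 + s)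

noncomputable def Sf (s : ℝ) : ℝ := √s

noncomputable def Af (s : ℝ) : ℝ := √(hB + (hB + 1 / 2) * s)

noncomputable def Bf (s : ℝ) : ℝ := √(1 / 2 + (1 / 2 - hB) * s)

/-- the length of the path -/
noncomputable def Lm : ℝ := 1 + √2

theorem Lm_eq : Lm = 1 + 2 * hB := by
  unfold Lm hB
  ring

/-- the relations hold along the path -/
theorem rel_path {s : ℝ} (hs : s ∈ Set.Icc 0 Lm) :
    Rel (hB : ℝ) (pB : ℝ) (qB : ℝ) (Cf s : ℝ) (Sf s : ℝ) (Af s : ℝ) (Bf s : ℝ) := by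
  have h0 : 0 ≤ s := hs.1
  have h1 : s ≤ 1 + 2 * hB := by
    rw [← Lm_eq]
    exact hs.2
  have hS : Sf s * Sf s = s := Real.mul_self_sqrt h0
  have hC : Cf s * Cf s = 1 + s := Real.mul_self_sqrt (by linarith)
  have hA : Af s * Af s = hB + (hB + 1 / 2) * s :=
    Real.mul_self_sqrt (by have := hB_pos; positivity)
  have hBB : Bf s * Bf s = 1 / 2 + (1 / 2 - hB) * s := Real.mul_self_sqrt (by
    have := hB_sq
    have := hB_lo
    nlinarith)
  have hC' : Cf s * Cf s = 1 + Sf s * Sf s := by rw [hS]; exact hC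
  have hA' : Af s * Af s = hB + (hB + 1 / 2) * (Sf s * Sf s) := by rw [hS]; exact hA
  have hB' : Bf s * Bf s = 1 / 2 + (1 / 2 - hB) * (Sf s * Sf s) := by rw [hS]; exact hBB
  have c1 := congrArg Complex.ofReal hB_sq
  have c2 := congrArg Complex.ofReal hp_B
  have c3 := congrArg Complex.ofReal hq_B
  have c4 := congrArg Complex.ofReal pB_sq
  have c5 := congrArg Complex.ofReal qB_sq
  have c6 := congrArg Complex.ofReal pq_B
  have c7 := congrArg Complex.ofReal hC'
  have c8 := congrArg Complex.ofReal hA'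
  have c9 := congrArg Complex.ofReal hB'
  push_cast at c1 c2 c3 c4 c5 c6 c7 c8 c9
  exact ⟨c1, c2, c3, c4, c5, c6, c7, c8, c9⟩

/-- the third reflection along the path -/
noncomputable def R2s (s : ℝ) : M4 :=
  R2 (hB : ℝ) (pB : ℝ) (qB : ℝ) (Cf s : ℝ) (Sf s : ℝ) (Af s : ℝ) (Bf s : ℝ)

noncomputable def R0s : M4 := R0 (pB : ℝ) (qB : ℝ)

noncomputable def R1s : M4 := R1 (pB : ℝ) (qB : ℝ)

theorem zero_mem_L : (0 : ℝ) ∈ Set.Icc 0 Lm := by
  refine ⟨le_refl 0, ?_⟩
  rw [Lm_eq]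
  linarith [hB_pos]

theorem R0s_sq : R0s * R0s = 1 := R0_sq (rel_path zero_mem_L)

theorem R1s_sq : R1s * R1s = 1 := R1_sq (rel_path zero_mem_L)

theorem R01s_pow : (R0s * R1s) ^ 4 = -1 := R01_pow (rel_path zero_mem_L)

theorem R2s_sq {s : ℝ} (hs : s ∈ Set.Icc 0 Lm) : R2s s * R2s s = 1 := R2_sq (rel_path hs)

theorem R02s_pow {s : ℝ} (hs : s ∈ Set.Icc 0 Lm) : (R0s * R2s s) ^ 3 = -1 :=
  pow3_of_braid R0s_sq (R2s_sq hs) (braid0 (rel_path hs))

theorem R12s_pow {s : ℝ} (hs : s ∈ Set.Icc 0 Lm) : (R1s * R2s s) ^ 3 = -1 :=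
  pow3_of_braid R1s_sq (R2s_sq hs) (braid1 (rel_path hs))

theorem R0s_star : R0s.conjTranspose = R0s := by
  unfold R0s
  rw [R0, mk4_star]
  apply mk4_ext <;> simp <;> ring

theorem R1s_star : R1s.conjTranspose = R1s := by
  unfold R1s
  rw [R1, mk4_star]
  apply mk4_ext <;> simp <;> ring

/-- the invariant Hermitian form -/
def Hh : M4 := mk4 1 0 0 0 0 1 0 0 0 0 (-1) 0 0 0 0 (-1)

theorem Hh_sq : Hh * Hh = 1 := by
  rw [Hh, mk4_mul, mk4_one]
  apply mk4_ext <;> ring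

theorem R2s_star (s : ℝ) : (R2s s).conjTranspose = -(Hh * R2s s * Hh) := by
  unfold R2s
  rw [R2, mk4_star, Hh, mk4_mul, mk4_mul, mk4_neg]
  apply mk4_ext <;> simp

theorem det_R0s : R0s.det = 1 := by
  have h1 := pB_sq
  have h2 := qB_sq
  have e1 : ((pB : ℝ) : ℂ) * pB = 1 + (hB : ℝ) := by exact_mod_cast h1
  have e2 : ((qB : ℝ) : ℂ) * qB = 1 - (hB : ℝ) := by exact_mod_cast h2
  have hI : I * I = -1 := Complex.I_mul_I
  have hu : ((((pB : ℝ) : ℂ) - qB) / 2 + I * ((pB + qB) / 2)) *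
      (((pB : ℂ) - qB) / 2 - I * ((pB + qB) / 2)) = 1 := by
    linear_combination (-((pB : ℂ) + qB) ^ 2 / 4) * hI + (1 / 2 : ℂ) * e1 + (1 / 2 : ℂ) * e2
  have hv : ((((pB : ℝ) : ℂ) + qB) / 2 - I * ((pB - qB) / 2)) *
      (((pB : ℂ) + qB) / 2 + I * ((pB - qB) / 2)) = 1 := by
    linear_combination (-((pB : ℂ) - qB) ^ 2 / 4) * hI + (1 / 2 : ℂ) * e1 + (1 / 2 : ℂ) * e2
  unfold R0s
  rw [R0]
  generalize ((((pB : ℝ) : ℂ) - qB) / 2 + I * ((pB + qB) / 2)) = u at hu ⊢
  generalize (((pB : ℂ) - qB) / 2 - I * ((pB + qB) / 2)) = u' at hu ⊢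
  generalize ((((pB : ℝ) : ℂ) + qB) / 2 - I * ((pB - qB) / 2)) = v at hv ⊢
  generalize (((pB : ℂ) + qB) / 2 + I * ((pB - qB) / 2)) = v' at hv ⊢
  rw [det_four]
  simp [mk4]
  linear_combination (v * v') * hu + hv

theorem det_of_sq {A : M4} (h : A * A = 1) : A.det * A.det = 1 := by
  rw [← Matrix.det_mul, h, Matrix.det_one]

theorem det_of_braid {A B : M4} (hA : A * A = 1) (hB : B * B = 1)
    (h : B * A * B = -(A * B * A)) : B.det = A.det := by
  have h1 := congrArg Matrix.det h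
  rw [Matrix.det_neg, Matrix.det_mul, Matrix.det_mul, Matrix.det_mul, Matrix.det_mul] at h1
  have h2 := det_of_sq hA
  have h3 := det_of_sq hB
  simp only [Fintype.card_fin] at h1
  have h4 : B.det * A.det * B.det = A.det := by linear_combination A.det * h3
  have h5 : (-1 : ℂ) ^ 4 * (A.det * B.det * A.det) = B.det := by linear_combination B.det * h2
  rw [h4, h5] at h1
  exact h1.symm

theorem det_R2s {s : ℝ} (hs : s ∈ Set.Icc 0 Lm) : (R2s s).det = 1 := by
  rw [det_of_braid R0s_sq (R2s_sq hs) (braid0 (rel_path hs)), det_R0s]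

theorem det_R1s : R1s.det = 1 := by
  rw [← det_R2s zero_mem_L]
  exact (det_of_braid R1s_sq (R2s_sq zero_mem_L) (braid1 (rel_path zero_mem_L))).symm

/-- the three reflections -/
noncomputable def Rm (s : ℝ) : Fin 3 → M4 := ![R0s, R1s, R2s s]

theorem Rm_det {s : ℝ} (hs : s ∈ Set.Icc 0 Lm) (i : Fin 3) : (Rm s i).det = 1 := by
  fin_cases i
  · exact det_R0s
  · exact det_R1s
  · exact det_R2s hs

/-- the three reflections in `SL(4, ℂ)` -/
noncomputable def Rsl {s : ℝ} (hs : s ∈ Set.Icc 0 Lm) (i : Fin 3) : SL4 := ⟨Rm s i, Rm_det hs i⟩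

/-- minus the identity -/
noncomputable def m1 : SL4 := ⟨-1, by
  rw [Matrix.det_neg, Matrix.det_one]
  norm_num⟩

theorem tri_path {s : ℝ} (hs : s ∈ Set.Icc 0 Lm) : TriRel 4 3 3 (Rsl hs) m1 where
  sq i := by
    apply Subtype.ext
    show Rm s i * Rm s i = 1
    fin_cases i
    · exact R0s_sq
    · exact R1s_sq
    · exact R2s_sq hs
  zz := by
    apply Subtype.ext
    show (-1 : M4) * -1 = 1
    rw [neg_mul_neg, one_mul]
  comm i := by
    apply Subtype.ext
    show (-1 : M4) * Rm s i = Rm s i * -1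
    rw [neg_mul, one_mul, mul_neg, mul_one]
  r01 := by
    apply Subtype.ext
    rw [Matrix.SpecialLinearGroup.coe_pow]
    exact R01s_pow
  r12 := by
    apply Subtype.ext
    rw [Matrix.SpecialLinearGroup.coe_pow]
    exact R12s_pow hs
  r02 := by
    apply Subtype.ext
    rw [Matrix.SpecialLinearGroup.coe_pow]
    exact R02s_pow hs

/-- the path of representations -/
noncomputable def PB {s : ℝ} (hs : s ∈ Set.Icc 0 Lm) : Tri 4 3 3 →* SL4 := Tri.lift (tri_path hs)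

theorem PB_s {s : ℝ} (hs : s ∈ Set.Icc 0 Lm) (i : Fin 3) : (PB hs (Tri.s i)).1 = Rm s i := by
  unfold PB
  rw [Tri.lift_s]
  rfl

theorem PB_z {s : ℝ} (hs : s ∈ Set.Icc 0 Lm) : (PB hs Tri.z).1 = -1 := by
  unfold PB
  rw [Tri.lift_z]
  rfl

theorem R2s_continuous : Continuous R2s := by
  have hC : Continuous fun s => ((Cf s : ℝ) : ℂ) := by unfold Cf; fun_prop
  have hS : Continuous fun s => ((Sf s : ℝ) : ℂ) := by unfold Sf; fun_prop
  have hA : Continuous fun s => ((Af s : ℝ) : ℂ) := by unfold Af; fun_prop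
  have hB' : Continuous fun s => ((Bf s : ℝ) : ℂ) := by unfold Bf; fun_prop
  unfold R2s
  refine continuous_matrix fun i j => ?_
  fin_cases i <;> fin_cases j <;> simp only [R2, mk4] <;> simp <;> fun_prop

end Pool.Agent.AnB
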