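import Pool.Agent.AnB.NS

/-!
Hermitian forms: positivity along a path of nonsingular matrices.
-/

namespace Pool.Agent.AnB

open Pool.Agent.Hhelper63.AnT Matrix

theorem Q_conj (A G : M4) (v : Fin 4 → ℂ) :
    Q (A.conjTranspose * G * A) v = Q G (A.mulVec v) := by
  unfold Q
  rw [Matrix.star_mulVec, ← Matrix.dotProduct_mulVec, Matrix.mulVec_mulVec, Matrix.mulVec_mulVec,
    Matrix.mul_assoc]

theorem Q_sub (A B : M4) (v : Fin 4 → ℂ) : Q (A - B) v = Q A v - Q B v := by
  unfold Q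
  rw [Matrix.sub_mulVec, dotProduct_sub, Complex.sub_re]

theorem n2_nonneg (v : Fin 4 → ℂ) : 0 ≤ n2 v := Finset.sum_nonneg fun _ _ => Complex.normSq_nonneg _

theorem n2_pos {v : Fin 4 → ℂ} (hv : v ≠ 0) : 0 < n2 v := by
  refine lt_of_le_of_ne (n2_nonneg v) fun h => hv ?_
  have h1 := (Finset.sum_eq_zero_iff_of_nonneg (fun i _ => Complex.normSq_nonneg (v i))).1 h.symm
  funext i
  exact Complex.normSq_eq_zero.1 (h1 i (Finset.mem_univ i))

theorem Q_continuous : Continuous fun x : M4 × (Fin 4 → ℂ) => Q x.1 x.2 := by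
  unfold Q
  refine Complex.continuous_re.comp ?_
  refine Continuous.dotProduct ?_ ?_
  · exact continuous_star.comp continuous_snd
  · exact Continuous.matrix_mulVec continuous_fst continuous_snd

theorem Q_smul (A : M4) (t : ℂ) (v : Fin 4 → ℂ) : Q A (t • v) = Complex.normSq t * Q A v := by
  unfold Q
  rw [Matrix.mulVec_smul, star_smul, smul_dotProduct, dotProduct_smul, smul_smul, smul_eq_mul]
  have h : star t * t = ((Complex.normSq t : ℝ) : ℂ) := by
    rw [Complex.star_def, Complex.normSq_eq_conj_mul_self]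
  rw [h, Complex.re_ofReal_mul]

theorem n2_smul (t : ℂ) (v : Fin 4 → ℂ) : n2 (t • v) = Complex.normSq t * n2 v := by
  unfold n2
  rw [Finset.mul_sum]
  refine Finset.sum_congr rfl fun i _ => ?_
  rw [Pi.smul_apply, smul_eq_mul, map_mul]

theorem n2_continuous : Continuous fun v : Fin 4 → ℂ => n2 v := by
  unfold n2
  exact continuous_finsetSum _ fun i _ => Complex.continuous_normSq.comp (continuous_apply i)

theorem sphere_compact : IsCompact {v : Fin 4 → ℂ | n2 v = 1} := by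
  refine Metric.isCompact_of_isClosed_isBounded
    (isClosed_eq n2_continuous continuous_const) ?_
  refine (Metric.isBounded_iff_subset_closedBall 0).2 ⟨1, fun v hv => ?_⟩
  rw [mem_closedBall_zero_iff, pi_norm_le_iff_of_nonneg zero_le_one]
  intro i
  have h1 : Complex.normSq (v i) ≤ 1 := by
    rw [← (show n2 v = 1 from hv)]
    exact Finset.single_le_sum (f := fun i => Complex.normSq (v i))
      (fun i _ => Complex.normSq_nonneg _) (Finset.mem_univ i)
  rw [Complex.normSq_eq_norm_sq] at h1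
  have := norm_nonneg (v i)
  nlinarith

/-- scaling to norm one -/
theorem exists_unit (v : Fin 4 → ℂ) : ∃ t : ℂ, Complex.normSq t = (n2 v)⁻¹ := by
  refine ⟨((Real.sqrt (n2 v)⁻¹ : ℝ) : ℂ), ?_⟩
  rw [Complex.normSq_ofReal, Real.mul_self_sqrt (inv_nonneg.2 (n2_nonneg v))]

/-- a positive definite form has a positive minimum on the sphere -/
theorem exists_kappa {A : M4} (h : ∀ v, v ≠ 0 → 0 < Q A v) : ∃ κ > 0, ∀ v, κ * n2 v ≤ Q A v := by
  have hne : {v : Fin 4 → ℂ | n2 v = 1}.Nonempty := by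
    refine ⟨Pi.single 0 1, ?_⟩
    show n2 _ = 1
    unfold n2
    rw [Fin.sum_univ_four]
    simp
  have hc : ContinuousOn (fun v : Fin 4 → ℂ => Q A v) {v | n2 v = 1} :=
    (Q_continuous.comp (Continuous.prodMk continuous_const continuous_id)).continuousOn
  obtain ⟨u, hu, hmin⟩ := sphere_compact.exists_isMinOn hne hc
  have hu0 : u ≠ 0 := by
    rintro rfl
    have : n2 (0 : Fin 4 → ℂ) = 1 := hu
    simp [n2] at this
  refine ⟨Q A u, h u hu0, fun v => ?_⟩
  by_cases hv : v = 0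
  · subst hv
    have h1 : n2 (0 : Fin 4 → ℂ) = 0 := by simp [n2]
    have h2 : Q A 0 = 0 := by simp [Q]
    rw [h1, h2, mul_zero]
  · obtain ⟨t, ht⟩ := exists_unit v
    have hp := n2_pos hv
    have h1 : n2 (t • v) = 1 := by
      rw [n2_smul, ht, inv_mul_cancel₀ hp.ne']
    have h2 : Q A u ≤ Q A (t • v) := hmin h1
    rw [Q_smul, ht] at h2
    have h3 := mul_le_mul_of_nonneg_right h2 hp.le
    calc Q A u * n2 v ≤ (n2 v)⁻¹ * Q A v * n2 v := h3
      _ = Q A v := by field_simp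

/-- openness of positivity -/
theorem pos_open {M : ℝ → M4} (hc : Continuous M) :
    IsOpen {s : ℝ | ∀ v, v ≠ 0 → 0 < Q (M s) v} := by
  have hset : {s : ℝ | ∀ v, v ≠ 0 → 0 < Q (M s) v}ᶜ =
      Prod.fst '' {x : ℝ × (Fin 4 → ℂ) | n2 x.2 = 1 ∧ Q (M x.1) x.2 ≤ 0} := by
    ext s
    constructor
    · intro hs
      rw [Set.mem_compl_iff] at hs
      change ¬ ∀ v, v ≠ 0 → 0 < Q (M s) v at hs
      push Not at hs
      obtain ⟨v, hv, hq⟩ := hs
      obtain ⟨t, ht⟩ := exists_unit v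
      have hp := n2_pos hv
      refine ⟨(s, t • v), ⟨?_, ?_⟩, rfl⟩
      · show n2 (t • v) = 1
        rw [n2_smul, ht, inv_mul_cancel₀ hp.ne']
      · show Q (M s) (t • v) ≤ 0
        rw [Q_smul, ht]
        exact mul_nonpos_of_nonneg_of_nonpos (inv_nonneg.2 hp.le) hq
    · rintro ⟨⟨s', v⟩, ⟨h1, h2⟩, rfl⟩ hs
      have hv : v ≠ 0 := by
        rintro rfl
        have : n2 (0 : Fin 4 → ℂ) = 1 := h1
        simp [n2] at this
      have h3 : 0 < Q (M s') v := hs v hv
      exact absurd h2 (not_le.2 h3)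
  rw [← isClosed_compl_iff, hset]
  have hcl : IsClosed {x : ℝ × (Fin 4 → ℂ) | n2 x.2 = 1 ∧ Q (M x.1) x.2 ≤ 0} := by
    refine IsClosed.inter (isClosed_eq (n2_continuous.comp continuous_snd) continuous_const) ?_
    exact isClosed_le (Q_continuous.comp (Continuous.prodMk (hc.comp continuous_fst)
      continuous_snd)) continuous_const
  have : CompactSpace {v : Fin 4 → ℂ | n2 v = 1} := isCompact_iff_compactSpace.1 sphere_compact
  -- closed projection along the compact factor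
  have hproj : IsClosedMap (Prod.fst : ℝ × {v : Fin 4 → ℂ | n2 v = 1} → ℝ) :=
    isClosedMap_fst_of_compactSpace
  have himg : Prod.fst '' {x : ℝ × (Fin 4 → ℂ) | n2 x.2 = 1 ∧ Q (M x.1) x.2 ≤ 0} =
      Prod.fst '' {x : ℝ × {v : Fin 4 → ℂ | n2 v = 1} | Q (M x.1) x.2.1 ≤ 0} := by
    ext s
    constructor
    · rintro ⟨⟨s', v⟩, ⟨h1, h2⟩, rfl⟩
      exact ⟨(s', ⟨v, h1⟩), h2, rfl⟩
    · rintro ⟨⟨s', v⟩, h2, rfl⟩
      exact ⟨(s', v.1), ⟨v.2, h2⟩, rfl⟩
  rw [himg]
  refine hproj _ (isClosed_le (Q_continuous.comp (Continuous.prodMk (hc.comp continuous_fst)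
      (continuous_subtype_val.comp continuous_snd))) continuous_const)

open scoped ComplexOrder in
/-- a nonnegative Hermitian form vanishes only on the kernel -/
theorem ker_of_zero {A : M4} (hA : A.IsHermitian) (h : ∀ v, 0 ≤ Q A v) {v : Fin 4 → ℂ}
    (hv : Q A v = 0) : A.mulVec v = 0 := by
  have hps : A.PosSemidef := by
    refine Matrix.PosSemidef.of_dotProduct_mulVec_nonneg hA fun x => ?_
    rw [Complex.le_def]
    refine ⟨h x, ?_⟩
    have := hA.im_star_dotProduct_mulVec_self x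
    simpa using this.symm
  have h2 := (hps.dotProduct_mulVec_zero_iff v).1 ?_
  · exact h2
  · apply Complex.ext
    · exact hv
    · exact hA.im_star_dotProduct_mulVec_self v

/-- positivity along a path of nonsingular Hermitian matrices -/
theorem pos_path {L : ℝ} {M : ℝ → M4} (hc : Continuous M) (hH : ∀ s, (M s).IsHermitian)
    (h0 : ∀ v, v ≠ 0 → 0 < Q (M 0) v)
    (hns : ∀ s ∈ Set.Icc 0 L, ∀ v, (M s).mulVec v = 0 → v = 0) :
    ∀ s ∈ Set.Icc 0 L, ∃ κ > 0, ∀ v, κ * n2 v ≤ Q (M s) v := by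
  intro s hs
  have hL : (0 : ℝ) ≤ L := hs.1.trans hs.2
  have hU := pos_open hc
  have hV : IsOpen {s : ℝ | ∃ v, Q (M s) v < 0} := by
    have : {s : ℝ | ∃ v, Q (M s) v < 0} = ⋃ v, {s : ℝ | Q (M s) v < 0} := by
      ext s
      simp
    rw [this]
    exact isOpen_iUnion fun v => isOpen_lt (Q_continuous.comp (Continuous.prodMk hc
      continuous_const)) continuous_const
  have hpre : IsPreconnected (Set.Icc (0 : ℝ) L) := isPreconnected_Icc
  have hcov : Set.Icc (0 : ℝ) L ⊆ {s : ℝ | ∀ v, v ≠ 0 → 0 < Q (M s) v} ∪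
      {s : ℝ | ∃ v, Q (M s) v < 0} := by
    intro t ht
    by_cases hneg : ∃ v, Q (M t) v < 0
    · exact Or.inr hneg
    · left
      push Not at hneg
      intro v hv
      refine lt_of_le_of_ne (hneg v) fun h => hv (hns t ht v (ker_of_zero (hH t) hneg h.symm))
  have hdis : ∀ t, ¬ (t ∈ {s : ℝ | ∀ v, v ≠ 0 → 0 < Q (M s) v} ∧
      t ∈ {s : ℝ | ∃ v, Q (M s) v < 0}) := by
    rintro t ⟨h1, v, h2⟩
    by_cases hv : v = 0
    · subst hv
      simp [Q] at h2
    · exact absurd (h1 v hv) (not_lt.2 h2.le)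
  have hmem : s ∈ {s : ℝ | ∀ v, v ≠ 0 → 0 < Q (M s) v} := by
    by_contra hcon
    have h2 : s ∈ {s : ℝ | ∃ v, Q (M s) v < 0} := (hcov hs).resolve_left hcon
    obtain ⟨t, _, ht⟩ := hpre _ _ hU hV hcov ⟨0, ⟨le_refl 0, hL⟩, h0⟩ ⟨s, hs, h2⟩
    exact hdis t ht
  exact exists_kappa hmem

end Pool.Agent.AnB
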